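import Pool.Agent.RelK.NN
import Pool.Agent.RelY.ACC

/-!
# Locality of acceptance
-/

set_option autoImplicit false

namespace Pool.Agent.RelK

open MeasureTheory Set
open scoped ENNReal
open Pool.Agent.RelB (ML qbs acc_congr str_len_le qbs_mono qb_le_qbs ask_len)
open Pool.Agent.RelM (Lang Instr Cfg run Halts pair triple str pre hq wq sq0 sq1 Asks code qb)
open Pool.Agent.RelO (lev st)
open Pool.Agent.RelS (Z Rl orcV orc acc Idx Om Dep mixP oloc mixP_pos mixP_neg)
open Pool.Agent.RelU (NM key)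
open Pool.Agent.RelY (ucode ms accw amb nn jj sv coin kk op NoKey bitsOf Pw Wd bl SS Hl Dj NK pr si
  nnmono nnge jjspec jj_eq jj_le lev_len lev_pos key_ne kk_le op_le op_congr Wd_lt qb_small qb_le
  accw_loc accw_congr amb_congr orc_loc)

variable [Md]

theorem qb_vs {j n : ℕ} {v : NM} (hv : v ∈ vs j) : qb v n ≤ qbs (ms j) n := by
  unfold vs at hv
  rw [List.mem_cons, List.mem_cons] at hv
  rcases hv with rfl | rfl | h
  · exact (qb_pc _ n).1.trans (qb_le j n)
  · exact (qb_pc _ n).2.trans (qb_le j n)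
  · simp at h

theorem vs_one (j : ℕ) : (pc (st j)).1 ∈ vs j := List.mem_cons_self

theorem vs_two (j : ℕ) : (pc (st j)).2 ∈ vs j := List.mem_cons_of_mem _ List.mem_cons_self

/-- Acceptance in terms of witnesses. -/
theorem acc_iff (O : Lang) (v : NM) (x : List Bool) : acc O v x ↔ ∃ y, accw O v x y := Iff.rfl

/-- Ambiguity in terms of witnesses. -/
theorem amb_iff (O : Lang) (v : NM) (x : List Bool) :
    amb O v x ↔ ∃ y y', y ≠ y' ∧ accw O v x y ∧ accw O v x y' := Iff.rfl

theorem accw_stage {j t : ℕ} {η η' : ℕ → ℕ → ℝ} {z z' : Z} (ht : t ∈ Wd j)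
    (hh : ∀ i, i < j → η i = η' i)
    (hz : ∀ κ x y, lev κ x < nn (j + 1) → y.length = lev κ x → z κ x y = z' κ x y)
    {v : NM} (hv : v ∈ vs j) (y : List Bool) : accw (orc (bitsOf η) z) v (str t) y ↔
      accw (orc (bitsOf η') z') v (str t) y :=
  accw_congr fun _ hq => orc_loc ht hh hz (hq.trans (qb_vs hv))

theorem acc_stage {j t : ℕ} {η η' : ℕ → ℕ → ℝ} {z z' : Z} (ht : t ∈ Wd j)
    (hh : ∀ i, i < j → η i = η' i)
    (hz : ∀ κ x y, lev κ x < nn (j + 1) → y.length = lev κ x → z κ x y = z' κ x y)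
    {v : NM} (hv : v ∈ vs j) : acc (orc (bitsOf η) z) v (str t) ↔
      acc (orc (bitsOf η') z') v (str t) :=
  exists_congr fun y => accw_stage ht hh hz hv y

theorem amb_stage {j t : ℕ} {η η' : ℕ → ℕ → ℝ} {z z' : Z} (ht : t ∈ Wd j)
    (hh : ∀ i, i < j → η i = η' i)
    (hz : ∀ κ x y, lev κ x < nn (j + 1) → y.length = lev κ x → z κ x y = z' κ x y)
    {v : NM} (hv : v ∈ vs j) : amb (orc (bitsOf η) z) v (str t) ↔
      amb (orc (bitsOf η') z') v (str t) :=
  exists_congr fun y => exists_congr fun y' => and_congr_right fun _ =>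
    and_congr (accw_stage ht hh hz hv y) (accw_stage ht hh hz hv y')

theorem bad_stage {j t : ℕ} {η η' : ℕ → ℕ → ℝ} {z z' : Z} (b : ℕ) (ht : t ∈ Wd j)
    (hh : ∀ i, i < j → η i = η' i)
    (hz : ∀ κ x y, lev κ x < nn (j + 1) → y.length = lev κ x → z κ x y = z' κ x y) :
    bad b (orc (bitsOf η) z) (pc (st j)) (str t) ↔
      bad b (orc (bitsOf η') z') (pc (st j)) (str t) := by
  unfold bad
  rw [acc_stage ht hh hz (vs_one j), acc_stage ht hh hz (vs_two j),
    amb_stage ht hh hz (vs_one j), amb_stage ht hh hz (vs_two j)]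

theorem accl : T_ACC := by
  intro j t η η' ω ω' ht hh hw
  have hz : ∀ κ x y, lev κ x < nn (j + 1) → y.length = lev κ x →
      zo ω κ x y = zo ω' κ x y := fun κ x y h1 h2 => zo_old hw h1 h2
  exact ⟨acc_stage ht hh hz (vs_one j), fun b => bad_stage b ht hh hz⟩

end Pool.Agent.RelK
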