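import Pool.Agent.RelY.DENT
import Pool.Agent.RelY.MEAS
import Pool.Agent.RelY.Targets
import Pool.Agent.RelU.Targets

/-!
# Worlds with three types of families

For every word `x` and every `κ` there is a fair coin `(κ, x, [], 0)`. The type `Md.ty κ` of the family `κ` says
which signed words `x c` (`c` a bit) may have keys, and how many:
`0`: only `x true`, if the coin is `true`; the key is unique and its bits are fair coins (as in RelU);
`1`: `x c` if `c` is the value of the coin; many keys, of a random density (as in RelY);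
`2`: only `x true`, if the coin is `true`; many keys, of a random density.
The machines, the stages, the options, the supergales are those of `Pool.Agent.RelY.Core`; stage `j` treats the
pair of machines `pc (st j)`. The type of the families is an argument of the class `Md`, so the names are
those of `RelY` and the files of `RelY` can be edited.
-/

set_option autoImplicit false

namespace Pool.Agent.RelK

open MeasureTheory Set
open scoped ENNReal
open Pool.Agent.RelM (Lang Instr Cfg step run Halts Decides E1 E2 NP pair triple binVal outVal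
  Approx IsDensity str pre IsNullCover Null1 Null2 wq sq0 sq1 Asks hq code qb)
open Pool.Agent.RelO (lev IsGale IsGaleCover GaleNull1 GaleNull2 st)
open Pool.Agent.RelS (Z Rl orcV orc acc Idx Om bern bern_prob Dep mixP PF wt)
open Pool.Agent.RelB (ML qbs qf ee DD WW iot)
open Pool.Agent.RelU (NM NPco key cfg Cert)
open Pool.Agent.RelY (ucode ms accw amb nn jj sv coin kk op NoKey bitsOf Pw Wd bl SS Hl Dj NK pr si
  Tree)

/-- The types of the families. -/
class Md : Type where
  ty : ℕ → ℕ

variable [Md]

/-! ## Pairs of machines -/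

/-- The pair of machines number `e`. It is encoded by the machine `ucode e`: the length of its program is
the number of the pair, and its exponents bound the exponents of the two machines. -/
noncomputable def pc (e : ℕ) : NM × NM :=
  if (Pool.Agent.RelU.pcode (ucode e).1.length).1.2.1 +
        (Pool.Agent.RelU.pcode (ucode e).1.length).1.2.2 ≤ (ucode e).2.1 + (ucode e).2.2 ∧
      (Pool.Agent.RelU.pcode (ucode e).1.length).2.2.1 +
        (Pool.Agent.RelU.pcode (ucode e).1.length).2.2.2 ≤ (ucode e).2.1 + (ucode e).2.2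
  then Pool.Agent.RelU.pcode (ucode e).1.length
  else (([], 0, 0), ([], 0, 0))

/-- The machines of stage `j`. -/
noncomputable def vs (j : ℕ) : List NM := [(pc (st j)).1, (pc (st j)).2]

/-- The hypothesis number `b` on the pair of machines fails at the word `x`: `0`: the first machine is
unambiguous; `1`: the machines are complementary; `2`: all this, for both machines. -/
def bad (b : ℕ) (O : Lang) (p : NM × NM) (x : List Bool) : Prop :=
  if b = 0 then amb O p.1 x
  else if b = 1 then (acc O p.1 x ↔ acc O p.2 x)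
  else ((acc O p.1 x ↔ acc O p.2 x) ∨ amb O p.1 x ∨ amb O p.2 x)

/-! ## Coins -/

/-- The coins older than stage `j`. The coins are: `(κ, x, [], 0)` of the word `x`; `(v, [], [], m + 1)` for the
option of the words that are old for the first time at stage `v`; for `x ≠ []` the bits
`(κ, x, [], i + 1)` of the unique key of the signed word `x`; and the key coins `(κ, x, y, i)`. -/
def Old (j : ℕ) : Set Idx :=
  {a | a.1 ≤ nn j ∧ a.2.1.length ≤ nn j ∧ a.2.2.1.length ≤ nn j ∧ a.2.2.2 ≤ nn j ∧
    (a.2.2.1 = [] → a.2.2.2 = 0 → lev a.1 (a.2.1 ++ [false]) < nn j) ∧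
    (a.2.2.1 = [] → a.2.2.2 ≠ 0 → a.2.1 = [] → a.1 ≤ j) ∧
    (a.2.2.1 = [] → a.2.2.2 ≠ 0 → a.2.1 ≠ [] → lev a.1 a.2.1 < nn j) ∧
    (a.2.2.1 ≠ [] → lev a.1 a.2.1 < nn j)}

/-- The signed word `x` may have keys. -/
def sgn (ω : Om) (κ : ℕ) (x : List Bool) : Bool :=
  match x.getLast? with
  | none => false
  | some c => if Md.ty κ = 1 then c == ω (κ, x.dropLast, [], 0) else c && ω (κ, x.dropLast, [], 0)

open Classical in
/-- The world. (If there should be many keys, but there is no key, all words are keys.) -/
noncomputable def zo (ω : Om) : Z := fun κ x y => sgn ω κ x &&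
  (if Md.ty κ = 0 then decide (y = key ω κ x)
    else ω (κ, x, y, op ω (jj (lev κ x))) || decide (NoKey ω κ x (op ω (jj (lev κ x)))))

/-! ## Probabilities -/

/-- The oracle of the probabilities `η`. -/
noncomputable def oh (η : ℕ → ℕ → ℝ) (ω : Om) : Lang := orc (bitsOf η) (zo ω)

/-- The first machine of stage `j` accepts the word number `t`. -/
def ans (j : ℕ) (η : ℕ → ℕ → ℝ) (ω : Om) (t : ℕ) : Prop :=
  acc (oh η ω) (pc (st j)).1 (str t)

/-- The hypothesis number `b` fails at the word number `t`. -/
def ans2 (b j : ℕ) (η : ℕ → ℕ → ℝ) (ω : Om) (t : ℕ) : Prop :=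
  bad b (oh η ω) (pc (st j)) (str t)

/-- The probability that the first machine accepts the word number `t`, given the coins older than
stage `j`. -/
noncomputable def pa (j : ℕ) (η : ℕ → ℕ → ℝ) (ω : Om) (t : ℕ) : ℝ :=
  coin.real {τ | ans j η (mixP (Old j) ω τ) t}

/-- The probabilities after the stages before `j`. -/
noncomputable def hs (ω : Om) : ℕ → ℕ → ℕ → ℝ
  | 0 => fun _ _ => 1 / 2
  | j + 1 => Function.update (hs ω j) j fun t => pa j (hs ω j) ω t

/-- The probabilities. -/
noncomputable def hf (ω : Om) : ℕ → ℕ → ℝ := fun j => hs ω (j + 1) j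

/-- The oracle. -/
noncomputable def oo (ω : Om) : Lang := oh (hf ω) ω

/-! ## Hiding (`bl`, `SS`, `Hl` are those of RelY) -/

/-- The oracle in which only the pairs `SS κ t` are visible, and only the part `11` that can be read. -/
noncomputable def ov (κ t : ℕ) (ω : Om) : Lang :=
  orcV (SS κ t) (bitsOf (hs ω (bl κ (str t)))) (zo ω)

/-- The coins visible to a gambler who bets on the coin of the word number `t`. -/
def Vis (κ t : ℕ) : Set Idx :=
  {a | a ∈ Old (bl κ (str t)) ∧
    ¬ (a.1 = κ ∧ a.2.2.1 = [] ∧ a.2.2.2 = 0 ∧ ∃ t', t ≤ t' ∧ a.2.1 = str t') ∧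
    ¬ (a.1 = κ ∧ a.2.2.1 = [] ∧ a.2.2.2 ≠ 0 ∧ ∃ t', t ≤ t' ∧ ∃ c, a.2.1 = str t' ++ [c]) ∧
    ¬ (a.1 = κ ∧ a.2.2.1 ≠ [] ∧ ∃ t', t ≤ t' ∧ ∃ c, a.2.1 = str t' ++ [c])}

/-! ## The success of a stage -/

/-- The probability of acceptance used at stage `j`. -/
noncomputable def pp (j t : ℕ) (ω : Om) : ℝ := pa j (hs ω j) ω t

/-- The first machine of stage `j` accepts the word number `t` in the end. -/
def Tr (j t : ℕ) (ω : Om) : Prop := acc (oo ω) (pc (st j)).1 (str t)

/-- The hypothesis number `b` fails at the word number `t` in the end. -/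
def Tr2 (b j t : ℕ) (ω : Om) : Prop := bad b (oo ω) (pc (st j)) (str t)

open Classical in
/-- The probability given to the answer on the word number `t`. -/
noncomputable def ql (j t : ℕ) (ω : Om) : ℝ := qf (pp j t ω) (decide (Tr j t ω))

/-- The loss of stage `j`. -/
noncomputable def loss (j : ℕ) (ω : Om) : ℝ := ∑ t ∈ Wd j, -Real.log (ql j t ω)

/-- Stage `j` fails. -/
def fail (δ : ℝ) (j : ℕ) : Set Om :=
  {ω | δ * 2 ^ (nn j + j) ≤ loss j ω ∨ ∃ t ∈ Wd j, ql j t ω = 0}

/-- The language of the first machine of stage `j`. -/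
noncomputable def Lj (j : ℕ) (ω : Om) : Lang := by
  classical exact fun x => decide (acc (oo ω) (pc (st j)).1 x)

/-! ## The new coins of a stage -/

/-- The coin belongs to the first kind: it is not an option coin and not a key coin. -/
def Fst (a : Idx) : Prop := a.2.2.1 = [] ∧ (a.2.2.2 = 0 ∨ a.2.1 ≠ [])

/-- The new part of the world with the new keys `w` and the coins of the first kind of `τ`. -/
def Cw (j : ℕ) (τ : Om) (w : Dj j → Bool) : Dj j → Bool := fun d => sgn τ d.1.1 d.1.2.1 &&
  (if Md.ty d.1.1 = 0 then decide (d.1.2.2 = key τ d.1.1 d.1.2.1) else w d)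

/-- The world with the old part of `ω` and the new part `c`. -/
noncomputable def Wz (j : ℕ) (ω : Om) (c : Dj j → Bool) : Z := WW (nn j) (nn (j + 1)) (zo ω) c

/-- The machine `v` accepts the witness `y` of the word number `t`, in the world with the new part `c`. -/
def Aw (j : ℕ) (η : ℕ → ℕ → ℝ) (ω : Om) (v : NM) (t : ℕ) (y : List Bool) (c : Dj j → Bool) :
    Prop := accw (orc (bitsOf η) (Wz j ω c)) v (str t) y

/-- The new keys with the right option. -/
noncomputable def ck (j : ℕ) (τ : Om) : Dj j → Bool := fun d =>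
  τ (iot (nn j) (nn (j + 1)) (op τ (j + 1)) d)

/-- Some witness is accepted if no new word of the types `1` and `2` has a key. -/
def G0 (j : ℕ) (η : ℕ → ℕ → ℝ) (ω τ : Om) (v : NM) (t : ℕ) : Prop :=
  ∃ y, Aw j η ω v t y (Cw j τ fun _ => false)

/-! ## The new unique keys of a stage -/

/-- The new signed words of type `0` that may have a key. -/
def Nw (j : ℕ) : Type := {p : ℕ × List Bool // nn j ≤ lev p.1 p.2 ∧ lev p.1 p.2 < nn (j + 1) ∧
  Md.ty p.1 = 0 ∧ p.2.getLast? = some true}

theorem nw_fin (j : ℕ) : {p : ℕ × List Bool | nn j ≤ lev p.1 p.2 ∧ lev p.1 p.2 < nn (j + 1) ∧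
    Md.ty p.1 = 0 ∧ p.2.getLast? = some true}.Finite := by
  refine (((Set.finite_Iic (nn (j + 1))).prod
    (List.finite_length_le Bool (nn (j + 1))))).subset ?_
  rintro ⟨κ, x⟩ ⟨_, h, _⟩
  have h' : lev κ x < nn (j + 1) := h
  exact Pool.Agent.RelO.levfin κ x _ h'.le

noncomputable instance (j : ℕ) : Fintype (Nw j) := (nw_fin j).fintype

/-- The key bits of a new word. -/
abbrev KK (j : ℕ) : Type := Fin (nn (j + 1)) → Bool

/-- The key of a new word consists of its first `lev` bits. -/
noncomputable def ek (j : ℕ) (p : Nw j) (k : KK j) : List Bool :=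
  (List.range (lev p.1.1 p.1.2)).map fun i => if h : i < nn (j + 1) then k ⟨i, h⟩ else false

/-- The new part of the world of a configuration of unique keys. -/
noncomputable def cc (j : ℕ) (c : Nw j → Option (List Bool)) : Dj j → Bool := fun d =>
  if h : nn j ≤ lev d.1.1 d.1.2.1 ∧ lev d.1.1 d.1.2.1 < nn (j + 1) ∧ Md.ty d.1.1 = 0 ∧
    d.1.2.1.getLast? = some true then decide (c ⟨(d.1.1, d.1.2.1), h⟩ = some d.1.2.2) else false

/-- The configurations with which the machine `v` accepts the word number `t`. -/
def Ac (j : ℕ) (η : ℕ → ℕ → ℝ) (ω : Om) (v : NM) (t : ℕ) : Set (Nw j → Option (List Bool)) :=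
  {c | ∃ y, Aw j η ω v t y (cc j c)}

/-- The class treated with the hypothesis number `b`. -/
def Cls (b : ℕ) (O : Lang) : Set Lang :=
  if b = 0 then Pool.Agent.RelQ.UP O else if b = 1 then NPco O
  else {A | A ∈ Pool.Agent.RelQ.UP O ∧ (fun x => !A x) ∈ Pool.Agent.RelQ.UP O}

end Pool.Agent.RelK
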