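import Pool.Agent.RelK.Targets
import Pool.Agent.RelY.P_AVG

/-!
# RelK, target AVG: the law of the option and of the new key coins
-/

set_option autoImplicit false

namespace Pool.Agent.RelK

open MeasureTheory Set
open scoped ENNReal
open Pool.Agent.RelO (lev)
open Pool.Agent.RelS (Idx Om bern bern_prob Dep mixP PF wt fd meas_of_dep mixP_pos mixP_neg
  PF_nonneg PF_le_one)
open Pool.Agent.RelB (iot iot_inj pi_real)
open Pool.Agent.RelY (nn sv coin kk op Dj pr si op_congr op_le kk_le lint_mix sv_pos sv_le_one)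

namespace AVG_

theorem oldfin' (j : ℕ) : (Old j).Finite := by
  have h1 : (Set.Iic (nn j) ×ˢ ({x : List Bool | x.length ≤ nn j} ×ˢ
      ({y : List Bool | y.length ≤ nn j} ×ˢ Set.Iic (nn j))) : Set Idx).Finite :=
    (Set.finite_Iic _).prod ((List.finite_length_le Bool _).prod
      ((List.finite_length_le Bool _).prod (Set.finite_Iic _)))
  refine h1.subset ?_
  rintro ⟨κ, x, y, i⟩ ⟨h2, h3, h4, h5, -⟩
  exact ⟨h2, h3, h4, h5⟩

theorem not_fst (v m : ℕ) : ¬ Fst ((v, [], [], m + 1) : Idx) := by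
  rintro ⟨-, h | h⟩
  · exact Nat.succ_ne_zero m h
  · exact h rfl

end AVG_

variable [Md]

theorem p_AVG : T_AVG := by
  intro j Q hQ
  set S : Set Idx := {a | a ∈ Old (j + 1) ∧ Fst a} with hS
  have hSf : S.Finite := (AVG_.oldfin' (j + 1)).subset fun a ha => ha.1
  have hQ' : ∀ τ τ' : Om, (∀ a ∈ S, τ a = τ' a) → Q τ = Q τ' := fun τ τ' h =>
    hQ τ τ' fun a h1 h2 => h a ⟨h1, h2⟩
  set E : Set Om := {τ | (fun d => τ (iot (nn j) (nn (j + 1)) (op τ (j + 1)) d)) ∈ Q τ} with hE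
  have hEm : MeasurableSet E := by
    refine fd (hSf.union (Pool.Agent.RelY.oldfin (j + 1))) fun ω ω' h => ?_
    have h1 : op ω (j + 1) = op ω' (j + 1) := op_congr fun m hm =>
      h _ (Or.inr (Pool.Agent.RelY.old_op le_rfl hm))
    have h2 : Q ω = Q ω' := hQ' ω ω' fun a ha => h a (Or.inl ha)
    have h3 : (fun d => ω (iot (nn j) (nn (j + 1)) (op ω (j + 1)) d)) =
        fun d => ω' (iot (nn j) (nn (j + 1)) (op ω' (j + 1)) d) := by
      funext d
      rw [← h1]
      refine h _ (Or.inr (Pool.Agent.RelY.old_key d.2.2.1 d.2.2.2 ?_))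
      have h4 := op_le ω (j + 1)
      have h5 := kk_le (le_refl (j + 1))
      omega
    show (fun d => ω (iot (nn j) (nn (j + 1)) (op ω (j + 1)) d)) ∈ Q ω ↔
      (fun d => ω' (iot (nn j) (nn (j + 1)) (op ω' (j + 1)) d)) ∈ Q ω'
    rw [h2, h3]
  have key : coin E = ∫⁻ ω, ENNReal.ofReal
      (∑ i ∈ Finset.range (kk (j + 1) + 1), pr (j + 1) i * PF (si j i) (Q ω)) ∂coin := by
    have h1 := lint_mix (p := S) hEm (H := fun _ => 1) measurable_const fun _ _ _ => rfl
    rw [lintegral_const, Measure.restrict_apply MeasurableSet.univ, Set.univ_inter, one_mul] at h1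
    rw [h1]
    refine lintegral_congr fun ω => ?_
    rw [one_mul, ← Pool.Agent.RelY.AVG_.law j (Q ω)]
    congr 1
    ext τ
    have h2 : op (mixP S ω τ) (j + 1) = op τ (j + 1) := op_congr fun m _ =>
      mixP_neg fun h => AVG_.not_fst _ _ h.2
    have h3 : Q (mixP S ω τ) = Q ω := hQ' _ _ fun a ha => mixP_pos ha
    have h4 : ∀ (i : ℕ) (d : Dj j), mixP S ω τ (iot (nn j) (nn (j + 1)) i d) =
        τ (iot (nn j) (nn (j + 1)) i d) := fun i d =>
      mixP_neg fun h => Pool.Agent.RelY.AVG_.iot_ne d h.2.1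
    show (fun d => mixP S ω τ (iot (nn j) (nn (j + 1)) (op (mixP S ω τ) (j + 1)) d)) ∈
      Q (mixP S ω τ) ↔ (fun d => τ (iot (nn j) (nn (j + 1)) (op τ (j + 1)) d)) ∈ Q ω
    rw [h2, h3]
    simp only [h4]
  have hnn : ∀ ω : Om, 0 ≤
      ∑ i ∈ Finset.range (kk (j + 1) + 1), pr (j + 1) i * PF (si j i) (Q ω) := by
    intro ω
    refine Finset.sum_nonneg fun i _ => ?_
    have h0 : (0 : ℝ) ≤ pr (j + 1) i := by
      unfold pr
      split_ifs <;> positivity
    exact mul_nonneg h0 (PF_nonneg (fun d => (sv_pos _).le) (fun d => sv_le_one _) _)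
  have hms : Measurable fun ω : Om =>
      ∑ i ∈ Finset.range (kk (j + 1) + 1), pr (j + 1) i * PF (si j i) (Q ω) := by
    refine meas_of_dep hSf fun ω ω' h => ?_
    show (∑ i ∈ Finset.range (kk (j + 1) + 1), pr (j + 1) i * PF (si j i) (Q ω)) =
      ∑ i ∈ Finset.range (kk (j + 1) + 1), pr (j + 1) i * PF (si j i) (Q ω')
    rw [hQ' ω ω' h]
  rw [integral_eq_lintegral_of_nonneg_ae (Filter.Eventually.of_forall hnn)
    hms.aestronglyMeasurable, ← key]
  rfl

end Pool.Agent.RelK
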