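import Pool.Agent.RelK.Targets
import Pool.Agent.RelY.NN

/-!
# The old coins, the world, the histories
-/

set_option autoImplicit false

namespace Pool.Agent.RelK

open MeasureTheory
open Pool.Agent.RelB (ML qbs)
open Pool.Agent.RelM (Lang str qb Instr)
open Pool.Agent.RelO (lev st levfin levmono)
open Pool.Agent.RelS (Z Rl orcV orc acc Idx Om Dep mixP mixP_pos mixP_neg)
open Pool.Agent.RelU (NM key)
open Pool.Agent.RelY (ucode ms accw amb nn jj sv coin kk op NoKey bitsOf Pw Wd bl SS Hl Dj NK pr si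
  nnmono nnge jjspec jj_eq jj_le lev_len lev_pos key_ne kk_le op_le op_congr)

variable [Md]

theorem oldfin : T_OLDFIN := by
  intro j
  have h1 : (Set.Iic (nn j) ×ˢ ({x : List Bool | x.length ≤ nn j} ×ˢ
      ({y : List Bool | y.length ≤ nn j} ×ˢ Set.Iic (nn j))) : Set Idx).Finite :=
    (Set.finite_Iic _).prod ((List.finite_length_le Bool _).prod
      ((List.finite_length_le Bool _).prod (Set.finite_Iic _)))
  refine h1.subset ?_
  rintro ⟨κ, x, y, i⟩ ⟨h2, h3, h4, h5, -⟩
  exact ⟨h2, h3, h4, h5⟩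

theorem old_mono {m m' : ℕ} (h : m ≤ m') : Old m ⊆ Old m' := by
  rintro a ⟨h1, h2, h3, h4, h5, h6, h6', h7⟩
  have h8 := nnmono.monotone h
  exact ⟨h1.trans h8, h2.trans h8, h3.trans h8, h4.trans h8,
    fun e1 e2 => (h5 e1 e2).trans_le h8, fun e1 e2 e3 => (h6 e1 e2 e3).trans h,
    fun e1 e2 e3 => (h6' e1 e2 e3).trans_le h8, fun e1 => (h7 e1).trans_le h8⟩

/-- Every coin is old in the end. -/
theorem old_all (a : Idx) : ∃ m, a ∈ Old m := by
  refine ⟨a.1 + a.2.1.length + a.2.2.1.length + a.2.2.2 + lev a.1 (a.2.1 ++ [false]) +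
    lev a.1 a.2.1, ?_⟩
  have := nnge (a.1 + a.2.1.length + a.2.2.1.length + a.2.2.2 + lev a.1 (a.2.1 ++ [false]) +
    lev a.1 a.2.1)
  refine ⟨?_, ?_, ?_, ?_, ?_, ?_, ?_, ?_⟩
  all_goals
    intros
    omega

/-! ## The coins of a pair -/

/-- The sign coin of a signed word is old if the word is cheap. -/
theorem old_sgn {j κ : ℕ} {x : List Bool} (hx : x ≠ []) (h : lev κ x < nn j) :
    ((κ, x.dropLast, [], 0) : Idx) ∈ Old j := by
  obtain ⟨h1, h2⟩ := levfin κ x (nn j) h.le
  have h3 : (x.dropLast ++ [false]).length = x.length := by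
    have := List.length_pos_iff.2 hx
    simp
    omega
  refine ⟨h1, ?_, Nat.zero_le _, Nat.zero_le _, fun _ _ => ?_, fun _ e => absurd rfl e,
    fun _ e => absurd rfl e, fun e => absurd rfl e⟩
  · show x.dropLast.length ≤ nn j
    rw [List.length_dropLast]
    omega
  · show lev κ (x.dropLast ++ [false]) < nn j
    rw [lev_len h3]
    exact h

/-- The option coins of an old stage are old. -/
theorem old_op {v j m : ℕ} (h : v ≤ j) (hm : m < kk v) : ((v, [], [], m + 1) : Idx) ∈ Old j := by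
  have h1 := nnge j
  have h2 := kk_le h
  refine ⟨?_, Nat.zero_le _, Nat.zero_le _, ?_, fun _ e => absurd e (Nat.succ_ne_zero m),
    fun _ _ _ => h, fun _ _ e => absurd rfl e, fun e => absurd rfl e⟩
  · show v ≤ nn j
    omega
  · show m + 1 ≤ nn j
    omega

/-- The key coins of a cheap word are old. -/
theorem old_key {j κ i : ℕ} {x y : List Bool} (h : lev κ x < nn j) (hy : y.length = lev κ x)
    (hi : i ≤ nn j) : ((κ, x, y, i) : Idx) ∈ Old j := by
  obtain ⟨h1, h2⟩ := levfin κ x (nn j) h.le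
  refine ⟨h1, h2, ?_, hi, fun e => absurd e (key_ne hy), fun e => absurd e (key_ne hy),
    fun e => absurd e (key_ne hy), fun _ => h⟩
  show y.length ≤ nn j
  omega

/-- The bits of the unique key of a cheap word are old. -/
theorem old_kb {j κ i : ℕ} {x : List Bool} (hx : x ≠ []) (h : lev κ x < nn j)
    (hi : i < lev κ x) : ((κ, x, [], i + 1) : Idx) ∈ Old j := by
  obtain ⟨h1, h2⟩ := levfin κ x (nn j) h.le
  refine ⟨h1, h2, Nat.zero_le _, ?_, fun _ e => absurd e (Nat.succ_ne_zero i),
    fun _ _ e => absurd e hx, fun _ _ _ => h, fun e => absurd rfl e⟩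
  show i + 1 ≤ nn j
  omega

/-! ## The options -/

/-- The key depends only on its bits. -/
theorem key_congr {ω ω' : Om} {κ : ℕ} {x : List Bool}
    (h : ∀ i < lev κ x, ω (κ, x, [], i + 1) = ω' (κ, x, [], i + 1)) :
    key ω κ x = key ω' κ x := by
  unfold key
  refine List.map_congr_left fun i hi => ?_
  rw [h i (List.mem_range.1 hi)]

theorem sgn_congr' {ω ω' : Om} {κ : ℕ} {x : List Bool}
    (h0 : x ≠ [] → ω (κ, x.dropLast, [], 0) = ω' (κ, x.dropLast, [], 0)) :
    sgn ω κ x = sgn ω' κ x := by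
  unfold sgn
  rcases eq_or_ne x [] with rfl | hx
  · rfl
  · rw [List.getLast?_eq_some_getLast hx]
    simp only [h0 hx]

/-- The empty word has no keys. -/
theorem sgn_nil (ω : Om) (κ : ℕ) : sgn ω κ [] = false := rfl

/-- The world depends only on the coins of the pairs and on the options. -/
theorem zo_congr {ω ω' : Om} {κ : ℕ} {x : List Bool}
    (h0 : x ≠ [] → ω (κ, x.dropLast, [], 0) = ω' (κ, x.dropLast, [], 0))
    (hk : Md.ty κ = 0 → x ≠ [] → ∀ i < lev κ x, ω (κ, x, [], i + 1) = ω' (κ, x, [], i + 1))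
    (h1 : Md.ty κ ≠ 0 → op ω (jj (lev κ x)) = op ω' (jj (lev κ x)))
    (h2 : Md.ty κ ≠ 0 → ∀ y : List Bool, y.length = lev κ x →
      ω (κ, x, y, op ω (jj (lev κ x))) = ω' (κ, x, y, op ω (jj (lev κ x))))
    {y : List Bool} (hy : y.length = lev κ x) : zo ω κ x y = zo ω' κ x y := by
  have h3 : sgn ω κ x = sgn ω' κ x := sgn_congr' h0
  unfold zo
  rw [h3]
  rcases eq_or_ne x [] with rfl | hx
  · rw [sgn_nil, Bool.false_and, Bool.false_and]
  congr 1
  by_cases ht : Md.ty κ = 0
  · rw [if_pos ht, if_pos ht, key_congr (hk ht hx)]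
  · have h4 : NoKey ω κ x (op ω (jj (lev κ x))) ↔ NoKey ω' κ x (op ω' (jj (lev κ x))) := by
      unfold NoKey
      rw [← h1 ht]
      refine forall_congr' fun y' => forall_congr' fun hy' => ?_
      rw [h2 ht y' hy']
    rw [if_neg ht, if_neg ht, h2 ht y hy, ← h1 ht]
    congr 1
    rw [decide_eq_decide, h4, ← h1 ht]

/-- The old part of the world. -/
theorem zo_old {ω ω' : Om} {j κ : ℕ} {x y : List Bool} (h : ∀ a ∈ Old j, ω a = ω' a)
    (hl : lev κ x < nn j) (hy : y.length = lev κ x) : zo ω κ x y = zo ω' κ x y := by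
  have h1 := jj_le hl
  refine zo_congr (fun hx => h _ (old_sgn hx hl)) (fun _ hx i hi => h _ (old_kb hx hl hi))
    (fun _ => op_congr fun m hm => h _ (old_op h1 hm))
    (fun _ y' hy' => h _ (old_key hl hy' ?_)) hy
  have h2 := op_le ω (jj (lev κ x))
  have h3 := kk_le h1
  omega

theorem sgn_true (ω : Om) (κ : ℕ) (x : List Bool) :
    sgn ω κ (x ++ [true]) = ω (κ, x, [], 0) := by
  unfold sgn
  simp

theorem sgn_false (ω : Om) {κ : ℕ} (h : Md.ty κ = 1) (x : List Bool) :
    sgn ω κ (x ++ [false]) = !ω (κ, x, [], 0) := by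
  unfold sgn
  simp [h]

theorem key_len (ω : Om) (κ : ℕ) (x : List Bool) : (key ω κ x).length = lev κ x := by
  simp [key]

/-- The words with a key. -/
theorem rl_zo (ω : Om) (κ : ℕ) (x : List Bool) : Rl (zo ω) κ x = sgn ω κ x := by
  classical
  unfold Rl
  rw [Bool.eq_iff_iff]
  simp only [decide_eq_true_eq]
  constructor
  · rintro ⟨y, _, hy⟩
    unfold zo at hy
    rw [Bool.and_eq_true] at hy
    exact hy.1
  · intro h
    by_cases ht : Md.ty κ = 0
    · refine ⟨key ω κ x, key_len ω κ x, ?_⟩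
      unfold zo
      simp [h, ht]
    by_cases hN : NoKey ω κ x (op ω (jj (lev κ x)))
    · refine ⟨List.replicate (lev κ x) false, by simp, ?_⟩
      unfold zo
      simp [h, hN, ht]
    · have hN' := hN
      unfold NoKey at hN'
      push Not at hN'
      obtain ⟨y, hy, hy'⟩ := hN'
      refine ⟨y, hy, ?_⟩
      unfold zo
      rw [h, if_neg ht]
      simp only [Bool.true_and, Bool.or_eq_true]
      left
      simpa using hy'

/-! ## The pairs of machines -/

/-- Every pair of machines has a number. -/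
theorem pc_surj (p : NM × NM) : ∃ e, pc e = p := by
  obtain ⟨n, hn⟩ := Pool.Agent.RelU.pcode_surj p
  obtain ⟨e, he⟩ := Pool.Agent.RelY.ucode_surj
    (List.replicate n (Instr.push 0 true), max p.1.2.1 p.2.2.1, max p.1.2.2 p.2.2.2)
  refine ⟨e, ?_⟩
  unfold pc
  rw [he]
  simp only [List.length_replicate, hn]
  exact if_pos ⟨add_le_add (le_max_left _ _) (le_max_left _ _),
    add_le_add (le_max_right _ _) (le_max_right _ _)⟩

theorem qb_pc (e n : ℕ) : qb (pc e).1 n ≤ qb (ucode e) n ∧ qb (pc e).2 n ≤ qb (ucode e) n := by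
  unfold pc
  split_ifs with h
  · obtain ⟨h1, h2⟩ := h
    constructor
    · unfold qb
      exact Nat.pow_le_pow_right (by omega) (by omega)
    · unfold qb
      exact Nat.pow_le_pow_right (by omega) (by omega)
  · constructor
    · unfold qb
      exact Nat.pow_le_pow_right (by omega) (by simp)
    · unfold qb
      exact Nat.pow_le_pow_right (by omega) (by simp)

/-! ## The histories -/

theorem pa_congr {j : ℕ} {ω ω' : Om} (h : ∀ a ∈ Old j, ω a = ω' a) (η : ℕ → ℕ → ℝ)
    (t : ℕ) : pa j η ω t = pa j η ω' t := by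
  have h1 : ∀ τ, mixP (Old j) ω τ = mixP (Old j) ω' τ := by
    intro τ
    funext a
    unfold mixP
    by_cases ha : a ∈ Old j
    · rw [if_pos ha, if_pos ha, h a ha]
    · rw [if_neg ha, if_neg ha]
  unfold pa
  simp only [h1]

theorem hs_succ (ω : Om) (j : ℕ) : hs ω (j + 1) =
    Function.update (hs ω j) j fun t => pa j (hs ω j) ω t := rfl

theorem hsdep : T_HSDEP := by
  intro j
  induction j with
  | zero =>
    intro ω ω' h
    simp only [hs]
    simp only [pa_congr h]
  | succ j ih =>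
    intro ω ω' h
    have h1 := ih ω ω' fun a ha => h a (old_mono (Nat.le_succ j) ha)
    rw [hs_succ ω (j + 1), hs_succ ω' (j + 1), h1]
    simp only [pa_congr h]

theorem hs2_succ (ω : Om) (m j : ℕ) (h : j < m) : hs ω (m + 1) j = hs ω m j := by
  rw [hs]
  exact Function.update_of_ne (by omega) _ _

theorem hs2_le (ω : Om) {m m' j : ℕ} (hm : m ≤ m') (h : j < m) :
    hs ω m' j = hs ω m j := by
  induction m', hm using Nat.le_induction with
  | base => rfl
  | succ m' hm ih => rw [hs2_succ ω m' j (by omega), ih]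

theorem hsval : T_HSVAL := by
  intro ω m j hj
  show hs ω m j = hs ω (j + 1) j
  exact hs2_le ω (by omega) (by omega)

end Pool.Agent.RelK
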