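import Pool.Agent.RelK.Targets
import Pool.Agent.RelK.NN
import Pool.Agent.RelT.NPR
import Pool.Agent.RelB.Targets2
import Pool.Agent.RelZ.Core

/-!
# CLS: the classes of the hidden languages
-/

set_option autoImplicit false

namespace Pool.Agent.RelK

open Pool.Agent.RelM (Lang Instr NP E1 E2)
open Pool.Agent.RelS (Z Rl orc Om)
open Pool.Agent.RelU (NPco key)
open Pool.Agent.RelY (Hl)

variable [Md]

namespace CLS_

theorem rl_true (ω : Om) (κ : ℕ) : (fun x => Rl (zo ω) κ (x ++ [true])) = Hl κ ω := by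
  funext x
  rw [rl_zo, sgn_true]
  rfl

theorem rl_false (ω : Om) {κ : ℕ} (h : Md.ty κ = 1) :
    (fun x => Rl (zo ω) κ (x ++ [false])) = fun x => !Hl κ ω x := by
  funext x
  rw [rl_zo, sgn_false ω h]
  rfl

theorem zo_key (ω : Om) {κ : ℕ} (h : Md.ty κ = 0) (x y : List Bool)
    (hy : zo ω κ x y = true) : y = key ω κ x := by
  unfold zo at hy
  rw [if_pos h, Bool.and_eq_true] at hy
  exact of_decide_eq_true hy.2

end CLS_

open CLS_

/-- **CLS** -/
theorem p_CLS_of (hNPA : Pool.Agent.RelB.T_NPA) (hAPP : Pool.Agent.RelB.T_APP)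
    (hUPA : Pool.Agent.RelZ.T_UPA) : T_CLS := by
  intro G ω κ
  refine ⟨?_, fun h0 => ?_, fun h1 => ⟨?_, ?_⟩, fun hκ => ?_, fun hκ => ?_⟩
  · rw [← rl_true]
    exact hNPA G (zo ω) κ [true]
  · rw [← rl_true]
    exact hUPA G (zo ω) κ [true] fun x y y' hy hy' =>
      (zo_key ω h0 x y hy).trans (zo_key ω h0 x y' hy').symm
  · rw [← rl_true]
    exact hNPA G (zo ω) κ [true]
  · show (fun x => !Hl κ ω x) ∈ NP (orc G (zo ω))
    rw [← rl_false ω h1]
    exact hNPA G (zo ω) κ [false]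
  · rw [← rl_true]
    exact (hAPP _ _ [true]).1 (Pool.Agent.RelT.e1r G (zo ω) κ hκ)
  · rw [← rl_true]
    exact (hAPP _ _ [true]).2 (Pool.Agent.RelT.e2r G (zo ω) κ hκ)

end Pool.Agent.RelK
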