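import Pool.Agent.RelK.Targets
import Pool.Agent.RelK.ACC
import Pool.Agent.RelY.P_PAQ

/-!
# DIC: the dichotomy for an unambiguous machine
-/

set_option autoImplicit false

namespace Pool.Agent.RelK

open MeasureTheory Set
open scoped ENNReal
open Pool.Agent.RelM (Lang str)
open Pool.Agent.RelO (lev st)
open Pool.Agent.RelS (Z Rl orcV orc acc Idx Om Dep mixP PF wt meas_of_dep PF_nonneg PF_le_one
  wt_sum)
open Pool.Agent.RelB (ML qbs DD WW iot)
open Pool.Agent.RelU (NM key)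
open Pool.Agent.RelY (ms accw amb nn jj sv coin kk op NoKey bitsOf Wd Dj NK pr si Tree)
open Pool.Agent.RelY.PAQ_ (pr_nonneg pr_last pr_sum pr_two mix kk_big rho_q si0 si1 GG GG_nonneg
  GG_le)

variable [Md]

namespace DIC_

/-- Some witness is accepted. -/
def A1 (j : ℕ) (η : ℕ → ℕ → ℝ) (ω : Om) (v : NM) (t : ℕ) (τ : Om) : Set (Dj j → Bool) :=
  {w | ∃ y, Aw j η ω v t y (Cw j τ w)}

/-- Two witnesses are accepted. -/
def B1 (j : ℕ) (η : ℕ → ℕ → ℝ) (ω : Om) (v : NM) (t : ℕ) (τ : Om) : Set (Dj j → Bool) :=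
  {w | ∃ y y', y ≠ y' ∧ Aw j η ω v t y (Cw j τ w) ∧ Aw j η ω v t y' (Cw j τ w)}

/-- Acceptance differs from acceptance without new random keys. -/
def Q1 (j : ℕ) (η : ℕ → ℕ → ℝ) (ω : Om) (v : NM) (t : ℕ) (τ : Om) : Set (Dj j → Bool) :=
  {w | w ∈ A1 j η ω v t τ ↔ ¬ G0 j η ω τ v t}

theorem Cw_congr {j : ℕ} {τ τ' : Om} (h : ∀ a ∈ Old (j + 1), Fst a → τ a = τ' a)
    (w : Dj j → Bool) : Cw j τ w = Cw j τ' w := by
  funext d
  have hl : lev d.1.1 d.1.2.1 < nn (j + 1) := d.2.2.1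
  unfold Cw
  rcases eq_or_ne d.1.2.1 [] with hx | hx
  · rw [hx, sgn_nil, sgn_nil, Bool.false_and, Bool.false_and]
  · have h1 : sgn τ d.1.1 d.1.2.1 = sgn τ' d.1.1 d.1.2.1 :=
      sgn_congr' fun _ => h _ (old_sgn hx hl) ⟨rfl, Or.inl rfl⟩
    have h2 : key τ d.1.1 d.1.2.1 = key τ' d.1.1 d.1.2.1 :=
      key_congr fun i hi => h _ (old_kb hx hl hi) ⟨rfl, Or.inr hx⟩
    rw [h1, h2]

variable {j : ℕ} {η : ℕ → ℕ → ℝ} {ω : Om} {v : NM} {t : ℕ}

theorem A1_congr {τ τ' : Om} (h : ∀ a ∈ Old (j + 1), Fst a → τ a = τ' a) :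
    A1 j η ω v t τ = A1 j η ω v t τ' := by
  unfold A1
  simp only [Cw_congr h]

theorem B1_congr {τ τ' : Om} (h : ∀ a ∈ Old (j + 1), Fst a → τ a = τ' a) :
    B1 j η ω v t τ = B1 j η ω v t τ' := by
  unfold B1
  simp only [Cw_congr h]

theorem G0_congr {τ τ' : Om} (h : ∀ a ∈ Old (j + 1), Fst a → τ a = τ' a) :
    G0 j η ω τ v t ↔ G0 j η ω τ' v t := by
  unfold G0
  simp only [Cw_congr h]

theorem Q1_congr {τ τ' : Om} (h : ∀ a ∈ Old (j + 1), Fst a → τ a = τ' a) :
    Q1 j η ω v t τ = Q1 j η ω v t τ' := by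
  unfold Q1
  simp only [A1_congr h, G0_congr h]

omit [Md] in
theorem PF_not {D : Type} [Fintype D] (q : D → ℝ) (A B : Set (D → Bool))
    (h : ∀ w, w ∈ B ↔ w ∉ A) : PF q B = 1 - PF q A := by
  classical
  have h1 : PF q A + PF q B = ∑ V, wt q V := by
    unfold PF
    rw [← Finset.sum_add_distrib]
    refine Finset.sum_congr rfl fun V _ => ?_
    by_cases hA : V ∈ A
    · rw [if_pos hA, if_neg fun hB => (h V).1 hB hA, add_zero]
    · rw [if_neg hA, if_pos ((h V).2 hA), zero_add]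
  have h2 : ∑ V, wt q V = 1 := wt_sum q
  linarith

theorem GG_int {Q : Om → Set (Dj j → Bool)}
    (hQ : ∀ τ τ' : Om, (∀ a ∈ Old (j + 1), Fst a → τ a = τ' a) → Q τ = Q τ') :
    Integrable (GG j Q) coin := by
  have hm : Measurable (GG j Q) := by
    refine meas_of_dep (oldfin (j + 1)) fun τ τ' h => ?_
    unfold GG
    rw [hQ τ τ' fun a ha _ => h a ha]
  refine Integrable.of_bound hm.aestronglyMeasurable 1 (Filter.Eventually.of_forall fun τ => ?_)
  rw [Real.norm_eq_abs, abs_of_nonneg (GG_nonneg j Q τ)]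
  exact GG_le j Q τ

end DIC_

open DIC_ in
theorem p_DIC_of (hSPR : Pool.Agent.RelY.T_SPR) (hCSA : Pool.Agent.RelY.T_CSA) (hTRE : T_TRE)
    (hLKY : T_LKY) (hNKB : Pool.Agent.RelY.T_NKB) (hRHO : Pool.Agent.RelY.T_RHO)
    (hAVG : T_AVG) : T_DIC := by
  intro j t η ω v θ ε ht hv hθ hε
  set ν : ℝ := 1 / ((j : ℝ) + 1) with hν
  have hν0 : 0 ≤ ν := by positivity
  set r : ℝ := (1 / 2 : ℝ) ^ (nn j / 2) with hr
  have hr0 : 0 ≤ r := by positivity
  set q : ℕ := qbs (ms j) (str t).length with hq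
  have hqr : 2 * ((q : ℝ) * r) ≤ ν := rho_q ht
  have hqr0 : 0 ≤ (q : ℝ) * r := by positivity
  have hN := hNKB j
  rw [← hν] at hN
  have hkk := kk_big j
  rw [← hν] at hkk
  have hθ' : 0 ≤ 2 / θ := by positivity
  set SQ : Set Om := {τ | ck j τ ∈ Q1 j η ω v t τ} with hSQ
  set SB : Set Om := {τ | ck j τ ∈ B1 j η ω v t τ} with hSB
  have a1 : {τ | acc (oh η (mixP (Old j) ω τ)) v (str t) ↔ ¬ G0 j η ω τ v t} ⊆ SQ ∪ NK j := by
    intro τ hτ
    by_cases h : τ ∈ NK j
    · exact Or.inr h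
    · refine Or.inl ?_
      have h1 : acc (oh η (mixP (Old j) ω τ)) v (str t) ↔ ck j τ ∈ A1 j η ω v t τ :=
        exists_congr fun y => hLKY j t η ω τ v ht hv h y
      have h2 : acc (oh η (mixP (Old j) ω τ)) v (str t) ↔ ¬ G0 j η ω τ v t := hτ
      show ck j τ ∈ A1 j η ω v t τ ↔ ¬ G0 j η ω τ v t
      exact h1.symm.trans h2
  have a3 : SB ⊆ {τ | amb (oh η (mixP (Old j) ω τ)) v (str t)} ∪ NK j := by
    intro τ hτ
    by_cases h : τ ∈ NK j
    · exact Or.inr h
    · refine Or.inl ?_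
      obtain ⟨y, y', h1, h2, h3⟩ := hτ
      exact ⟨y, y', h1, (hLKY j t η ω τ v ht hv h y).2 h2, (hLKY j t η ω τ v ht hv h y').2 h3⟩
  have b1 : coin.real {τ | acc (oh η (mixP (Old j) ω τ)) v (str t) ↔ ¬ G0 j η ω τ v t} ≤
      coin.real SQ + ν :=
    ((measureReal_mono a1).trans (measureReal_union_le _ _)).trans (by linarith)
  have b3 : coin.real SB ≤ ε + ν :=
    ((measureReal_mono a3).trans (measureReal_union_le _ _)).trans (by linarith)
  have cQ : coin.real SQ = ∫ τ, GG j (Q1 j η ω v t) τ ∂coin :=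
    hAVG j (Q1 j η ω v t) fun _ _ h => Q1_congr h
  have cB : coin.real SB = ∫ τ, GG j (B1 j η ω v t) τ ∂coin :=
    hAVG j (B1 j η ω v t) fun _ _ h => B1_congr h
  have iQ : Integrable (GG j (Q1 j η ω v t)) coin := GG_int fun _ _ h => Q1_congr h
  have iB : Integrable (GG j (B1 j η ω v t)) coin := GG_int fun _ _ h => B1_congr h
  have d1 : ∀ τ, GG j (Q1 j η ω v t) τ ≤
      θ + 2 * ((q : ℝ) * r) / θ + 2 / θ * GG j (B1 j η ω v t) τ + ν := by
    intro τ
    obtain ⟨T, hT⟩ := hTRE j t η ω τ v ht hv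
    have h2 : {w | ∃ u, T.Ac u w} = A1 j η ω v t τ := by
      ext w
      exact exists_congr fun y => hT y w
    by_cases hy : G0 j η ω τ v t
    · -- accepted without new random keys
      have e1 : ∀ i ∈ Finset.range (kk (j + 1) + 1), pr (j + 1) i *
          PF (si j i) (Q1 j η ω v t τ) ≤ pr (j + 1) i * ((q : ℝ) * r) := by
        intro i hi
        refine mul_le_mul_of_nonneg_left ?_ (pr_nonneg _ _)
        have h1 := hCSA (Dj j) (List Bool) q T (si j i) r (si0 j i) (si1 j i)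
          (fun d => hRHO.1 j i d (by rw [Finset.mem_range] at hi; omega)) hr0 (by
            obtain ⟨y, hy⟩ := hy
            exact ⟨y, (hT y _).2 hy⟩)
        rw [h2] at h1
        have h3 : PF (si j i) (Q1 j η ω v t τ) = 1 - PF (si j i) (A1 j η ω v t τ) := by
          refine PF_not _ _ _ fun w => ?_
          show (w ∈ A1 j η ω v t τ ↔ ¬ G0 j η ω τ v t) ↔ w ∉ A1 j η ω v t τ
          constructor
          · exact fun h hw => h.1 hw hy
          · exact fun h => ⟨fun hw => absurd hw h, fun h' => absurd hy h'⟩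
        rw [h3]
        linarith
      have e2 := Finset.sum_le_sum e1
      rw [← Finset.sum_mul, pr_sum, one_mul] at e2
      have e3 : GG j (Q1 j η ω v t) τ ≤ (q : ℝ) * r := e2
      have e4 : 0 ≤ 2 / θ * GG j (B1 j η ω v t) τ := mul_nonneg hθ' (GG_nonneg _ _ _)
      have e5 : 0 ≤ 2 * ((q : ℝ) * r) / θ := by positivity
      linarith
    · -- not accepted without new random keys
      have h0 : ∀ u, ¬ T.Ac u fun _ => false := fun u hu => hy ⟨u, (hT u _).1 hu⟩
      have h3 : {w | ∃ u u', u ≠ u' ∧ T.Ac u w ∧ T.Ac u' w} = B1 j η ω v t τ := by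
        ext w
        refine exists_congr fun y => exists_congr fun y' => and_congr_right fun _ => ?_
        rw [hT y w, hT y' w]
      have h4 := mix (kk (j + 1)) (pr (j + 1)) (fun i => PF (si j i) (A1 j η ω v t τ))
        (fun i => PF (si j i) (B1 j η ω v t τ)) θ (2 * ((q : ℝ) * r)) hθ (by linarith)
        (pr_nonneg (j + 1)) (pr_sum (j + 1)) (fun i hi => pr_two hi)
        (fun i => PF_le_one (si0 j i) (si1 j i) _) (fun i => PF_nonneg (si0 j i) (si1 j i) _)
        (fun i => PF_nonneg (si0 j i) (si1 j i) _) (fun i hi => by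
          have h5 := hSPR (Dj j) (List Bool) q T (si j i) r (si0 j i) (si1 j i)
            (fun d => hRHO.1 j i d hi.le) hr0 h0
          rw [h2, h3, ← hRHO.2 j i] at h5
          exact h5)
      rw [pr_last] at h4
      have h6 : Q1 j η ω v t τ = A1 j η ω v t τ := by
        ext w
        show (w ∈ A1 j η ω v t τ ↔ ¬ G0 j η ω τ v t) ↔ w ∈ A1 j η ω v t τ
        exact ⟨fun h => h.2 hy, fun h => ⟨fun _ => hy, fun _ => h⟩⟩
      have h7 : GG j (Q1 j η ω v t) τ = ∑ i ∈ Finset.range (kk (j + 1) + 1),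
          pr (j + 1) i * PF (si j i) (A1 j η ω v t τ) := by
        unfold GG
        rw [h6]
      rw [h7]
      refine h4.trans ?_
      have : GG j (B1 j η ω v t) τ = ∑ i ∈ Finset.range (kk (j + 1) + 1),
        pr (j + 1) i * PF (si j i) (B1 j η ω v t τ) := rfl
      rw [this]
      linarith
  have d2 : coin.real SQ ≤ θ + 2 * ((q : ℝ) * r) / θ + 2 / θ * coin.real SB + ν := by
    rw [cQ, cB]
    have i2 : Integrable (fun τ => (θ + 2 * ((q : ℝ) * r) / θ + ν) +
        2 / θ * GG j (B1 j η ω v t) τ) coin :=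
      (integrable_const _).add (iB.const_mul _)
    have h := integral_mono iQ i2 fun τ => by
      have := d1 τ
      show GG j (Q1 j η ω v t) τ ≤ (θ + 2 * ((q : ℝ) * r) / θ + ν) +
        2 / θ * GG j (B1 j η ω v t) τ
      linarith
    have e3 : ∫ _ : Om, (θ + 2 * ((q : ℝ) * r) / θ + ν) ∂coin =
        θ + 2 * ((q : ℝ) * r) / θ + ν := by simp
    rw [integral_add (integrable_const _) (iB.const_mul _), integral_const_mul, e3] at h
    linarith
  have d4 : 2 / θ * coin.real SB ≤ 2 / θ * (ε + ν) := mul_le_mul_of_nonneg_left b3 hθ'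
  have d5 : 2 * ((q : ℝ) * r) / θ ≤ ν / θ := by gcongr
  have d6 : ν / θ ≤ 2 / θ * ν := by
    rw [div_mul_eq_mul_div]
    gcongr
    linarith
  have d7 : 2 / θ * (ε + 2 * ν) = 2 / θ * (ε + ν) + 2 / θ * ν := by ring
  linarith

end Pool.Agent.RelK
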