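import Pool.Agent.RelK.Targets
import Pool.Agent.RelY.MEAS

/-!
# The sign of a word is a fair coin
-/

set_option autoImplicit false

namespace Pool.Agent.RelK

open MeasureTheory Set
open scoped ENNReal
open Pool.Agent.RelM (str)
open Pool.Agent.RelO (lev)
open Pool.Agent.RelS (Z Idx Om Dep fd)
open Pool.Agent.RelY (nn coin Hl indep coin_fair)

variable [Md]

omit [Md] in
theorem p_FAIR : T_FAIR := by
  intro κ t H b _ hH dH
  have hm : MeasurableSet {ω : Om | ω (κ, str t, [], 0) = b} := by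
    refine fd (Set.finite_singleton ((κ, str t, [], 0) : Idx)) fun ω ω' h => ?_
    have h2 : ω (κ, str t, [], 0) = ω' (κ, str t, [], 0) := h _ rfl
    show ω (κ, str t, [], 0) = b ↔ ω' (κ, str t, [], 0) = b
    rw [h2]
  show ∫⁻ ω in {ω : Om | ω (κ, str t, [], 0) = b}, H ω ∂coin = 2⁻¹ * ∫⁻ ω, H ω ∂coin
  rw [← lintegral_indicator hm]
  have h1 : ∀ ω : Om, ({ω : Om | ω (κ, str t, [], 0) = b}).indicator H ω =
      ({ω : Om | ω (κ, str t, [], 0) = b}).indicator (1 : Om → ℝ≥0∞) ω * H ω := by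
    intro ω
    by_cases h : ω (κ, str t, [], 0) = b
    · rw [Set.indicator_of_mem (show ω ∈ {ω : Om | ω (κ, str t, [], 0) = b} from h),
        Set.indicator_of_mem (show ω ∈ {ω : Om | ω (κ, str t, [], 0) = b} from h),
        Pi.one_apply, one_mul]
    · rw [Set.indicator_of_notMem (show ω ∉ {ω : Om | ω (κ, str t, [], 0) = b} from h),
        Set.indicator_of_notMem (show ω ∉ {ω : Om | ω (κ, str t, [], 0) = b} from h),
        zero_mul]
  simp only [h1]
  have dF : Dep ({(κ, str t, [], 0)} : Set Idx)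
      (({ω : Om | ω (κ, str t, [], 0) = b}).indicator (1 : Om → ℝ≥0∞)) := by
    intro ω ω' h
    have h2 : ω (κ, str t, [], 0) = ω' (κ, str t, [], 0) := h _ rfl
    by_cases h3 : ω (κ, str t, [], 0) = b
    · rw [Set.indicator_of_mem (show ω ∈ {ω : Om | ω (κ, str t, [], 0) = b} from h3),
        Set.indicator_of_mem (show ω' ∈ {ω : Om | ω (κ, str t, [], 0) = b} from
          h2.symm.trans h3)]
      rfl
    · rw [Set.indicator_of_notMem (show ω ∉ {ω : Om | ω (κ, str t, [], 0) = b} from h3),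
        Set.indicator_of_notMem (show ω' ∉ {ω : Om | ω (κ, str t, [], 0) = b} from
          fun h4 => h3 (h2.trans h4))]
  have dG : Dep ({(κ, str t, [], 0)} : Set Idx)ᶜ H := by
    intro ω ω' h
    refine dH ω ω' fun a ha => h a ?_
    intro h2
    rw [Set.mem_singleton_iff] at h2
    subst h2
    exact ha.2.1 ⟨rfl, rfl, rfl, t, le_rfl, rfl⟩
  rw [indep (measurable_one.indicator hm) hH dF dG, lintegral_indicator_one hm,
    coin_fair (a := (κ, str t, [], 0)) rfl b]

end Pool.Agent.RelK
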