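import Pool.Agent.RelK.Targets
import Pool.Agent.RelY.P_OR

/-!
# RelK, FKG: Harris inequality for finite product measures, monotonicity in the density
-/

set_option autoImplicit false

namespace Pool.Agent.RelK

open Pool.Agent.RelS (PF wt)

namespace FKG_

theorem wt_lat {D : Type} [Fintype D] (s : D → ℝ) (a b : D → Bool) :
    wt s a * wt s b = wt s (a ⊓ b) * wt s (a ⊔ b) := by
  unfold wt
  rw [← Finset.prod_mul_distrib, ← Finset.prod_mul_distrib]
  refine Finset.prod_congr rfl fun d _ => ?_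
  rw [Pi.inf_apply, Pi.sup_apply]
  cases a d <;> cases b d <;> simp [mul_comm]

open Classical in
/-- The indicator function of `A`. -/
noncomputable def ind {D : Type} (A : Set (D → Bool)) (V : D → Bool) : ℝ :=
  if V ∈ A then 1 else 0

theorem ind_nonneg {D : Type} (A : Set (D → Bool)) : 0 ≤ ind A := by
  intro V
  show 0 ≤ ind A V
  unfold ind
  split_ifs
  · exact zero_le_one
  · exact le_rfl

theorem ind_mono {D : Type} {A : Set (D → Bool)}
    (hA : ∀ V V' : D → Bool, V ∈ A → (∀ d, V d = true → V' d = true) → V' ∈ A) :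
    Monotone (ind A) := by
  intro V V' h
  unfold ind
  by_cases hV : V ∈ A
  · rw [if_pos hV, if_pos (hA V V' hV fun d => Bool.le_iff_imp.1 (h d))]
  · rw [if_neg hV]
    split_ifs
    · exact zero_le_one
    · exact le_rfl

theorem pf_ind {D : Type} [Fintype D] [DecidableEq D] (s : D → ℝ) (A : Set (D → Bool)) :
    PF s A = ∑ V, wt s V * ind A V := by
  classical
  rw [Pool.Agent.RelS.PF_def]
  refine Finset.sum_congr rfl fun V _ => ?_
  unfold ind
  by_cases hV : V ∈ A
  · rw [if_pos hV, if_pos hV, mul_one]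
  · rw [if_neg hV, if_neg hV, mul_zero]

/-- Harris inequality. -/
theorem harris {D : Type} [Fintype D] {s : D → ℝ} (h0 : ∀ d, 0 ≤ s d) (h1 : ∀ d, s d ≤ 1)
    {A B : Set (D → Bool)}
    (hA : ∀ V V' : D → Bool, V ∈ A → (∀ d, V d = true → V' d = true) → V' ∈ A)
    (hB : ∀ V V' : D → Bool, V ∈ B → (∀ d, V d = true → V' d = true) → V' ∈ B) :
    PF s A * PF s B ≤ PF s (A ∩ B) := by
  classical
  have h := fkg (μ := wt s) (f := ind A) (g := ind B)
    (fun V => Pool.Agent.RelS.wt_nonneg h0 h1 V) (ind_nonneg A) (ind_nonneg B)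
    (ind_mono hA) (ind_mono hB) fun a b => (wt_lat s a b).le
  rw [Pool.Agent.RelS.wt_sum, one_mul, ← pf_ind, ← pf_ind] at h
  refine h.trans (le_of_eq ?_)
  rw [pf_ind]
  refine Finset.sum_congr rfl fun V _ => ?_
  congr 1
  unfold ind
  by_cases hV : V ∈ A
  · by_cases hV' : V ∈ B
    · rw [if_pos hV, if_pos hV', if_pos ⟨hV, hV'⟩, mul_one]
    · rw [if_neg hV', if_neg (fun hc : V ∈ A ∩ B => hV' hc.2), mul_zero]
  · rw [if_neg hV, if_neg (fun hc : V ∈ A ∩ B => hV hc.1), zero_mul]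

/-- Monotonicity in the density. -/
theorem dens {D : Type} [Fintype D] {s : D → ℝ} (h0 : ∀ d, 0 ≤ s d) (h1 : ∀ d, s d ≤ 1)
    {A : Set (D → Bool)}
    (hA : ∀ V V' : D → Bool, V ∈ A → (∀ d, V d = true → V' d = true) → V' ∈ A) :
    PF s A ≤ PF (fun d => s d ^ 2) A := by
  classical
  rw [Pool.Agent.RelY.p_OR D s A, pf_ind]
  refine Finset.sum_le_sum fun V₁ _ => ?_
  have e : wt s V₁ * ind A V₁ = ∑ V₂, wt s V₁ * wt s V₂ * ind A V₁ := by
    rw [← Finset.sum_mul, ← Finset.mul_sum, Pool.Agent.RelS.wt_sum, mul_one]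
  rw [e]
  refine Finset.sum_le_sum fun V₂ _ => ?_
  refine mul_le_mul_of_nonneg_left ?_ (mul_nonneg (Pool.Agent.RelS.wt_nonneg h0 h1 _)
    (Pool.Agent.RelS.wt_nonneg h0 h1 _))
  have h : ind A V₁ ≤ ind A fun d => V₁ d || V₂ d := by
    refine ind_mono hA fun d => Bool.le_iff_imp.2 fun hd => ?_
    simp [hd]
  exact h

end FKG_

open FKG_ in
theorem p_FKG : T_FKG := by
  intro D _ s A h0 h1 hA
  exact ⟨fun B hB => harris h0 h1 hA hB, dens h0 h1 hA⟩

end Pool.Agent.RelK
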