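import Pool.Agent.RelK.Targets
import Pool.Agent.RelY.MEAS
import Mathlib.Combinatorics.SetFamily.FourFunctions

/-!
# RelK, target HAR: the Harris inequality for increasing functions of finitely many coins
-/

set_option autoImplicit false

namespace Pool.Agent.RelK

open MeasureTheory Set
open scoped ENNReal
open Pool.Agent.RelS (Idx Om bern bern_prob Dep PF wt)
open Pool.Agent.RelY (sv coin)

namespace HAR_

/-- the sample with the coins `V` on `S`, the others are `false` -/
noncomputable def ext (S : Set Idx) (V : S → Bool) : Om := by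
  classical exact fun a => if h : a ∈ S then V ⟨a, h⟩ else false

theorem ext_mem {S : Set Idx} (V : S → Bool) {a : Idx} (h : a ∈ S) : ext S V a = V ⟨a, h⟩ := by
  unfold ext
  simp only [dif_pos h]

theorem ext_mono {S : Set Idx} {V V' : S → Bool} (h : V ≤ V') (a : Idx)
    (ha : ext S V a = true) : ext S V' a = true := by
  by_cases hS : a ∈ S
  · rw [ext_mem V hS] at ha
    rw [ext_mem V' hS]
    exact h ⟨a, hS⟩ ha
  · exfalso
    unfold ext at ha
    simp only [dif_neg hS] at ha
    exact Bool.false_ne_true ha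

theorem wt_nonneg {D : Type} [Fintype D] {q : D → ℝ} (h0 : ∀ d, 0 ≤ q d) (h1 : ∀ d, q d ≤ 1)
    (V : D → Bool) : 0 ≤ wt q V := by
  unfold wt
  refine Finset.prod_nonneg fun d _ => ?_
  split_ifs
  · linarith [h1 d]
  · exact h0 d

theorem wt_lat {D : Type} [Fintype D] (q : D → ℝ) (V V' : D → Bool) :
    wt q V * wt q V' = wt q (V ⊓ V') * wt q (V ⊔ V') := by
  unfold wt
  rw [← Finset.prod_mul_distrib, ← Finset.prod_mul_distrib]
  refine Finset.prod_congr rfl fun d _ => ?_
  rw [Pi.inf_apply, Pi.sup_apply]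
  cases V d <;> cases V' d <;> simp [mul_comm]

theorem pi_single {D : Type} [Fintype D] {q : D → ℝ} (h0 : ∀ d, 0 ≤ q d) (h1 : ∀ d, q d ≤ 1)
    (V : D → Bool) : (Measure.pi fun d => bern (q d)).real {V} = wt q V := by
  have i1 : ∀ d, IsProbabilityMeasure (bern (q d)) := fun d => bern_prob (h0 d) (h1 d)
  rw [Measure.real, Measure.pi_singleton, ENNReal.toReal_prod]
  unfold wt
  refine Finset.prod_congr rfl fun d _ => ?_
  cases hd : V d
  · rw [Pool.Agent.RelS.bern_false, ENNReal.toReal_ofReal (h0 d)]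
    simp
  · rw [Pool.Agent.RelS.bern_true, ENNReal.toReal_ofReal (by linarith [h1 d])]
    simp

/-- the mean of a function of the coins in `S` -/
theorem mean {S : Set Idx} [Fintype S] {f : Om → ℝ} (hf : Dep S f) :
    ∫ τ, f τ ∂coin = ∑ V : S → Bool, wt (fun a : S => sv a) V * f (ext S V) := by
  have hm : Measurable fun (ω : Om) (d : S) => ω d :=
    measurable_pi_lambda _ fun d => measurable_pi_apply _
  have h1 := Pool.Agent.RelY.coin_map (D := S) Subtype.val Subtype.val_injective
  have h2 : ∀ τ : Om, f τ = f (ext S fun d => τ d) := fun τ => hf _ _ fun a ha => by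
    rw [ext_mem _ ha]
  have h3 : ∫ τ, f τ ∂coin = ∫ τ, (fun V : S → Bool => f (ext S V)) (fun d => τ d) ∂coin :=
    integral_congr_ae (Filter.Eventually.of_forall h2)
  have h4 : ∫ τ, (fun V : S → Bool => f (ext S V)) (fun d => τ d) ∂coin =
      ∫ V, f (ext S V) ∂(coin.map fun (ω : Om) (d : S) => ω d) := by
    rw [integral_map hm.aemeasurable]
    exact (Measurable.of_discrete (f := fun V : S → Bool => f (ext S V))).aestronglyMeasurable
  rw [h3, h4, h1, integral_fintype (Integrable.of_finite)]
  refine Finset.sum_congr rfl fun V _ => ?_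
  rw [pi_single (fun d => (Pool.Agent.RelY.sv_pos _).le) (fun d => Pool.Agent.RelY.sv_le_one _),
    smul_eq_mul]

end HAR_

variable [Md]

theorem p_HAR : T_HAR := by
  classical
  intro S f g hS hf hg f0 g0 fm gm
  have : Fintype S := hS.fintype
  have h1 := HAR_.mean hf
  have h2 := HAR_.mean hg
  have h3 := HAR_.mean (S := S) (f := fun τ => f τ * g τ) fun ω ω' h => by
    show f ω * g ω = f ω' * g ω'
    rw [hf ω ω' h, hg ω ω' h]
  have h4 := HAR_.mean (S := S) (f := fun _ => (1 : ℝ)) fun _ _ _ => rfl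
  have h5 : ∑ V : S → Bool, wt (fun a : S => sv a) V = 1 := by
    rw [integral_const, probReal_univ, one_smul] at h4
    rw [h4]
    exact Finset.sum_congr rfl fun V _ => (mul_one _).symm
  have h6 := fkg (α := S → Bool) (β := ℝ) (μ := wt (fun a : S => sv a))
    (f := fun V => f (HAR_.ext S V)) (g := fun V => g (HAR_.ext S V))
    (fun V => HAR_.wt_nonneg (fun d => (Pool.Agent.RelY.sv_pos _).le)
      (fun d => Pool.Agent.RelY.sv_le_one _) V)
    (fun V => f0 _) (fun V => g0 _)
    (fun V V' h => fm _ _ fun a => HAR_.ext_mono h a)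
    (fun V V' h => gm _ _ fun a => HAR_.ext_mono h a)
    (fun V V' => (HAR_.wt_lat _ V V').le)
  rw [h5, one_mul] at h6
  rw [h1, h2, h3]
  exact h6

end Pool.Agent.RelK
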