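import Pool.Agent.RelK.Core

/-!
# RelK: the targets of the jobs

THEOREM in preparation (`MP_a0edbc_lc`, part 4 of RELU): the complete classification of the oracles by the
question which of the classes `UP ∩ coUP`, `UP`, `NP ∩ coNP`, `NP` are null. Paper proof: idea row 5420.
Two worlds: all families of type `2` (only `NP` is not null), and families of the types `0` and `1` (`UP` and
`NP ∩ coNP` are not null, `UP ∩ coUP` has dimension `0`). `RelK/Core.lean` serves both worlds.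

Every target `T_X` is to be proved as `theorem p_X : T_X` (targets named in brackets may be taken as
hypotheses, `theorem p_X_of (h : T_Y) : T_X`) in a NEW file `Pool/Agent/RelK/P_X.lean`, namespace
`Pool.Agent.RelK`, after `variable [Md]`, helper lemmas in a namespace `X_`. The names are those of `RelY`; the
stages, the measure, the supergales ARE those of `RelY` (`Pool.Agent.RelY.nn`, `coin`, `bitsOf`, ..), so the
lemmas of `RelY/NN.lean`, `DENT.lean`, `MEAS.lean` about them can be used; `RelK/NN.lean`, `RelK/ACC.lean` (helper18)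
contain the lemmas about `Old`, `zo`, `hs`, .. All landed files may be used.
-/

set_option autoImplicit false

namespace Pool.Agent.RelK

open MeasureTheory Set
open scoped ENNReal
open Pool.Agent.RelM (Lang Instr Cfg step run Halts Decides E1 E2 NP pair triple binVal outVal
  Approx IsDensity str pre IsNullCover Null1 Null2 wq sq0 sq1 Asks hq code qb)
open Pool.Agent.RelO (lev IsGale IsGaleCover GaleNull1 GaleNull2 st)
open Pool.Agent.RelS (Z Rl orcV orc acc Idx Om bern bern_prob Dep mixP PF wt Upw)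
open Pool.Agent.RelB (ML qbs qf ee DD WW iot)
open Pool.Agent.RelT (Fast)
open Pool.Agent.RelU (NM NPco key cfg Cert Pu Thin)
open Pool.Agent.RelY (ucode ms accw amb nn jj sv coin kk op NoKey bitsOf Pw Wd bl SS Hl Dj NK pr si
  Tree)

variable [Md]

/-! ## Stages (helper18, files NN, ACC) -/

def T_OLDFIN : Prop := ∀ j, (Old j).Finite

/-- The probabilities before stage `j + 1` depend only on the coins that are old at stage `j`. -/
def T_HSDEP : Prop := ∀ (j : ℕ) (ω ω' : Om), (∀ a ∈ Old j, ω a = ω' a) →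
  hs ω (j + 1) = hs ω' (j + 1)

def T_HSVAL : Prop := ∀ (ω : Om) (m j : ℕ), j < m → hs ω m j = hf ω j

/-- The answers on a word of stage `j` depend only on the coins that are old at stage `j + 1` and on
the probabilities before stage `j`. -/
def T_ACC : Prop := ∀ (j t : ℕ) (η η' : ℕ → ℕ → ℝ) (ω ω' : Om), t ∈ Wd j →
  (∀ i, i < j → η i = η' i) → (∀ a ∈ Old (j + 1), ω a = ω' a) →
  (ans j η ω t ↔ ans j η' ω' t) ∧ ∀ b, (ans2 b j η ω t ↔ ans2 b j η' ω' t)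

/-! ## The lower half -/

/-- **HIT** (40 min; from `RelY.T_KEYP`). Edit of `RelY/P_HIT.lean`. New: for a hidden word of type `0` the event
`zo ω κ' x' y = true` is contained in `{ω | key ω κ' x' = y}` (the coins `(κ', x', [], i + 1)`, `x' ≠ []`; not in
`Vis κ t`), of probability `2⁻¹ ^ lev κ' x'` (`RelU/P_HIT.lean` or `RelZ/P_HIT.lean`; `RelY.coin_cyl`, `RelY.coin_fair`). -/
def T_HIT : Prop := ∀ (κ t : ℕ) (Pr : List Instr) (X : Om → List Bool) (τ : ℕ),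
  nn 0 ≤ lev κ (str t ++ [false]) → Dep (Vis κ t) X →
  (∀ ω, (X ω).length + τ < 2 ^ lev κ (str t ++ [false])) →
  coin {ω | ∃ s ≤ τ, run (oo ω) Pr (X ω) s ≠ run (ov κ t ω) Pr (X ω) s}
    ≤ τ * (2⁻¹ : ℝ≥0∞) ^ (lev κ (str t ++ [false]) / 2)

/-- **FAIR** (15 min). Copy of `RelY/P_FAIR.lean`. -/
def T_FAIR : Prop := ∀ (κ t : ℕ) (H : Om → ℝ≥0∞) (b : Bool),
  nn 0 ≤ lev κ (str t ++ [false]) → Measurable H → Dep (Vis κ t) H →
  ∫⁻ ω in {ω | Hl κ ω (str t) = b}, H ω ∂coin = 2⁻¹ * ∫⁻ ω, H ω ∂coin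

/-- **NONB** (30 min; from T_HIT, T_FAIR). Edit of `RelY/P_NONB.lean`. -/
def T_NONB : Prop := ∀ (κ : ℕ) (Pr : List Instr) (T : ℕ → ℕ), Fast κ T →
  ∀ᵐ ω ∂coin, ¬ ∃ d : ℕ → List Bool → ℝ,
    IsNullCover d {Hl κ ω} ∧ Approx (oo ω) Pr T d

/-- **CLS** (30 min; from `RelB.T_NPA`, `RelB.T_APP`, `RelZ.T_UPA`). `Rl (zo ω) κ x = sgn ω κ x` (`NN.rl_zo`) and
`sgn_true`, `sgn_false` (`NN.lean`): `Hl κ ω = fun x => Rl (zo ω) κ (x ++ [true])` for every type, and for the type `1` the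
complement is `fun x => Rl (zo ω) κ (x ++ [false])`. `RelZ.T_UPA` now has the hypothesis for the fixed `κ`. `RelT.e1r`,
`RelT.e2r` as in `RelY/P_NPM.lean`. -/
def T_CLS : Prop := ∀ (G : Lang) (ω : Om) (κ : ℕ), Hl κ ω ∈ NP (orc G (zo ω)) ∧
  (Md.ty κ = 0 → Hl κ ω ∈ Pool.Agent.RelQ.UP (orc G (zo ω))) ∧
  (Md.ty κ = 1 → Hl κ ω ∈ NPco (orc G (zo ω))) ∧
  (κ % 2 = 1 → Hl κ ω ∈ E1 (orc G (zo ω))) ∧ (κ % 2 = 0 → Hl κ ω ∈ E2 (orc G (zo ω)))

/-! ## The new coins of a stage -/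

/-- **TRE** (20 min). Edit of `RelY/P_TRE.lean`. `Qs y w` = the `d` asked in the run with the world `Wz j ω (Cw j τ w)`;
`Cw j τ w d` depends only on `w d`. -/
def T_TRE : Prop := ∀ (j t : ℕ) (η : ℕ → ℕ → ℝ) (ω τ : Om) (v : NM), t ∈ Wd j → v ∈ vs j →
  ∃ T : Tree (Dj j) (List Bool) (qbs (ms j) (str t).length),
    ∀ y w, T.Ac y w ↔ Aw j η ω v t y (Cw j τ w)

/-- **LKY** (30 min). Edit of `RelY/P_LKY.lean`: outside `NK j` the world `zo (mixP (Old j) ω τ)` is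
`Wz j ω (Cw j τ (ck j τ))` on all words of level less than `nn (j + 1)` (for the type `0` the key bits
`(κ, x, [], i + 1)` of a new word are not old, `NN.key_mix`). -/
def T_LKY : Prop := ∀ (j t : ℕ) (η : ℕ → ℕ → ℝ) (ω τ : Om) (v : NM), t ∈ Wd j → v ∈ vs j →
  τ ∉ NK j → ∀ y, (accw (oh η (mixP (Old j) ω τ)) v (str t) y ↔
    Aw j η ω v t y (Cw j τ (ck j τ)))

/-- **AVG** (30 min). Edit of `RelY/P_AVG.lean`: the coins of the first kind now include the key bits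
`(κ, x, [], i + 1)`, `x ≠ []`; they are different from the option coins `(v, [], [], m + 1)` and from the key coins. -/
def T_AVG : Prop := ∀ (j : ℕ) (Q : Om → Set (Dj j → Bool)),
  (∀ τ τ' : Om, (∀ a ∈ Old (j + 1), Fst a → τ a = τ' a) → Q τ = Q τ') →
  coin.real {τ | ck j τ ∈ Q τ} =
    ∫ τ, ∑ i ∈ Finset.range (kk (j + 1) + 1), pr (j + 1) i * PF (si j i) (Q τ) ∂coin

/-- **DIC** (50 min; from `RelY.T_SPR`, `RelY.T_CSA`, `RelY.T_NKB`, `RelY.T_RHO`, T_TRE, T_LKY, T_AVG). Edit of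
`RelY/P_PAQ.lean`: there the question whether some witness is accepted with `fun _ => false` did not depend on `τ`, now it
is `G0 j η ω τ v t`. AVG for `Q τ = {w | (∃ y, Aw .. (Cw j τ w)) ↔ ¬ G0 ..}` and for `B τ` = two witnesses; for every `τ` the
mean over the options of `PF (Q τ)` is at most `θ + 2 q ρ / θ + (2 / θ) ∑ pr h + ν` (CSA if `G0`, otherwise `mix`). -/
def T_DIC : Prop := ∀ (j t : ℕ) (η : ℕ → ℕ → ℝ) (ω : Om) (v : NM) (θ ε : ℝ), t ∈ Wd j →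
  v ∈ vs j → 0 < θ → coin.real {τ | amb (oh η (mixP (Old j) ω τ)) v (str t)} ≤ ε →
  coin.real {τ | acc (oh η (mixP (Old j) ω τ)) v (str t) ↔ ¬ G0 j η ω τ v t} ≤
    θ + 2 / θ * (ε + 2 * (1 / ((j : ℝ) + 1))) + 2 * (1 / ((j : ℝ) + 1))

/-! ## The three hypotheses -/

/-- The probabilities of acceptance are near `0` or `1` if the hypothesis number `b` is almost sure. -/
def T_PAQ (b : ℕ) : Prop := ∀ γ : ℝ, 0 < γ → ∃ ε : ℝ, 0 < ε ∧ ∃ J : ℕ, ∀ j, J ≤ j →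
  ∀ (t : ℕ) (η : ℕ → ℕ → ℝ) (ω : Om), t ∈ Wd j →
    coin.real {τ | ans2 b j η (mixP (Old j) ω τ) t} ≤ ε → pa j η ω t * (1 - pa j η ω t) ≤ γ

/-- **PQA** (25 min; from T_DIC). Without the type `0` the world `Cw j τ fun _ => false` is `fun _ => false`, so `G0` does not
depend on `τ`, and `pa` or `1 - pa` is at most the bound of DIC. (`θ = γ / 4`, `ε` small, `J` large.) -/
def T_PQA : Prop := (∀ κ, Md.ty κ ≠ 0) → T_PAQ 0

/-- **THC** (30 min): THIN and CRT. Edit of `RelU/P_THIN.lean`, `RelU/P_CRT.lean` (the questions in the run of an accepted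
witness; `cc j c` at `d` depends only on whether `c ⟨(κ, x), _⟩ = some y`). -/
def T_THC : Prop := (∀ j : ℕ, Thin (2 ^ nn j) (ek j)) ∧
  ∀ (j t : ℕ) (η : ℕ → ℕ → ℝ) (ω : Om) (v : NM), t ∈ Wd j → v ∈ vs j →
    Cert (qbs (ms j) (str t).length) (Ac j η ω v t)

/-- **LNK** (25 min). `Cw j τ fun _ => false` is `cc j` of this configuration: a new word `x` of type `0` has a key iff its last
bit is `true` and `τ (κ, x.dropLast, [], 0) = true`; the key is `ek j p` of the key bits. -/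
def T_LNK : Prop := ∀ (j t : ℕ) (η : ℕ → ℕ → ℝ) (ω τ : Om) (v : NM),
  G0 j η ω τ v t ↔ cfg (ek j) (fun x => τ (x.1.1, x.1.2.dropLast, [], 0))
    (fun x (i : Fin (nn (j + 1))) => τ (x.1.1, x.1.2, [], i.1 + 1)) ∈ Ac j η ω v t

/-- **UNF** (25 min). Edit of `RelU/P_UNF.lean` (`RelY.coin_map`; these coins are fair: `sv a = 1 / 2`). -/
def T_UNF : Prop := ∀ (X : Type) [Fintype X] (M : ℕ) (f : X ⊕ X × Fin M → Idx),
  Function.Injective f → (∀ x, (f x).2.2.1 = []) →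
  ∀ S : Set ((X → Bool) × (X → (Fin M → Bool))),
  coin.real {τ | ((fun x => τ (f (Sum.inl x))), (fun x (i : Fin M) => τ (f (Sum.inr (x, i))))) ∈ S} =
    Pu S

/-- **PQC** (45 min; from T_DIC, `RelU.T_NC`, T_THC, T_LNK, T_UNF). With `β` = the bound of DIC (for both machines;
`amb` is contained in `ans2 2`): `P(G₁ ↔ G₂) ≤ ε + 2 β`, so by NC (`N = 2 ^ nn j`, `(j + 1) q ≤ N`: `ACC.qb_small`) `p (1 - p) ≤
4 (ε + 2 β) + 9 / (j + 1)` for `p = P(G₁)`, and `|pa - p| ≤ β`. -/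
def T_PQC : Prop := T_PAQ 2

/-! ## Complementary machines in the world of type `2` -/

/-- **FKG** (30 min). (1) Mathlib `fkg` for the lattice `D → Bool` and the weights `wt s` (`wt s a * wt s b = wt s (a ⊓ b) *
wt s (a ⊔ b)`, `∑ wt = 1`). (2) from `RelY.p_OR` (`Pool.Agent.RelY.P_OR`): `V₁ ∈ A` implies `V₁ ∪ V₂ ∈ A`. -/
def T_FKG : Prop := ∀ (D : Type) [Fintype D] (s : D → ℝ) (A : Set (D → Bool)),
  (∀ d, 0 ≤ s d) → (∀ d, s d ≤ 1) →
  (∀ V V' : D → Bool, V ∈ A → (∀ d, V d = true → V' d = true) → V' ∈ A) →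
  (∀ B : Set (D → Bool), (∀ V V' : D → Bool, V ∈ B → (∀ d, V d = true → V' d = true) → V' ∈ B) →
    PF s A * PF s B ≤ PF s (A ∩ B)) ∧
  PF s A ≤ PF (fun d => s d ^ 2) A

/-- **HAR** (50 min). Harris for functions of finitely many coins. Reduce to the finite product: with `D = S` (subtype)
`∫ f ∂coin = ∑ V, wt (fun a => sv a) V * f (V on S, false elsewhere)` (`RelY.coin_map`, `RelB.pi_real` or
`integral_map` and `integral_fintype`), then Mathlib `fkg` as in FKG. -/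
def T_HAR : Prop := ∀ (S : Set Idx) (f g : Om → ℝ), S.Finite → Dep S f → Dep S g →
  (∀ τ, 0 ≤ f τ) → (∀ τ, 0 ≤ g τ) →
  (∀ τ τ' : Om, (∀ a, τ a = true → τ' a = true) → f τ ≤ f τ') →
  (∀ τ τ' : Om, (∀ a, τ a = true → τ' a = true) → g τ ≤ g τ') →
  (∫ τ, f τ ∂coin) * ∫ τ, g τ ∂coin ≤ ∫ τ, f τ * g τ ∂coin

/-- **SEQ** (25 min). PROOF. `e 0 ≤ 2 E`, `a 0 (1 - a 0) ≤ a 0 (b 0 + e 0) ≤ 2 e 0 ≤ 4 E`. If `a 0 ≤ 1 / 2` then `a 0 ≤ 8 E`,
`b i ≥ b 0 ≥ 1 - 10 E`, `a i ≤ a i b i + a i (1 - b i) ≤ e i + 10 E`, so the mean `p` of `a` is at most `11 E`. If `a 0 > 1 / 2`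
then `1 - a i ≤ 1 - a 0 ≤ 8 E` for all `i`. -/
def T_SEQ : Prop := ∀ (K : ℕ) (p a b e : ℕ → ℝ) (E : ℝ), (∀ i, 0 ≤ p i) → 1 / 2 ≤ p 0 →
  ∑ i ∈ Finset.range (K + 1), p i = 1 → (∀ i, 0 ≤ a i ∧ a i ≤ 1) → (∀ i, 0 ≤ b i ∧ b i ≤ 1) →
  (∀ i ≤ K, a i * b i ≤ e i) → (∀ i ≤ K, 1 - a i - b i ≤ e i) →
  (∀ i < K, a i ≤ a (i + 1)) → (∀ i < K, b i ≤ b (i + 1)) →
  ∑ i ∈ Finset.range (K + 1), p i * e i ≤ E →
  (∑ i ∈ Finset.range (K + 1), p i * a i) * (1 - ∑ i ∈ Finset.range (K + 1), p i * a i) ≤ 11 * E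

/-- The configurations above an accepted one. -/
def U0 (j : ℕ) (η : ℕ → ℕ → ℝ) (ω : Om) (v : NM) (t : ℕ) : Set (Dj j → Bool) :=
  {c | Upw (fun c => ∃ y, Aw j η ω v t y c) c}

/-- **UPW** (30 min; from T_TRE, T_FKG, T_HAR, `RelY.T_RHO`). All types `2`: `Cw j τ w = fun d => sgn τ .. && w d` is increasing
in `τ` and in `w`, and `Upw F (Cw j τ w) ↔ Upw (fun w => F (Cw j τ w)) w`. (1) `RelS.UP_.up_bound` (or `up_diff`; `Cert` from the
tree of TRE: `Qs y w`); `si j i d ≥ 1 / 2` by RHO. (2) HAR for `f τ = PF (si j i) {w | Cw j τ w ∈ U0 v₁}` (increasing, depends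
on `Old (j + 1)`), and FKG for fixed `τ`. (3) FKG (2) and RHO (2), integrated. -/
def T_UPW : Prop := (∀ κ, Md.ty κ = 2) → ∀ (j t : ℕ) (η : ℕ → ℕ → ℝ) (ω : Om) (v v' : NM),
  t ∈ Wd j → v ∈ vs j → v' ∈ vs j →
  (∀ (τ : Om) (i : ℕ), i ≤ kk (j + 1) →
    PF (si j i) {w | Cw j τ w ∈ U0 j η ω v t ∧ ¬ ∃ y, Aw j η ω v t y (Cw j τ w)} ≤
      2 * ((qbs (ms j) (str t).length : ℝ) * (1 / 2) ^ (nn j / 2))) ∧
  (∀ i ≤ kk (j + 1), (∫ τ, PF (si j i) {w | Cw j τ w ∈ U0 j η ω v t} ∂coin) *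
      (∫ τ, PF (si j i) {w | Cw j τ w ∈ U0 j η ω v' t} ∂coin) ≤
    ∫ τ, PF (si j i) {w | Cw j τ w ∈ U0 j η ω v t ∧ Cw j τ w ∈ U0 j η ω v' t} ∂coin) ∧
  (∀ i < kk (j + 1), (∫ τ, PF (si j i) {w | Cw j τ w ∈ U0 j η ω v t} ∂coin) ≤
    ∫ τ, PF (si j (i + 1)) {w | Cw j τ w ∈ U0 j η ω v t} ∂coin)

/-- **PQB** (50 min; from T_UPW, T_SEQ, T_AVG, T_LKY, `RelY.T_NKB`). `ν = 1 / (j + 1)`, `q ρ` = `ν / 2` at most (`RelY/P_PAQ.lean`
`rho_q`). `a i = ∫ PF (si j i) {w | Cw j τ w ∈ U0 v₁}`, `b i` for `v₂`, `e i = ∫ PF (si j i) {w | A₁ ↔ A₂} + 4 q ρ` (`A_k`: some witness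
accepted in `Cw j τ w`): `both in U0 or neither` is contained in `(A₁ ↔ A₂) ∪ (U₁ minus A₁) ∪ (U₂ minus A₂)`. `∑ pr e ≤ ε + ν +
4 q ρ` (AVG for `Q τ = {w | A₁ ↔ A₂}`, LKY, NKB). `pr (j + 1) 0 ≥ 1 / 2`. SEQ; and `|pa - ∑ pr a| ≤ ν + 2 q ρ` (AVG for `A₁`). -/
def T_PQB : Prop := (∀ κ, Md.ty κ = 2) → T_PAQ 1

/-! ## Infinitely many successes -/

/-- **DNS** (10 min). Copy of `RelY/P_DNS.lean`. -/
def T_DNS : Prop := ∀ (S : Set Om), MeasurableSet S → coin S ≠ 0 → ∀ ε : ℝ, 0 < ε →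
  ∀ e m : ℕ, ∃ j, m ≤ j ∧ st j = e ∧ ∃ ω : Om, coin.real {τ | mixP (Old j) ω τ ∉ S} ≤ ε

/-- **SUC** (15 min). Edit of `RelY/P_SUC.lean` (with `tr2_dep` for `Tr2 b`). -/
def T_SUC : Prop := ∀ (δ : ℝ), 0 < δ → ∀ (j : ℕ) (ω : Om),
  ∑ t ∈ Wd j, Real.binEntropy (pp j t ω) ≤ δ / 2 * 2 ^ (nn j + j) →
  coin {τ | mixP (Old j) ω τ ∈ fail δ j} ≤ ENNReal.ofReal (1 / 2)

/-- **PWL** (10 min). Copy of `RelY/P_PWL.lean`. -/
def T_PWL : Prop := ∀ (δ : ℝ) (j : ℕ) (ω : Om), ω ∉ fail δ j →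
  Real.exp (-(δ * 2 ^ (nn j + j) + 2 ^ nn j)) ≤ Pw (hf ω) j (pre (Lj j ω) (2 ^ (nn j + j)))

/-- The stages of a code whose pair satisfies the hypothesis number `b` succeed again and again. -/
def T_IOS (b : ℕ) : Prop := ∀ (e : ℕ) (δ : ℝ), 0 < δ → ∀ᵐ ω ∂coin,
  (∀ j, st j = e → ∀ t ∈ Wd j, ¬ Tr2 b j t ω) →
  ∀ m : ℕ, ∃ j, m ≤ j ∧ st j = e ∧ ω ∉ fail δ j

/-- **IOS** (25 min; from `RelU.T_ENT`, T_DNS, T_SUC). Edit of `RelY/P_IOS.lean`; `ε` and `J` come from `T_PAQ b`. -/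
def T_IOG : Prop := ∀ b : ℕ, T_PAQ b → T_IOS b

/-- The class number `b` has dimension `0`. -/
def T_UPP (b : ℕ) : Prop := ∀ᵐ ω ∂coin, ∀ s : ℝ, 0 < s →
  GaleNull1 s (oo ω) (Cls b (oo ω)) ∧ GaleNull2 s (oo ω) (Cls b (oo ω))

/-- **UPP** (35 min; from T_PWL, `RelB.T_AFF`). Edit of `RelY/P_UPP.lean`: for `A ∈ Cls b (oo ω)` there is `e` (`NN.pc_surj`) with
`A x = true ↔ acc (oo ω) (pc e).1 x` and `¬ bad b (oo ω) (pc e) x` for all `x` (`b = 0`: the second machine is arbitrary; `b = 1`: as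
in `RelU/P_UPP.lean`). -/
def T_UPG : Prop := ∀ b : ℕ, T_IOS b → T_UPP b

end Pool.Agent.RelK
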