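import Pool.Agent.RelK.NN
import Pool.Agent.RelK.Targets
import Pool.Agent.RelY.P_HIT

/-!
# Finding a hidden key
-/

set_option autoImplicit false

namespace Pool.Agent.RelK

open MeasureTheory Set
open scoped ENNReal
open Pool.Agent.RelM (Lang Instr Cfg step run Halts pair str pre wq sq0 sq1 Asks hq)
open Pool.Agent.RelO (lev levmono)
open Pool.Agent.RelS (Z Rl orcV orc Idx Om Dep mixP fd meas_of_dep ovis ocut bern)
open Pool.Agent.RelU (NM key)
open Pool.Agent.RelY (nn jj sv coin kk op NoKey bitsOf bl SS nnmono nnge jjspec jj_eq jj_le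
  lev_len lev_pos key_ne kk_le op_le op_congr indep coin_cyl bloc)
open Pool.Agent.RelY.HIT_ (lev_str hidden_ge bl_succ kc kc_fin K K_iff)

variable [Md]

namespace HIT_

/-- The hidden oracle depends only on the visible coins. -/
lemma ov_dep (κ t : ℕ) (h0 : nn 0 ≤ lev κ (str t ++ [false])) {ω ω' : Om}
    (h : ∀ a ∈ Vis κ t, ω a = ω' a) : ov κ t ω = ov κ t ω' := by
  obtain ⟨J, hJ, hJ1, hJ2⟩ := bl_succ κ t h0
  have hh : hs ω (J + 1) = hs ω' (J + 1) := by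
    refine hsdep J ω ω' fun a ha => h a ⟨?_, ?_, ?_, ?_⟩
    · rw [hJ]
      exact old_mono (Nat.le_succ J) ha
    · rintro ⟨h1, h2, h3, t', ht', h4⟩
      have h5 := ha.2.2.2.2.1 h2 h3
      rw [h1, h4] at h5
      have h6 := lev_str κ ht' false
      omega
    · rintro ⟨h1, h2, h3, t', ht', c, h4⟩
      have h5 := ha.2.2.2.2.2.2.1 h2 h3 (by rw [h4]; simp)
      rw [h1, h4] at h5
      have h6 := lev_str κ ht' c
      omega
    · rintro ⟨h1, h2, t', ht', c, h4⟩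
      have h5 := ha.2.2.2.2.2.2.2 h2
      rw [h1, h4] at h5
      have h6 := lev_str κ ht' c
      omega
  funext q
  unfold ov
  rw [hJ, hh]
  refine ovis _ _ _ _ (fun κ₁ x₁ y₁ hs₁ hy₁ => ?_) q
  have hop := op_le ω (jj (lev κ₁ x₁))
  have hkk := kk_le (jj_le hs₁.1)
  refine zo_congr (fun hx => h _ ⟨old_sgn hx hs₁.1, ?_, ?_, ?_⟩)
    (fun _ hx i hi => h _ ⟨old_kb hx hs₁.1 hi, ?_, ?_, ?_⟩)
    (fun _ => op_congr fun m hm => h _ ⟨old_op (jj_le hs₁.1) hm, ?_, ?_, ?_⟩)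
    (fun _ y hy => h _ ⟨old_key hs₁.1 hy (by omega), ?_, ?_, ?_⟩) hy₁
  · rintro ⟨h1, _, _, t', ht', h4⟩
    have h4' : x₁.dropLast = str t' := h4
    refine hs₁.2 ⟨h1, t', ht', x₁.getLast hx, ?_⟩
    rw [← h4', List.dropLast_append_getLast]
  · rintro ⟨_, _, h3, _⟩
    exact h3 rfl
  · rintro ⟨_, h2, _⟩
    exact h2 rfl
  · rintro ⟨_, _, h3, _⟩
    exact absurd h3 (Nat.succ_ne_zero i)
  · rintro ⟨h1, _, _, t', ht', c, h4⟩
    exact hs₁.2 ⟨h1, t', ht', c, h4⟩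
  · rintro ⟨_, h2, _⟩
    exact h2 rfl
  · rintro ⟨_, _, h3, _⟩
    exact absurd h3 (Nat.succ_ne_zero m)
  · rintro ⟨_, _, _, t', _, c, h4⟩
    have h4' : ([] : List Bool) = str t' ++ [c] := h4
    simp at h4'
  · rintro ⟨_, h2, _⟩
    exact h2 rfl
  · rintro ⟨_, h2, _⟩
    exact key_ne hy h2
  · rintro ⟨_, h2, _⟩
    exact key_ne hy h2
  · rintro ⟨h1, _, t', ht', c, h4⟩
    exact hs₁.2 ⟨h1, t', ht', c, h4⟩

/-- The event that `wq κ' x' y` with a hidden pair is asked at step `s`. -/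
def A (κ t : ℕ) (Pr : List Instr) (X : Om → List Bool) (s : ℕ)
    (i : ℕ × List Bool × List Bool) : Set Om :=
  {ω | (¬ SS κ t i.1 i.2.1 ∧ i.2.2.length = lev i.1 i.2.1) ∧
    Asks (ov κ t ω) Pr (X ω) s (wq i.1 i.2.1 i.2.2)}

lemma visfin (κ t : ℕ) : (Vis κ t).Finite :=
  (oldfin _).subset fun _ h => h.1

lemma A_iff (κ t : ℕ) (h0 : nn 0 ≤ lev κ (str t ++ [false])) {Pr : List Instr}
    {X : Om → List Bool} (hX : Dep (Vis κ t) X) (s : ℕ) (i : ℕ × List Bool × List Bool)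
    {ω ω' : Om} (h : ∀ a ∈ Vis κ t, ω a = ω' a) :
    ω ∈ A κ t Pr X s i ↔ ω' ∈ A κ t Pr X s i := by
  show (_ ∧ Asks (ov κ t ω) Pr (X ω) s _) ↔ (_ ∧ Asks (ov κ t ω') Pr (X ω') s _)
  rw [ov_dep κ t h0 h, hX ω ω' h]

lemma A_meas (κ t : ℕ) (h0 : nn 0 ≤ lev κ (str t ++ [false])) {Pr : List Instr}
    {X : Om → List Bool} (hX : Dep (Vis κ t) X) (s : ℕ) (i : ℕ × List Bool × List Bool) :
    MeasurableSet (A κ t Pr X s i) :=
  fd (visfin κ t) fun _ _ h => A_iff κ t h0 hX s i h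

/-- The coins of the keys of a pair. -/
def pk (κ : ℕ) (x : List Bool) : Set Idx :=
  {a | a.1 = κ ∧ a.2.1 = x ∧ (a.2.2.1 = [] → a.2.2.2 ≠ 0 ∧ x ≠ [])}

/-- The key coins of a hidden pair are not visible. -/
lemma hidden_notMem (κ t : ℕ) {κ' : ℕ} {x' : List Bool} (hS : ¬ SS κ t κ' x')
    {a : Idx} (ha : a ∈ Vis κ t) : a ∉ pk κ' x' := by
  rintro ⟨h1, h2, h3⟩
  apply hS
  by_cases h4 : a.2.2.1 = []
  · obtain ⟨h5, h6⟩ := h3 h4
    refine ⟨?_, ?_⟩
    · rw [← h1, ← h2]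
      exact ha.1.2.2.2.2.2.2.1 h4 h5 (by rw [h2]; exact h6)
    · rintro ⟨e1, t', ht', c, hc⟩
      exact ha.2.2.1 ⟨h1.trans e1, h4, h5, t', ht', c, h2.trans hc⟩
  · refine ⟨?_, ?_⟩
    · rw [← h1, ← h2]
      exact ha.1.2.2.2.2.2.2.2 h4
    · rintro ⟨e1, t', ht', c, hc⟩
      exact ha.2.2.2 ⟨h1.trans e1, h4, t', ht', c, h2.trans hc⟩

/-- A hidden key is hit with small probability if this is an event of small probability that
depends on the coins of the keys of the pair. -/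
lemma hit_aux (κ t : ℕ) (h0 : nn 0 ≤ lev κ (str t ++ [false])) {Pr : List Instr}
    {X : Om → List Bool} (hX : Dep (Vis κ t) X) (s : ℕ) {κ' : ℕ} {x' y : List Bool}
    (hS : ¬ SS κ t κ' x') (C : Set Om) (F : Set Idx) (hF : F.Finite) (hFp : F ⊆ pk κ' x')
    (hCiff : ∀ ω ω' : Om, (∀ a ∈ F, ω a = ω' a) → (ω ∈ C ↔ ω' ∈ C))
    (hz : ∀ ω : Om, zo ω κ' x' y = true → ω ∈ C)
    (hCc : coin C ≤ (2⁻¹ : ℝ≥0∞) ^ (lev κ (str t ++ [false]) / 2)) :
    coin (A κ t Pr X s (κ', x', y) ∩ {ω | zo ω κ' x' y = true}) ≤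
      (2⁻¹ : ℝ≥0∞) ^ (lev κ (str t ++ [false]) / 2) * coin (A κ t Pr X s (κ', x', y)) := by
  have hAm := A_meas κ t h0 (Pr := Pr) hX s (κ', x', y)
  have hCm : MeasurableSet C := fd hF hCiff
  have hCd : Dep (pk κ' x') (C.indicator (1 : Om → ℝ≥0∞)) := by
    intro ω ω' h
    have hC := hCiff ω ω' fun a ha => h a (hFp ha)
    by_cases hω : ω ∈ C
    · rw [Set.indicator_of_mem hω, Set.indicator_of_mem (hC.1 hω)]
      rfl
    · rw [Set.indicator_of_notMem hω, Set.indicator_of_notMem fun h => hω (hC.2 h)]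
  have hAd : Dep (pk κ' x')ᶜ ((A κ t Pr X s (κ', x', y)).indicator (1 : Om → ℝ≥0∞)) := by
    intro ω ω' h
    have hA : ω ∈ A κ t Pr X s (κ', x', y) ↔ ω' ∈ A κ t Pr X s (κ', x', y) :=
      A_iff κ t h0 hX s _ fun a ha => h a (hidden_notMem κ t hS ha)
    by_cases hω : ω ∈ A κ t Pr X s (κ', x', y)
    · rw [Set.indicator_of_mem hω, Set.indicator_of_mem (hA.1 hω)]
      rfl
    · rw [Set.indicator_of_notMem hω, Set.indicator_of_notMem fun h => hω (hA.2 h)]
  have hsub : A κ t Pr X s (κ', x', y) ∩ {ω | zo ω κ' x' y = true} ⊆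
      A κ t Pr X s (κ', x', y) ∩ C := by
    rintro ω ⟨hA, hz'⟩
    exact ⟨hA, hz ω hz'⟩
  have hi := indep (p := pk κ' x') (F := C.indicator 1)
    (G := (A κ t Pr X s (κ', x', y)).indicator 1)
    (measurable_one.indicator hCm) (measurable_one.indicator hAm) hCd hAd
  rw [lintegral_indicator_one hCm, lintegral_indicator_one hAm] at hi
  have hmul : ∀ ω : Om, C.indicator (1 : Om → ℝ≥0∞) ω *
      (A κ t Pr X s (κ', x', y)).indicator 1 ω =
      (A κ t Pr X s (κ', x', y) ∩ C).indicator 1 ω := by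
    intro ω
    by_cases ha : ω ∈ A κ t Pr X s (κ', x', y) <;> by_cases hb : ω ∈ C <;>
      simp [Set.indicator, ha, hb]
  simp only [hmul] at hi
  rw [lintegral_indicator_one (hAm.inter hCm)] at hi
  calc coin (A κ t Pr X s (κ', x', y) ∩ {ω | zo ω κ' x' y = true})
      ≤ coin (A κ t Pr X s (κ', x', y) ∩ C) := measure_mono hsub
    _ = coin C * coin (A κ t Pr X s (κ', x', y)) := hi
    _ ≤ (2⁻¹ : ℝ≥0∞) ^ (lev κ (str t ++ [false]) / 2) *
          coin (A κ t Pr X s (κ', x', y)) := mul_le_mul' hCc le_rfl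

/-- The bits of the unique key. -/
def kb (κ' : ℕ) (x' : List Bool) : Finset Idx :=
  (Finset.range (lev κ' x')).image fun i => ((κ', x', [], i + 1) : Idx)

lemma kb_card (κ' : ℕ) (x' : List Bool) : (kb κ' x').card = lev κ' x' := by
  unfold kb
  rw [Finset.card_image_of_injective, Finset.card_range]
  intro i j h
  have := congrArg (fun a : Idx => a.2.2.2) h
  simpa using this

/-- The values of the bits of the key `y`. -/
def kv (y : List Bool) : Idx → Bool := fun a => y.getD (a.2.2.2 - 1) false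

lemma kb_coin (κ' : ℕ) (x' : List Bool) (v : Idx → Bool) :
    coin {ω : Om | ∀ a ∈ kb κ' x', ω a = v a} = (2⁻¹ : ℝ≥0∞) ^ lev κ' x' := by
  rw [coin_cyl]
  have h3 : ENNReal.ofReal (1 / 2) = 2⁻¹ := by
    rw [one_div, ENNReal.ofReal_inv_of_pos (by norm_num)]
    norm_num
  rw [Finset.prod_congr rfl (g := fun _ => (2⁻¹ : ℝ≥0∞)), Finset.prod_const, kb_card]
  intro a ha
  obtain ⟨i, _, rfl⟩ := Finset.mem_image.1 (show a ∈ kb κ' x' from ha)
  have h2 : sv ((κ', x', [], i + 1) : Idx) = 1 / 2 := by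
    unfold sv
    rw [if_pos rfl]
  have h4 : (if v (κ', x', [], i + 1) = true then 1 - sv ((κ', x', [], i + 1) : Idx)
      else sv ((κ', x', [], i + 1) : Idx)) = 1 / 2 := by
    rw [h2]
    split_ifs
    · norm_num
    · rfl
  rw [h4, h3]

lemma key_cyl {ω : Om} {κ' : ℕ} {x' y : List Bool} (ht : Md.ty κ' = 0)
    (h : zo ω κ' x' y = true) : ω ∈ {ω : Om | ∀ a ∈ kb κ' x', ω a = kv y a} := by
  unfold zo at h
  rw [Bool.and_eq_true, if_pos ht, decide_eq_true_eq] at h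
  intro a ha
  unfold kb at ha
  obtain ⟨i, hi, rfl⟩ := Finset.mem_image.1 ha
  have hi' := Finset.mem_range.1 hi
  unfold kv
  rw [h.2]
  show ω (κ', x', [], i + 1) = (key ω κ' x').getD (i + 1 - 1) false
  rw [Nat.add_sub_cancel, List.getD_eq_getElem _ _ (by rw [key_len]; exact hi')]
  unfold key
  rw [List.getElem_map, List.getElem_range]

lemma key_K {ω : Om} {κ' : ℕ} {x' y : List Bool} (ht : Md.ty κ' ≠ 0)
    (h : zo ω κ' x' y = true) : ω ∈ K κ' x' y := by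
  classical
  unfold zo at h
  rw [Bool.and_eq_true, if_neg ht, Bool.or_eq_true, decide_eq_true_eq] at h
  exact ⟨op ω (jj (lev κ' x')), op_le ω _, h.2⟩

/-- A hidden key is hit with small probability. -/
lemma hit_one (hKEYP : Pool.Agent.RelY.T_KEYP) (κ t : ℕ)
    (h0 : nn 0 ≤ lev κ (str t ++ [false]))
    {Pr : List Instr} {X : Om → List Bool} (hX : Dep (Vis κ t) X) (s : ℕ)
    (i : ℕ × List Bool × List Bool) :
    coin (A κ t Pr X s i ∩ {ω | zo ω i.1 i.2.1 i.2.2 = true}) ≤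
      (2⁻¹ : ℝ≥0∞) ^ (lev κ (str t ++ [false]) / 2) * coin (A κ t Pr X s i) := by
  obtain ⟨κ', x', y⟩ := i
  by_cases hS : ¬ SS κ t κ' x' ∧ y.length = lev κ' x'
  swap
  · have : A κ t Pr X s (κ', x', y) = ∅ := by
      ext ω
      constructor
      · intro h
        exact (hS h.1).elim
      · intro h
        exact h.elim
    rw [this]
    simp
  obtain ⟨hS, hy⟩ := hS
  have hge := hidden_ge κ t hS
  have hpow : ∀ n : ℕ, lev κ (str t ++ [false]) / 2 ≤ n →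
      (2⁻¹ : ℝ≥0∞) ^ n ≤ (2⁻¹ : ℝ≥0∞) ^ (lev κ (str t ++ [false]) / 2) := fun n hn =>
    pow_le_pow_right_of_le_one' (ENNReal.inv_le_one.2 (by norm_num)) hn
  by_cases ht : Md.ty κ' = 0
  · rcases eq_or_ne x' [] with hx | hx
    · subst hx
      refine hit_aux κ t h0 hX s hS ∅ ∅ Set.finite_empty (Set.empty_subset _)
        (fun _ _ _ => Iff.rfl) (fun ω hz => ?_) (by simp)
      unfold zo at hz
      rw [sgn_nil] at hz
      simp at hz
    · refine hit_aux κ t h0 hX s hS {ω : Om | ∀ a ∈ kb κ' x', ω a = kv y a} (kb κ' x' : Set Idx)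
        (Finset.finite_toSet _) (fun a ha => ?_) (fun ω ω' h => ?_) (fun ω hz => key_cyl ht hz) ?_
      · obtain ⟨i, _, rfl⟩ := Finset.mem_image.1 (show a ∈ kb κ' x' from ha)
        exact ⟨rfl, rfl, fun _ => ⟨Nat.succ_ne_zero i, hx⟩⟩
      · show (∀ a ∈ kb κ' x', ω a = kv y a) ↔ (∀ a ∈ kb κ' x', ω' a = kv y a)
        refine forall₂_congr fun a ha => ?_
        rw [h a ha]
      · rw [kb_coin]
        exact hpow _ (by omega)
  · refine hit_aux κ t h0 hX s hS (K κ' x' y) (kc κ' x') (kc_fin κ' x') (fun a ha => ?_)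
      (fun ω ω' h => K_iff hy h) (fun ω hz => key_K ht hz) ?_
    · exact ⟨ha.1, ha.2.1, fun e => absurd e (key_ne ha.2.2.1)⟩
    · exact (hKEYP κ' x' y (h0.trans hge) hy).trans (hpow _ (by omega))

end HIT_

open HIT_ in
/-- Finding a hidden key. -/
theorem p_HIT_of (hKEYP : Pool.Agent.RelY.T_KEYP) : T_HIT := by
  intro κ t Pr X τ hm0 hXd hXl
  set m := lev κ (str t ++ [false]) with hm
  -- the events that a hidden key is asked
  have hsub : {ω | ∃ s ≤ τ, run (oo ω) Pr (X ω) s ≠ run (ov κ t ω) Pr (X ω) s} ⊆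
      ⋃ s ∈ Finset.range τ, ⋃ i : ℕ × List Bool × List Bool,
        (A κ t Pr X s i ∩ {ω | zo ω i.1 i.2.1 i.2.2 = true}) := by
    intro ω hω
    by_contra hcon
    simp only [Set.mem_iUnion, Finset.mem_range, not_exists, exists_prop, not_and] at hcon
    obtain ⟨s, hsτ, hne⟩ := hω
    apply hne
    refine Pool.Agent.RelM.loc _ _ Pr (X ω) τ (fun s' hs' q hq => ?_) s hsτ
    by_contra hne'
    have hlen := Pool.Agent.RelM.len _ _ _ _ _ hq
    have hXl' := hXl ω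
    rcases ocut (SS κ t) (bitsOf (hf ω)) (bitsOf (hs ω (bl κ (str t))))
      (zo ω) (zo ω) (fun _ _ _ _ _ => rfl) q
      (fun h => hne' h.symm) with
      ⟨κ', x', y', hS, hy', hq', hz'⟩ | ⟨κ', x', m', hS, hq', hm'⟩ | ⟨u, hq', hu⟩
    · refine hcon s' hs' (κ', x', y') ⟨⟨⟨hS, hy'⟩, ?_⟩, hz'⟩
      rw [← hq']
      exact hq
    · have h2 := Pool.Agent.RelM.HitJob.le_length_sq1 κ' x' m'
      rw [← hq'] at h2
      have h4 : 2 ^ m ≤ 2 ^ lev κ' x' :=
        Nat.pow_le_pow_right (by norm_num) (hidden_ge κ t hS)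
      omega
    · apply hu
      refine bloc _ _ u fun j hj => ?_
      have h5 : j < bl κ (str t) := by
        by_contra h6
        have h7 : nn (bl κ (str t)) ≤ nn j := nnmono.monotone (by omega)
        have h10 : m < nn (bl κ (str t)) := (jjspec m).1
        have h8 : 2 ^ m ≤ 2 ^ nn j := Nat.pow_le_pow_right (by norm_num) (by omega)
        have h9 : q.length = u.length + 2 := by rw [hq']; simp
        omega
      exact (hsval ω (bl κ (str t)) j h5).symm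
  have hdisj : ∀ s, Pairwise (Function.onFun Disjoint (A κ t Pr X s)) := by
    intro s i j hij
    rw [Function.onFun, Set.disjoint_left]
    rintro ω ⟨_, h1⟩ ⟨_, h2⟩
    apply hij
    obtain ⟨e1, e2, e3⟩ := Pool.Agent.RelM.HitJob.wq_inj' (Pool.Agent.RelM.one _ _ _ _ _ _ h1 h2)
    exact Prod.ext e1 (Prod.ext e2 e3)
  calc coin {ω | ∃ s ≤ τ, run (oo ω) Pr (X ω) s ≠ run (ov κ t ω) Pr (X ω) s}
      ≤ coin (⋃ s ∈ Finset.range τ, ⋃ i : ℕ × List Bool × List Bool,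
        (A κ t Pr X s i ∩ {ω | zo ω i.1 i.2.1 i.2.2 = true})) := measure_mono hsub
    _ ≤ ∑ s ∈ Finset.range τ, coin (⋃ i : ℕ × List Bool × List Bool,
        (A κ t Pr X s i ∩ {ω | zo ω i.1 i.2.1 i.2.2 = true})) :=
        measure_biUnion_finset_le _ _
    _ ≤ ∑ _s ∈ Finset.range τ, (2⁻¹ : ℝ≥0∞) ^ (m / 2) := by
        refine Finset.sum_le_sum fun s _ => ?_
        calc coin (⋃ i : ℕ × List Bool × List Bool,
              (A κ t Pr X s i ∩ {ω | zo ω i.1 i.2.1 i.2.2 = true}))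
            ≤ ∑' i : ℕ × List Bool × List Bool,
              coin (A κ t Pr X s i ∩ {ω | zo ω i.1 i.2.1 i.2.2 = true}) :=
              measure_iUnion_le _
          _ ≤ ∑' i, (2⁻¹ : ℝ≥0∞) ^ (m / 2) * coin (A κ t Pr X s i) :=
              ENNReal.tsum_le_tsum fun i => hit_one hKEYP κ t hm0 hXd s i
          _ = (2⁻¹ : ℝ≥0∞) ^ (m / 2) * coin (⋃ i, A κ t Pr X s i) := by
              rw [ENNReal.tsum_mul_left, measure_iUnion (hdisj s) fun i =>
                A_meas κ t hm0 hXd s i]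
          _ ≤ (2⁻¹ : ℝ≥0∞) ^ (m / 2) * 1 := by
              gcongr
              exact prob_le_one
          _ = (2⁻¹ : ℝ≥0∞) ^ (m / 2) := mul_one _
    _ = τ * (2⁻¹ : ℝ≥0∞) ^ (m / 2) := by
        rw [Finset.sum_const, Finset.card_range, nsmul_eq_mul]

end Pool.Agent.RelK
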