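import Pool.Agent.RelK.ACC
import Pool.Agent.RelK.Targets

/-!
# IOG: infinitely many successes, for every hypothesis number
-/

set_option autoImplicit false

namespace Pool.Agent.RelK

open MeasureTheory Set
open scoped ENNReal
open Pool.Agent.RelM (Lang Instr Cfg run Halts pair triple str pre hq wq sq0 sq1 Asks code qb)
open Pool.Agent.RelO (lev st)
open Pool.Agent.RelS (Z Rl orcV orc acc Idx Om Dep mixP fd meas_of_dep mixP_pos mixP_neg mixP_meas)
open Pool.Agent.RelB (qf)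
open Pool.Agent.RelY (nn coin Wd)

variable [Md]

namespace IOG_

theorem truth_iff (b : ℕ) {j : ℕ} (ω : Om) {t : ℕ} (ht : t ∈ Wd j) :
    (Tr j t ω ↔ ans j (hs ω j) ω t) ∧ (Tr2 b j t ω ↔ ans2 b j (hs ω j) ω t) := by
  have h := accl j t (hf ω) (hs ω j) ω ω ht (fun i hi => (hsval ω j i hi).symm) (fun _ _ => rfl)
  exact ⟨h.1, h.2 b⟩

theorem hs_congr {j : ℕ} {ω ω' : Om} (h : ∀ a ∈ Old j, ω a = ω' a) : hs ω j = hs ω' j := by
  cases j with
  | zero => rfl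
  | succ j => exact hsdep j ω ω' fun a ha => h a (old_mono (Nat.le_succ j) ha)

theorem pp_congr {j t : ℕ} {ω ω' : Om} (h : ∀ a ∈ Old j, ω a = ω' a) :
    pp j t ω = pp j t ω' := by
  unfold pp
  rw [hs_congr h, pa_congr h]

theorem tr_dep (b : ℕ) {j : ℕ} {ω ω' : Om} {t : ℕ} (ht : t ∈ Wd j)
    (hw : ∀ a ∈ Old (j + 1), ω a = ω' a) :
    (Tr j t ω ↔ Tr j t ω') ∧ (Tr2 b j t ω ↔ Tr2 b j t ω') := by
  rw [(truth_iff b ω ht).1, (truth_iff b ω' ht).1, (truth_iff b ω ht).2, (truth_iff b ω' ht).2,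
    hs_congr fun a ha => hw a (old_mono (Nat.le_succ j) ha)]
  have h := accl j t (hs ω' j) (hs ω' j) ω ω' ht (fun _ _ => rfl) hw
  exact ⟨h.1, h.2 b⟩

theorem ql_dep {j : ℕ} {ω ω' : Om} {t : ℕ} (ht : t ∈ Wd j)
    (hw : ∀ a ∈ Old (j + 1), ω a = ω' a) : ql j t ω = ql j t ω' := by
  unfold ql
  rw [pp_congr fun a ha => hw a (old_mono (Nat.le_succ j) ha),
    decide_eq_decide.2 (tr_dep 0 ht hw).1]

theorem fail_dep {δ : ℝ} {j : ℕ} {ω ω' : Om} (hw : ∀ a ∈ Old (j + 1), ω a = ω' a) :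
    ω ∈ fail δ j ↔ ω' ∈ fail δ j := by
  have h1 : loss j ω = loss j ω' := by
    unfold loss
    refine Finset.sum_congr rfl fun t ht => ?_
    rw [ql_dep ht hw]
  unfold fail
  simp only [Set.mem_ofPred_eq]
  rw [h1]
  refine or_congr Iff.rfl ?_
  refine exists_congr fun t => and_congr_right fun ht => ?_
  rw [ql_dep ht hw]

/-- The event that the hypothesis number `b` holds and the stage fails. -/
def Ev (b : ℕ) (δ : ℝ) (j : ℕ) : Set Om :=
  {ω | (∀ t ∈ Wd j, ¬ Tr2 b j t ω) ∧ ω ∈ fail δ j}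

theorem ev_meas (b : ℕ) (δ : ℝ) (j : ℕ) : MeasurableSet (Ev b δ j) := by
  refine fd (oldfin (j + 1)) fun ω ω' h => ?_
  unfold Ev
  simp only [Set.mem_ofPred_eq]
  refine and_congr ?_ (fail_dep h)
  refine forall_congr' fun t => forall_congr' fun ht => ?_
  rw [(tr_dep b ht h).2]

/-- All late stages of the machine number `e` fail, with a pair that satisfies the hypothesis. -/
def SS_ (b e : ℕ) (δ : ℝ) (m : ℕ) : Set Om :=
  ⋂ (j : ℕ) (_ : m ≤ j) (_ : st j = e), Ev b δ j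

theorem ss_meas (b e : ℕ) (δ : ℝ) (m : ℕ) : MeasurableSet (SS_ b e δ m) :=
  MeasurableSet.iInter fun j => MeasurableSet.iInter fun _ => MeasurableSet.iInter fun _ =>
    ev_meas b δ j

theorem ss_mem {b e : ℕ} {δ : ℝ} {m : ℕ} {ω : Om} :
    ω ∈ SS_ b e δ m ↔ ∀ j, m ≤ j → st j = e → ω ∈ Ev b δ j := by
  unfold SS_
  simp only [Set.mem_iInter]

theorem ss_null {b : ℕ} (hPAQ : T_PAQ b) (hENT : Pool.Agent.RelU.T_ENT) (hDNS : T_DNS)
    (hSUC : T_SUC) (e : ℕ) (δ : ℝ) (hδ : 0 < δ) (m : ℕ) : coin (SS_ b e δ m) = 0 := by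
  by_contra hne
  obtain ⟨γ, hγ, hent⟩ := hENT (δ / 4) (by positivity)
  obtain ⟨ε, hε, J, hJ⟩ := hPAQ γ hγ
  have hε' : 0 < min ε (1 / 4) := lt_min hε (by norm_num)
  obtain ⟨j, hj, hst, ω, hω⟩ := hDNS (SS_ b e δ m) (ss_meas b e δ m) hne (min ε (1 / 4)) hε' e
    (max m J)
  have hmj : m ≤ j := (le_max_left _ _).trans hj
  have hJj : J ≤ j := (le_max_right _ _).trans hj
  have h0 : ∀ τ, ∀ a ∈ Old j, mixP (Old j) ω τ a = ω a := fun τ a ha => mixP_pos ha
  have hpp : ∀ t ∈ Wd j, Real.binEntropy (pp j t ω) ≤ δ / 4 := by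
    intro t ht
    have h1 : coin.real {τ | ans2 b j (hs ω j) (mixP (Old j) ω τ) t} ≤ min ε (1 / 4) := by
      refine le_trans (measureReal_mono ?_) hω
      intro τ hτ hS
      have h2 := (ss_mem.1 hS j hmj hst).1 t ht
      rw [(truth_iff b _ ht).2, hs_congr (h0 τ)] at h2
      exact h2 hτ
    have h4 := hJ j hJj t (hs ω j) ω ht (h1.trans (min_le_left _ _))
    refine hent (pp j t ω) ?_ ?_ h4
    · unfold pp pa
      exact measureReal_nonneg
    · unfold pp pa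
      exact measureReal_le_one
  have hsum : ∑ t ∈ Wd j, Real.binEntropy (pp j t ω) ≤ δ / 2 * 2 ^ (nn j + j) := by
    refine (Finset.sum_le_sum hpp).trans ?_
    rw [Finset.sum_const, nsmul_eq_mul]
    have h1 : ((Wd j).card : ℝ) ≤ 2 ^ (nn j + j) := by
      unfold Wd
      rw [Nat.card_Ico]
      exact_mod_cast Nat.sub_le _ _
    have h2 := mul_le_mul_of_nonneg_right h1 (by positivity : (0 : ℝ) ≤ δ / 4)
    have h3 : (0 : ℝ) ≤ 2 ^ (nn j + j) * δ := by positivity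
    linarith
  have h6 := hSUC δ hδ j ω hsum
  have h7 : coin.real {τ | mixP (Old j) ω τ ∈ fail δ j} ≤ 1 / 2 := by
    rw [Measure.real]
    refine ENNReal.toReal_le_of_le_ofReal (by norm_num) h6
  have h8 : (Set.univ : Set Om) ⊆ {τ | mixP (Old j) ω τ ∉ SS_ b e δ m} ∪
      {τ | mixP (Old j) ω τ ∈ fail δ j} := by
    intro τ _
    by_cases h : mixP (Old j) ω τ ∈ SS_ b e δ m
    · exact Or.inr (ss_mem.1 h j hmj hst).2
    · exact Or.inl h
  have h9 := measureReal_mono (μ := coin) h8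
  have h10 := measureReal_union_le (μ := coin) {τ | mixP (Old j) ω τ ∉ SS_ b e δ m}
    {τ | mixP (Old j) ω τ ∈ fail δ j}
  have h11 : coin.real (Set.univ : Set Om) = 1 := probReal_univ
  have h12 : min ε (1 / 4) ≤ 1 / 4 := min_le_right _ _
  linarith

end IOG_

open IOG_

theorem p_IOG_of (hENT : Pool.Agent.RelU.T_ENT) (hDNS : T_DNS) (hSUC : T_SUC) : T_IOG := by
  intro b hPAQ e δ hδ
  have h1 : ∀ᵐ ω ∂coin, ∀ m : ℕ, ω ∉ SS_ b e δ m := by
    rw [ae_all_iff]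
    intro m
    rw [ae_iff]
    have h2 : {ω | ¬ ω ∉ SS_ b e δ m} = SS_ b e δ m := by
      ext ω
      simp
    rw [h2]
    exact ss_null hPAQ hENT hDNS hSUC e δ hδ m
  filter_upwards [h1] with ω hω hc m
  by_contra hno
  push Not at hno
  exact hω m (ss_mem.2 fun j hmj hst => ⟨hc j hst, hno j hmj hst⟩)

end Pool.Agent.RelK
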