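import Pool.Agent.RelK.ACC

/-!
# Acceptance as a function of the new key coins
-/

set_option autoImplicit false

namespace Pool.Agent.RelK

open MeasureTheory Set
open Pool.Agent.RelM (Lang str)
open Pool.Agent.RelO (lev st)
open Pool.Agent.RelS (Z Rl orcV orc acc Idx Om Dep mixP mixP_pos mixP_neg)
open Pool.Agent.RelB (ML qbs qf ee DD WW iot WW_lt WW_mid)
open Pool.Agent.RelU (NM key)
open Pool.Agent.RelY (ucode ms accw amb nn jj sv coin kk op NoKey bitsOf Pw Wd bl SS Hl Dj NK pr si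
  nnmono nnge jjspec jj_eq jj_le lev_len lev_pos key_ne kk_le op_le op_congr Wd_lt)

variable [Md]

namespace LKY_

/-- The coins of the new words. -/
theorem new_world {j κ : ℕ} {x : List Bool} (ω τ : Om)
    (h : nn j ≤ lev κ x ∧ lev κ x < nn (j + 1)) {y : List Bool} (hy : y.length = lev κ x) :
    zo (mixP (Old j) ω τ) κ x y = zo τ κ x y := by
  have hj : jj (lev κ x) = j + 1 := jj_eq h.1 h.2
  refine zo_congr ?_ ?_ ?_ ?_ hy
  · intro hx
    refine mixP_neg fun h1 => ?_
    have h2 : lev κ (x.dropLast ++ [false]) < nn j := h1.2.2.2.2.1 rfl rfl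
    have h3 : (x.dropLast ++ [false]).length = x.length := by
      have := List.length_pos_iff.2 hx
      simp
      omega
    rw [lev_len h3] at h2
    omega
  · intro _ hx i _
    refine mixP_neg fun h1 => ?_
    have h2 : lev κ x < nn j := h1.2.2.2.2.2.2.1 rfl (Nat.succ_ne_zero i) hx
    omega
  · intro _
    rw [hj]
    refine op_congr fun m _ => mixP_neg fun h1 => ?_
    have h2 : j + 1 ≤ j := h1.2.2.2.2.2.1 rfl (Nat.succ_ne_zero m) rfl
    omega
  · intro _ y' hy'
    refine mixP_neg fun h1 => ?_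
    have h2 : lev κ x < nn j := h1.2.2.2.2.2.2.2 (key_ne hy')
    omega

theorem world {j : ℕ} (ω τ : Om) (hτ : τ ∉ NK j) (κ : ℕ) (x y : List Bool)
    (h1 : lev κ x < nn (j + 1)) (hy : y.length = lev κ x) :
    zo (mixP (Old j) ω τ) κ x y = Wz j ω (Cw j τ (ck j τ)) κ x y := by
  unfold Wz
  by_cases h2 : lev κ x < nn j
  · rw [WW_lt h2]
    exact zo_old (fun a ha => mixP_pos ha) h2 hy
  · have h3 : nn j ≤ lev κ x ∧ lev κ x < nn (j + 1) := ⟨not_lt.1 h2, h1⟩
    rw [new_world ω τ h3 hy]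
    have h4 := WW_mid (z0 := zo ω) (z := Cw j τ (ck j τ)) ⟨(κ, x, y), h3.1, h3.2, hy⟩
    refine Eq.trans ?_ h4.symm
    have hN : ¬ NoKey τ κ x (op τ (j + 1)) := fun h5 =>
      hτ ⟨κ, x, op τ (j + 1), h3.1, h3.2, op_le τ (j + 1), h5⟩
    unfold zo Cw ck
    rw [jj_eq h3.1 h3.2, @decide_eq_false _ (Classical.propDecidable _) hN, Bool.or_false]
    rfl

end LKY_

open LKY_ in
theorem p_LKY : T_LKY := fun _ _ _ ω τ _ ht hv hτ y =>
  accw_stage ht (fun _ _ => rfl) (world ω τ hτ) hv y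

end Pool.Agent.RelK
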