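import Pool.Agent.RelK.Targets

/-!
# RelK, block LNK: the question `G0` in terms of configurations of unique keys
-/

set_option autoImplicit false

namespace Pool.Agent.RelK

open MeasureTheory Set
open scoped ENNReal
open Pool.Agent.RelM (Lang Instr Cfg step run Halts Decides E1 E2 NP pair triple binVal outVal
  Approx IsDensity str pre IsNullCover Null1 Null2 wq sq0 sq1 Asks hq code qb)
open Pool.Agent.RelO (lev IsGale IsGaleCover GaleNull1 GaleNull2 st)
open Pool.Agent.RelS (Z Rl orcV orc acc Idx Om bern bern_prob Dep mixP PF wt Upw)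
open Pool.Agent.RelB (ML qbs qf ee DD WW iot)
open Pool.Agent.RelT (Fast)
open Pool.Agent.RelU (NM NPco key cfg Cert Pu Thin)
open Pool.Agent.RelY (ucode ms accw amb nn jj sv coin kk op NoKey bitsOf Pw Wd bl SS Hl Dj NK pr si
  Tree)

variable [Md]

namespace LNK_

/-- The configuration of the coins `τ`. -/
noncomputable abbrev cf (j : ℕ) (τ : Om) : Nw j → Option (List Bool) :=
  cfg (ek j) (fun x => τ (x.1.1, x.1.2.dropLast, [], 0))
    (fun x (i : Fin (nn (j + 1))) => τ (x.1.1, x.1.2, [], i.1 + 1))

theorem ek_key (j : ℕ) (τ : Om) (p : Nw j) :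
    ek j p (fun i : Fin (nn (j + 1)) => τ (p.1.1, p.1.2, [], i.1 + 1)) =
      key τ p.1.1 p.1.2 := by
  unfold ek key
  apply List.map_congr_left
  intro i hi
  rw [List.mem_range] at hi
  have h1 : i < nn (j + 1) := lt_trans hi p.2.2.1
  rw [dif_pos h1]

theorem main (j : ℕ) (τ : Om) (d : Dj j) :
    Cw j τ (fun _ => false) d = cc j (cf j τ) d := by
  obtain ⟨⟨κ, x, y⟩, hd⟩ := d
  by_cases h : nn j ≤ lev κ x ∧ lev κ x < nn (j + 1) ∧ Md.ty κ = 0 ∧ x.getLast? = some true
  · have h3 : Md.ty κ = 0 := h.2.2.1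
    have h4 : x.getLast? = some true := h.2.2.2
    have hs : sgn τ κ x = τ (κ, x.dropLast, [], 0) := by
      unfold sgn
      rw [h4]
      simp [h3]
    have hR : cc j (cf j τ) ⟨(κ, x, y), hd⟩ = decide (cf j τ ⟨(κ, x), h⟩ = some y) := by
      unfold cc
      exact dif_pos h
    have hL : Cw j τ (fun _ => false) ⟨(κ, x, y), hd⟩ =
        (sgn τ κ x && decide (y = key τ κ x)) := by
      unfold Cw
      simp only [h3, if_true]
    rw [hR, hL, hs]
    have hk := ek_key j τ ⟨(κ, x), h⟩
    have hc : cf j τ ⟨(κ, x), h⟩ =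
        if τ (κ, x.dropLast, [], 0) = true then some (key τ κ x) else none := by
      unfold cf cfg
      rw [hk]
    rw [hc]
    cases τ (κ, x.dropLast, [], 0)
    · simp
    · simp [eq_comm]
  · have hR : cc j (cf j τ) ⟨(κ, x, y), hd⟩ = false := by
      unfold cc
      exact dif_neg h
    rw [hR]
    unfold Cw
    by_cases h3 : Md.ty κ = 0
    · have h4 : x.getLast? ≠ some true := fun h4 => h ⟨hd.1, hd.2.1, h3, h4⟩
      have hs : sgn τ κ x = false := by
        unfold sgn
        rcases hx : x.getLast? with _ | c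
        · rfl
        · cases c
          · simp [h3]
          · exact absurd hx h4
      show (sgn τ κ x && _) = false
      rw [hs]
      rfl
    · show (sgn τ κ x && (if Md.ty κ = 0 then _ else false)) = false
      rw [if_neg h3, Bool.and_false]

end LNK_

theorem p_LNK : T_LNK := by
  intro j t η ω τ v
  have h : Cw j τ (fun _ => false) = cc j (LNK_.cf j τ) := funext (LNK_.main j τ)
  unfold G0 Ac
  rw [h]
  rfl

end Pool.Agent.RelK
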