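import Pool.Agent.RelK.Targets
import Pool.Agent.RelK.ACC

/-!
# Unambiguous machines in a world without families of type 0
-/

set_option autoImplicit false

namespace Pool.Agent.RelK

open MeasureTheory Set
open scoped ENNReal
open Pool.Agent.RelM (Lang Instr Cfg run str)
open Pool.Agent.RelO (lev st)
open Pool.Agent.RelS (Z acc Idx Om Dep mixP)
open Pool.Agent.RelU (NM key)
open Pool.Agent.RelY (amb nn coin Wd Dj)

variable [Md]

namespace PQA_

/-- Without the type `0` no new word has a key in the world without keys. -/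
theorem Cw_false (h : ∀ κ, Md.ty κ ≠ 0) (j : ℕ) (τ : Om) :
    Cw j τ (fun _ => false) = fun _ => false := by
  funext d
  unfold Cw
  rw [if_neg (h _), Bool.and_false]

omit [Md] in
theorem bound {γ : ℝ} (hγ : 0 < γ) {j : ℕ} (hj : 64 / γ ^ 2 + 8 / γ ≤ (j : ℝ)) :
    γ / 4 + 2 / (γ / 4) * (γ ^ 2 / 32 + 2 * (1 / ((j : ℝ) + 1))) + 2 * (1 / ((j : ℝ) + 1)) ≤ γ := by
  have h0 : 0 < 64 / γ ^ 2 := by positivity
  have h1 : 0 < 8 / γ := by positivity
  have hj0 : 0 < (j : ℝ) + 1 := by linarith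
  have h2 : 1 / ((j : ℝ) + 1) ≤ γ ^ 2 / 64 := by
    rw [div_le_iff₀ hj0]
    have h3 : γ ^ 2 / 64 * (64 / γ ^ 2) = 1 := by field_simp
    have h4 : γ ^ 2 / 64 * (64 / γ ^ 2) ≤ γ ^ 2 / 64 * ((j : ℝ) + 1) := by
      apply mul_le_mul_of_nonneg_left _ (by positivity)
      linarith
    linarith
  have h5 : 1 / ((j : ℝ) + 1) ≤ γ / 8 := by
    rw [div_le_iff₀ hj0]
    have h3 : γ / 8 * (8 / γ) = 1 := by field_simp
    have h4 : γ / 8 * (8 / γ) ≤ γ / 8 * ((j : ℝ) + 1) := by
      apply mul_le_mul_of_nonneg_left _ (by positivity)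
      linarith
    linarith
  have h6 : 2 / (γ / 4) * (γ ^ 2 / 32 + 2 * (1 / ((j : ℝ) + 1))) ≤
      2 / (γ / 4) * (γ ^ 2 / 32 + 2 * (γ ^ 2 / 64)) := by
    apply mul_le_mul_of_nonneg_left _ (by positivity)
    linarith
  have h7 : 2 / (γ / 4) * (γ ^ 2 / 32 + 2 * (γ ^ 2 / 64)) = γ / 2 := by
    field_simp
    ring
  linarith

end PQA_

open PQA_ in
theorem p_PQA_of (hDIC : T_DIC) : T_PQA := by
  intro hty γ hγ
  obtain ⟨J, hJ⟩ := exists_nat_ge (64 / γ ^ 2 + 8 / γ)
  refine ⟨γ ^ 2 / 32, by positivity, J, ?_⟩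
  intro j hj t η ω ht hε
  have hb := hDIC j t η ω (pc (st j)).1 (γ / 4) (γ ^ 2 / 32) ht (vs_one j) (by positivity) (by
    refine le_trans (le_of_eq ?_) hε
    congr 1)
  have hβ := hb.trans (bound hγ (hJ.trans (by exact_mod_cast hj)))
  have p0 : 0 ≤ pa j η ω t := measureReal_nonneg
  have p1 : pa j η ω t ≤ 1 := measureReal_le_one
  by_cases hg : ∃ y, Aw j η ω (pc (st j)).1 t y (fun _ => false)
  · have h1 : {τ : Om | acc (oh η (mixP (Old j) ω τ)) (pc (st j)).1 (str t) ↔
        ¬ G0 j η ω τ (pc (st j)).1 t} = {τ | ans j η (mixP (Old j) ω τ) t}ᶜ := by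
      ext τ
      have h2 : G0 j η ω τ (pc (st j)).1 t := by
        unfold G0
        rw [Cw_false hty]
        exact hg
      constructor
      · intro h3 h4
        exact h3.1 h4 h2
      · intro h3
        exact ⟨fun h4 => absurd h4 h3, fun h4 => absurd h2 h4⟩
    rw [h1] at hβ
    have h3 : (1 : ℝ) ≤ coin.real {τ | ans j η (mixP (Old j) ω τ) t} +
        coin.real {τ | ans j η (mixP (Old j) ω τ) t}ᶜ := by
      have h4 := measureReal_union_le (μ := coin) {τ | ans j η (mixP (Old j) ω τ) t}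
        {τ | ans j η (mixP (Old j) ω τ) t}ᶜ
      rw [Set.union_compl_self, probReal_univ] at h4
      exact h4
    have h5 : 1 - pa j η ω t ≤ γ := by
      unfold pa
      linarith
    nlinarith
  · have h1 : {τ : Om | acc (oh η (mixP (Old j) ω τ)) (pc (st j)).1 (str t) ↔
        ¬ G0 j η ω τ (pc (st j)).1 t} = {τ | ans j η (mixP (Old j) ω τ) t} := by
      ext τ
      have h2 : ¬ G0 j η ω τ (pc (st j)).1 t := by
        unfold G0
        rw [Cw_false hty]
        exact hg
      constructor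
      · intro h3
        exact h3.2 h2
      · intro h3
        exact ⟨fun _ => h2, fun _ => h3⟩
    rw [h1] at hβ
    have h5 : pa j η ω t ≤ γ := hβ
    nlinarith

end Pool.Agent.RelK
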