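import Pool.Agent.RelK.Targets
import Pool.Agent.RelK.NN
import Pool.Agent.RelK.ACC
import Pool.Agent.RelY.P_PAQ

/-!
# PQB: complementary machines in the world of type `2`
-/

set_option autoImplicit false

namespace Pool.Agent.RelK

open MeasureTheory Set
open scoped ENNReal
open Pool.Agent.RelM (Lang Instr Cfg step run Halts Decides E1 E2 NP pair triple binVal outVal
  Approx IsDensity str pre IsNullCover Null1 Null2 wq sq0 sq1 Asks hq code qb)
open Pool.Agent.RelO (lev IsGale IsGaleCover GaleNull1 GaleNull2 st)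
open Pool.Agent.RelS (Z Rl orcV orc acc Idx Om bern bern_prob Dep mixP PF wt Upw meas_of_dep
  PF_nonneg PF_le_one PF_mono PF_univ)
open Pool.Agent.RelB (ML qbs qf ee DD WW iot)
open Pool.Agent.RelT (Fast)
open Pool.Agent.RelU (NM NPco key cfg Cert Pu Thin)
open Pool.Agent.RelY (ucode ms accw amb nn jj sv coin kk op NoKey bitsOf Pw Wd bl SS Hl Dj NK pr si
  Tree)
open Pool.Agent.RelY.PAQ_ (pr_nonneg pr_sum rho_q si0 si1)

variable [Md]

namespace PQB_

/-! ### sets -/

/-- Some witness is accepted. -/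
def AS (j : ℕ) (η : ℕ → ℕ → ℝ) (ω : Om) (v : NM) (t : ℕ) (τ : Om) : Set (Dj j → Bool) :=
  {w | ∃ y, Aw j η ω v t y (Cw j τ w)}

/-- The configurations above an accepted one. -/
def US (j : ℕ) (η : ℕ → ℕ → ℝ) (ω : Om) (v : NM) (t : ℕ) (τ : Om) : Set (Dj j → Bool) :=
  {w | Cw j τ w ∈ U0 j η ω v t}

/-- The machines give the same answer. -/
def QS (j : ℕ) (η : ℕ → ℕ → ℝ) (ω : Om) (v v' : NM) (t : ℕ) (τ : Om) : Set (Dj j → Bool) :=
  {w | (∃ y, Aw j η ω v t y (Cw j τ w)) ↔ ∃ y, Aw j η ω v' t y (Cw j τ w)}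

theorem Cw_congr {j : ℕ} {τ τ' : Om} (h : ∀ a ∈ Old (j + 1), Fst a → τ a = τ' a)
    (w : Dj j → Bool) : Cw j τ w = Cw j τ' w := by
  funext d
  unfold Cw
  have hl : lev d.1.1 d.1.2.1 < nn (j + 1) := d.2.2.1
  rcases eq_or_ne d.1.2.1 [] with hx | hx
  · rw [hx, sgn_nil, sgn_nil, Bool.false_and, Bool.false_and]
  · rw [sgn_congr' (ω := τ) (ω' := τ') (κ := d.1.1) (x := d.1.2.1)
        (fun hx => h _ (old_sgn hx hl) ⟨rfl, Or.inl rfl⟩),
      key_congr (ω := τ) (ω' := τ') (κ := d.1.1) (x := d.1.2.1)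
        (fun i hi => h _ (old_kb hx hl hi) ⟨rfl, Or.inr hx⟩)]

theorem AS_congr {j : ℕ} {η : ℕ → ℕ → ℝ} {ω : Om} {v : NM} {t : ℕ} {τ τ' : Om}
    (h : ∀ a ∈ Old (j + 1), Fst a → τ a = τ' a) : AS j η ω v t τ = AS j η ω v t τ' := by
  unfold AS
  simp only [Cw_congr h]

theorem US_congr {j : ℕ} {η : ℕ → ℕ → ℝ} {ω : Om} {v : NM} {t : ℕ} {τ τ' : Om}
    (h : ∀ a ∈ Old (j + 1), Fst a → τ a = τ' a) : US j η ω v t τ = US j η ω v t τ' := by
  unfold US
  simp only [Cw_congr h]

theorem QS_congr {j : ℕ} {η : ℕ → ℕ → ℝ} {ω : Om} {v v' : NM} {t : ℕ} {τ τ' : Om}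
    (h : ∀ a ∈ Old (j + 1), Fst a → τ a = τ' a) :
    QS j η ω v v' t τ = QS j η ω v v' t τ' := by
  unfold QS
  simp only [Cw_congr h]

/-! ### probabilities -/

omit [Md] in
theorem PF_union {D : Type} [Fintype D] {q : D → ℝ} (h0 : ∀ d, 0 ≤ q d) (h1 : ∀ d, q d ≤ 1)
    (A B : Set (D → Bool)) : PF q (A ∪ B) ≤ PF q A + PF q B := by
  classical
  unfold PF
  rw [← Finset.sum_add_distrib]
  refine Finset.sum_le_sum fun V _ => ?_
  have hw := Pool.Agent.RelS.wt_nonneg h0 h1 V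
  by_cases hA : V ∈ A <;> by_cases hB : V ∈ B <;> (simp [hA, hB]; try linarith)

theorem PF_int {j : ℕ} (i : ℕ) {S : Om → Set (Dj j → Bool)}
    (hS : ∀ τ τ' : Om, (∀ a ∈ Old (j + 1), Fst a → τ a = τ' a) → S τ = S τ') :
    Integrable (fun τ => PF (si j i) (S τ)) coin := by
  have hm : Measurable (fun τ => PF (si j i) (S τ)) := by
    refine meas_of_dep (oldfin (j + 1)) fun τ τ' h => ?_
    rw [hS τ τ' fun a ha _ => h a ha]
  refine Integrable.of_bound hm.aestronglyMeasurable 1 (Filter.Eventually.of_forall fun τ => ?_)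
  rw [Real.norm_eq_abs, abs_of_nonneg (PF_nonneg (si0 j i) (si1 j i) _)]
  exact PF_le_one (si0 j i) (si1 j i) _

theorem int_range {j : ℕ} (i : ℕ) {S : Om → Set (Dj j → Bool)}
    (hS : ∀ τ τ' : Om, (∀ a ∈ Old (j + 1), Fst a → τ a = τ' a) → S τ = S τ') :
    0 ≤ ∫ τ, PF (si j i) (S τ) ∂coin ∧ ∫ τ, PF (si j i) (S τ) ∂coin ≤ 1 := by
  constructor
  · exact integral_nonneg fun τ => PF_nonneg (si0 j i) (si1 j i) _
  · have h := integral_mono (PF_int i hS) (integrable_const (1 : ℝ))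
      (fun τ => PF_le_one (si0 j i) (si1 j i) (S τ))
    simpa using h

/-- The mean over the options. -/
theorem avg_eq (hAVG : T_AVG) {j : ℕ} {S : Om → Set (Dj j → Bool)}
    (hS : ∀ τ τ' : Om, (∀ a ∈ Old (j + 1), Fst a → τ a = τ' a) → S τ = S τ') :
    coin.real {τ | ck j τ ∈ S τ} =
      ∑ i ∈ Finset.range (kk (j + 1) + 1), pr (j + 1) i * ∫ τ, PF (si j i) (S τ) ∂coin := by
  rw [hAVG j S hS, integral_finsetSum]
  · exact Finset.sum_congr rfl fun i _ => integral_const_mul _ _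
  · intro i _
    exact (PF_int i hS).const_mul _

omit [Md] in
theorem pr_zero (v : ℕ) : 1 / 2 ≤ pr v 0 := by
  unfold pr
  split_ifs with h
  · norm_num
  · have h1 : kk v = 0 := by omega
    rw [h1]
    norm_num

end PQB_

open PQB_ in
theorem p_PQB_of (hUPW : T_UPW) (hSEQ : T_SEQ) (hAVG : T_AVG) (hLKY : T_LKY)
    (hNKB : Pool.Agent.RelY.T_NKB) : T_PQB := by
  intro hty γ hγ
  refine ⟨γ / 22, by positivity, ⌈70 / γ⌉₊, ?_⟩
  intro j hj t η ω ht hε
  set ν : ℝ := 1 / ((j : ℝ) + 1) with hν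
  have hν0 : 0 ≤ ν := by positivity
  have hν35 : 35 * ν ≤ γ / 2 := by
    have h1 : 70 / γ ≤ (j : ℝ) := (Nat.le_ceil _).trans (by exact_mod_cast hj)
    rw [div_le_iff₀ hγ] at h1
    rw [hν, mul_one_div, div_le_iff₀ (by positivity)]
    nlinarith
  set v : NM := (pc (st j)).1 with hvdef
  set v' : NM := (pc (st j)).2 with hvdef'
  have hv : v ∈ vs j := vs_one j
  have hv' : v' ∈ vs j := vs_two j
  obtain ⟨u1, u2, u3⟩ := hUPW hty j t η ω v v' ht hv hv'
  obtain ⟨u1', -, u3'⟩ := hUPW hty j t η ω v' v ht hv' hv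
  set r : ℝ := 2 * ((qbs (ms j) (str t).length : ℝ) * (1 / 2) ^ (nn j / 2)) with hr
  have hrν : r ≤ ν := rho_q ht
  have hr0 : 0 ≤ r := by positivity
  have hN := hNKB j
  rw [← hν] at hN
  -- events
  set SA : Set Om := {τ | ck j τ ∈ AS j η ω v t τ} with hSA
  set SQ : Set Om := {τ | ck j τ ∈ QS j η ω v v' t τ} with hSQ
  have k1 : ∀ τ, τ ∉ NK j → (ans j η (mixP (Old j) ω τ) t ↔ τ ∈ SA) := fun τ h =>
    exists_congr fun y => hLKY j t η ω τ v ht hv h y
  have k2 : ∀ τ, τ ∉ NK j → (acc (oh η (mixP (Old j) ω τ)) v' (str t) ↔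
      ∃ y, Aw j η ω v' t y (Cw j τ (ck j τ))) := fun τ h =>
    exists_congr fun y => hLKY j t η ω τ v' ht hv' h y
  have a1 : {τ | ans j η (mixP (Old j) ω τ) t} ⊆ SA ∪ NK j := by
    intro τ hτ
    by_cases h : τ ∈ NK j
    · exact Or.inr h
    · exact Or.inl ((k1 τ h).1 hτ)
  have a2 : SA ⊆ {τ | ans j η (mixP (Old j) ω τ) t} ∪ NK j := by
    intro τ hτ
    by_cases h : τ ∈ NK j
    · exact Or.inr h
    · exact Or.inl ((k1 τ h).2 hτ)
  have a3 : SQ ⊆ {τ | ans2 1 j η (mixP (Old j) ω τ) t} ∪ NK j := by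
    intro τ hτ
    by_cases h : τ ∈ NK j
    · exact Or.inr h
    · refine Or.inl ?_
      show ans2 1 j η (mixP (Old j) ω τ) t
      unfold ans2 bad
      rw [if_neg one_ne_zero, if_pos rfl]
      exact (k1 τ h).trans (Iff.trans hτ (k2 τ h).symm)
  have b1 : pa j η ω t ≤ coin.real SA + ν :=
    ((measureReal_mono a1).trans (measureReal_union_le _ _)).trans (by linarith)
  have b2 : coin.real SA ≤ pa j η ω t + ν :=
    ((measureReal_mono a2).trans (measureReal_union_le _ _)).trans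
      (by show pa j η ω t + _ ≤ _; linarith)
  have b3 : coin.real SQ ≤ γ / 22 + ν :=
    ((measureReal_mono a3).trans (measureReal_union_le _ _)).trans (by linarith)
  have p0 : 0 ≤ pa j η ω t := measureReal_nonneg
  have p1 : pa j η ω t ≤ 1 := measureReal_le_one
  have cA := avg_eq hAVG (j := j) (S := AS j η ω v t) fun _ _ h => AS_congr h
  have cQ := avg_eq hAVG (j := j) (S := QS j η ω v v' t) fun _ _ h => QS_congr h
  rw [← hSA] at cA
  rw [← hSQ] at cQ
  -- the sequences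
  set a : ℕ → ℝ := fun i => ∫ τ, PF (si j i) (US j η ω v t τ) ∂coin with ha
  set b : ℕ → ℝ := fun i => ∫ τ, PF (si j i) (US j η ω v' t τ) ∂coin with hb
  set c : ℕ → ℝ := fun i => ∫ τ, PF (si j i) (QS j η ω v v' t τ) ∂coin with hc
  have ia : ∀ i, Integrable (fun τ => PF (si j i) (US j η ω v t τ)) coin := fun i =>
    PF_int i fun _ _ h => US_congr h
  have ib : ∀ i, Integrable (fun τ => PF (si j i) (US j η ω v' t τ)) coin := fun i =>
    PF_int i fun _ _ h => US_congr h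
  have ic : ∀ i, Integrable (fun τ => PF (si j i) (QS j η ω v v' t τ)) coin := fun i =>
    PF_int i fun _ _ h => QS_congr h
  have iA : ∀ i, Integrable (fun τ => PF (si j i) (AS j η ω v t τ)) coin := fun i =>
    PF_int i fun _ _ h => AS_congr h
  have s1 : ∀ i ≤ kk (j + 1), a i * b i ≤ c i + 2 * r := by
    intro i hi
    refine (u2 i hi).trans ?_
    have h1 : ∀ τ, PF (si j i) {w | Cw j τ w ∈ U0 j η ω v t ∧ Cw j τ w ∈ U0 j η ω v' t} ≤
        PF (si j i) (QS j η ω v v' t τ) + 2 * r := by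
      intro τ
      have h2 : {w | Cw j τ w ∈ U0 j η ω v t ∧ Cw j τ w ∈ U0 j η ω v' t} ⊆
          QS j η ω v v' t τ ∪
            ({w | Cw j τ w ∈ U0 j η ω v t ∧ ¬ ∃ y, Aw j η ω v t y (Cw j τ w)} ∪
              {w | Cw j τ w ∈ U0 j η ω v' t ∧ ¬ ∃ y, Aw j η ω v' t y (Cw j τ w)}) := by
        rintro w ⟨h3, h4⟩
        by_cases h5 : ∃ y, Aw j η ω v t y (Cw j τ w)
        · by_cases h6 : ∃ y, Aw j η ω v' t y (Cw j τ w)
          · exact Or.inl ⟨fun _ => h6, fun _ => h5⟩
          · exact Or.inr (Or.inr ⟨h4, h6⟩)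
        · exact Or.inr (Or.inl ⟨h3, h5⟩)
      have h3 := PF_mono (si0 j i) (si1 j i) h2
      have h4 := PF_union (si0 j i) (si1 j i) (QS j η ω v v' t τ)
        ({w | Cw j τ w ∈ U0 j η ω v t ∧ ¬ ∃ y, Aw j η ω v t y (Cw j τ w)} ∪
          {w | Cw j τ w ∈ U0 j η ω v' t ∧ ¬ ∃ y, Aw j η ω v' t y (Cw j τ w)})
      have h5 := PF_union (si0 j i) (si1 j i)
        {w | Cw j τ w ∈ U0 j η ω v t ∧ ¬ ∃ y, Aw j η ω v t y (Cw j τ w)}
        {w | Cw j τ w ∈ U0 j η ω v' t ∧ ¬ ∃ y, Aw j η ω v' t y (Cw j τ w)}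
      have h6 := u1 τ i hi
      have h7 := u1' τ i hi
      linarith
    have h2 : Integrable (fun τ => PF (si j i)
        {w | Cw j τ w ∈ U0 j η ω v t ∧ Cw j τ w ∈ U0 j η ω v' t}) coin := by
      refine PF_int (S := fun τ => {w | Cw j τ w ∈ U0 j η ω v t ∧ Cw j τ w ∈ U0 j η ω v' t}) i
        fun τ τ' h => ?_
      simp only [Cw_congr h]
    have h3 := integral_mono h2 ((ic i).add (integrable_const (2 * r))) h1
    have h4 : ∫ τ, (PF (si j i) (QS j η ω v v' t τ) + 2 * r) ∂coin = c i + 2 * r := by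
      rw [integral_add (ic i) (integrable_const _)]
      simp [hc]
    exact h3.trans h4.le
  have s2 : ∀ i ≤ kk (j + 1), 1 - a i - b i ≤ c i + 2 * r := by
    intro i _
    have h1 : ∀ τ, 1 ≤ PF (si j i) (US j η ω v t τ) + (PF (si j i) (US j η ω v' t τ) +
        PF (si j i) (QS j η ω v v' t τ)) := by
      intro τ
      have h2 : (Set.univ : Set (Dj j → Bool)) ⊆
          US j η ω v t τ ∪ (US j η ω v' t τ ∪ QS j η ω v v' t τ) := by
        intro w _
        by_cases h3 : w ∈ US j η ω v t τ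
        · exact Or.inl h3
        · by_cases h4 : w ∈ US j η ω v' t τ
          · exact Or.inr (Or.inl h4)
          · refine Or.inr (Or.inr ⟨fun h5 => absurd (Upw.of h5) h3,
              fun h5 => absurd (Upw.of h5) h4⟩)
      have h3 := PF_mono (si0 j i) (si1 j i) h2
      rw [PF_univ] at h3
      have h4 := PF_union (si0 j i) (si1 j i) (US j η ω v t τ)
        (US j η ω v' t τ ∪ QS j η ω v v' t τ)
      have h5 := PF_union (si0 j i) (si1 j i) (US j η ω v' t τ) (QS j η ω v v' t τ)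
      linarith
    have h2 := integral_mono (integrable_const (1 : ℝ)) ((ia i).add ((ib i).add (ic i))) h1
    have h3 : ∫ τ, (PF (si j i) (US j η ω v t τ) + (PF (si j i) (US j η ω v' t τ) +
        PF (si j i) (QS j η ω v v' t τ))) ∂coin = a i + (b i + c i) := by
      have e1 := integral_add (ia i) ((ib i).add (ic i))
      have e2 := integral_add (ib i) (ic i)
      exact e1.trans (congrArg (fun x => a i + x) e2)
    have h4 : (1 : ℝ) ≤ a i + (b i + c i) := by
      rw [← h3]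
      simpa using h2
    linarith
  have s3 : ∑ i ∈ Finset.range (kk (j + 1) + 1), pr (j + 1) i * (c i + 2 * r) ≤
      γ / 22 + 3 * ν := by
    have h1 : ∑ i ∈ Finset.range (kk (j + 1) + 1), pr (j + 1) i * (c i + 2 * r) =
        coin.real SQ + 2 * r := by
      rw [cQ]
      simp only [mul_add]
      rw [Finset.sum_add_distrib, ← Finset.sum_mul, pr_sum, one_mul]
    rw [h1]
    linarith
  have s4 := hSEQ (kk (j + 1)) (pr (j + 1)) a b (fun i => c i + 2 * r) (γ / 22 + 3 * ν)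
    (pr_nonneg (j + 1)) (pr_zero (j + 1)) (pr_sum (j + 1))
    (fun i => int_range i fun _ _ h => US_congr h)
    (fun i => int_range i fun _ _ h => US_congr h) s1 s2 u3 u3' s3
  -- comparison
  set p : ℝ := ∑ i ∈ Finset.range (kk (j + 1) + 1), pr (j + 1) i * a i with hp
  have d1 : coin.real SA ≤ p := by
    rw [cA, hp]
    refine Finset.sum_le_sum fun i _ => mul_le_mul_of_nonneg_left ?_ (pr_nonneg _ _)
    refine integral_mono (iA i) (ia i) fun τ => PF_mono (si0 j i) (si1 j i) ?_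
    intro w hw
    exact Upw.of hw
  have d2 : p ≤ coin.real SA + r := by
    have h1 : ∀ i ∈ Finset.range (kk (j + 1) + 1), pr (j + 1) i * a i ≤
        pr (j + 1) i * (∫ τ, PF (si j i) (AS j η ω v t τ) ∂coin + r) := by
      intro i hi
      rw [Finset.mem_range] at hi
      refine mul_le_mul_of_nonneg_left ?_ (pr_nonneg _ _)
      have h2 : ∀ τ, PF (si j i) (US j η ω v t τ) ≤ PF (si j i) (AS j η ω v t τ) + r := by
        intro τ
        have h3 : US j η ω v t τ ⊆ AS j η ω v t τ ∪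
            {w | Cw j τ w ∈ U0 j η ω v t ∧ ¬ ∃ y, Aw j η ω v t y (Cw j τ w)} := by
          intro w hw
          by_cases h4 : ∃ y, Aw j η ω v t y (Cw j τ w)
          · exact Or.inl h4
          · exact Or.inr ⟨hw, h4⟩
        have h4 := PF_mono (si0 j i) (si1 j i) h3
        have h5 := PF_union (si0 j i) (si1 j i) (AS j η ω v t τ)
          {w | Cw j τ w ∈ U0 j η ω v t ∧ ¬ ∃ y, Aw j η ω v t y (Cw j τ w)}
        have h6 := u1 τ i (by omega)
        linarith
      have h3 := integral_mono (ia i) ((iA i).add (integrable_const r)) h2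
      have h4 : ∫ τ, (PF (si j i) (AS j η ω v t τ) + r) ∂coin =
          ∫ τ, PF (si j i) (AS j η ω v t τ) ∂coin + r := by
        rw [integral_add (iA i) (integrable_const _)]
        simp
      exact h3.trans h4.le
    have h2 := Finset.sum_le_sum h1
    simp only [mul_add] at h2
    rw [Finset.sum_add_distrib, ← Finset.sum_mul, pr_sum, one_mul, ← cA] at h2
    exact h2
  have e0 : 0 ≤ p := measureReal_nonneg.trans d1
  have e1 : p ≤ 1 := by
    rw [hp, ← pr_sum (j + 1)]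
    refine Finset.sum_le_sum fun i _ => ?_
    have := mul_le_mul_of_nonneg_left
      (int_range (j := j) i (S := US j η ω v t) fun _ _ h => US_congr h).2
      (pr_nonneg (j + 1) i)
    rwa [mul_one] at this
  have f1 : pa j η ω t - p ≤ 2 * ν := by linarith
  have f2 : p - pa j η ω t ≤ 2 * ν := by linarith
  have f3 : pa j η ω t * (1 - pa j η ω t) ≤ p * (1 - p) + 2 * ν := by
    have g1 : pa j η ω t * (1 - pa j η ω t) - p * (1 - p) =
        (pa j η ω t - p) * (1 - pa j η ω t - p) := by ring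
    have g2 : (pa j η ω t - p) * (1 - pa j η ω t - p) ≤ 2 * ν := by
      have h1 : |(pa j η ω t - p) * (1 - pa j η ω t - p)| ≤ 2 * ν * 1 := by
        rw [abs_mul]
        refine mul_le_mul (abs_le.2 ⟨by linarith, f1⟩) (abs_le.2 ⟨by linarith, by linarith⟩)
          (abs_nonneg _) (by linarith)
      linarith [le_abs_self ((pa j η ω t - p) * (1 - pa j η ω t - p))]
    linarith
  have f4 : p * (1 - p) ≤ 11 * (γ / 22 + 3 * ν) := s4
  linarith

end Pool.Agent.RelK
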