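import Pool.Agent.RelK.Targets
import Pool.Agent.RelK.ACC

/-!
# Target PQC: unambiguous and complementary machines

The probability of acceptance is near to `0` or `1` for two unambiguous and complementary machines.
-/

set_option autoImplicit false

namespace Pool.Agent.RelK

open MeasureTheory Set
open scoped ENNReal
open Pool.Agent.RelM (Lang Instr Cfg step run Halts Decides E1 E2 NP pair triple binVal outVal
  Approx IsDensity str pre IsNullCover Null1 Null2 wq sq0 sq1 Asks hq code qb)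
open Pool.Agent.RelO (lev IsGale IsGaleCover GaleNull1 GaleNull2 st)
open Pool.Agent.RelS (Z Rl orcV orc acc Idx Om bern bern_prob Dep mixP PF wt Upw)
open Pool.Agent.RelB (ML qbs qf ee DD WW iot)
open Pool.Agent.RelT (Fast)
open Pool.Agent.RelU (NM NPco key cfg Cert Pu Thin)
open Pool.Agent.RelY (ucode ms accw amb nn jj sv coin kk op NoKey bitsOf Pw Wd bl SS Hl Dj NK pr si
  Tree qb_small)

variable [Md]

namespace PQC_

/-- the coins of the new words of type `0` -/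
def ff (j : ℕ) : Nw j ⊕ Nw j × Fin (nn (j + 1)) → Idx
  | Sum.inl x => (x.1.1, x.1.2.dropLast, [], 0)
  | Sum.inr p => (p.1.1.1, p.1.1.2, [], p.2.1 + 1)

omit [Md] in
theorem ext_last {x y : List Bool} (hx : x.getLast? = some true) (hy : y.getLast? = some true)
    (h : x.dropLast = y.dropLast) : x = y := by
  have hx' : x ≠ [] := by
    rintro rfl
    simp at hx
  have hy' : y ≠ [] := by
    rintro rfl
    simp at hy
  have h1 := List.dropLast_append_getLast? true (by rw [hx]; rfl : true ∈ x.getLast?)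
  have h2 := List.dropLast_append_getLast? true (by rw [hy]; rfl : true ∈ y.getLast?)
  rw [← h1, ← h2, h]

theorem ff_inj (j : ℕ) : Function.Injective (ff j) := by
  rintro (x | ⟨x, i⟩) (y | ⟨y, k⟩) h
  · simp only [ff, Prod.mk.injEq, and_true] at h
    obtain ⟨h1, h2⟩ := h
    have h3 := ext_last x.2.2.2.2 y.2.2.2.2 h2
    have h4 : x = y := Subtype.ext (Prod.ext h1 h3)
    rw [h4]
  · simp [ff] at h
  · simp [ff] at h
  · simp only [ff, Prod.mk.injEq, true_and, Nat.add_right_cancel_iff] at h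
    obtain ⟨h1, h2, h3⟩ := h
    have h4 : x = y := Subtype.ext (Prod.ext h1 h2)
    have h5 : i = k := Fin.ext h3
    rw [h4, h5]

theorem ff_nil (j : ℕ) (x : Nw j ⊕ Nw j × Fin (nn (j + 1))) : (ff j x).2.2.1 = [] := by
  rcases x with x | ⟨x, i⟩
  · rfl
  · rfl

/-- the pair of the coins of the new words -/
noncomputable def pq (j : ℕ) (τ : Om) : (Nw j → Bool) × (Nw j → KK j) :=
  (fun x => τ (x.1.1, x.1.2.dropLast, [], 0),
    fun x (i : Fin (nn (j + 1))) => τ (x.1.1, x.1.2, [], i.1 + 1))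

/-- the law of the coins of the new words -/
theorem law (hUNF : T_UNF) (j : ℕ) (S : Set ((Nw j → Bool) × (Nw j → KK j))) :
    coin.real {τ | pq j τ ∈ S} = Pu S :=
  hUNF (Nw j) (nn (j + 1)) (ff j) (ff_inj j) (ff_nil j) S

omit [Md] in
theorem real_le_add {A B C : Set Om} (h : A ⊆ B ∪ C) :
    coin.real A ≤ coin.real B + coin.real C :=
  (measureReal_mono h).trans (measureReal_union_le _ _)

omit [Md] in
theorem calc_lip {a p β r : ℝ} (ha0 : 0 ≤ a) (ha1 : a ≤ 1) (hp0 : 0 ≤ p) (hp1 : p ≤ 1)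
    (h1 : a ≤ p + β) (h2 : p ≤ a + β) (h3 : p * (1 - p) ≤ r) : a * (1 - a) ≤ r + β := by
  have h4 : a * (1 - a) - p * (1 - p) = (a - p) * (1 - a - p) := by ring
  have h5 : |(a - p) * (1 - a - p)| ≤ β * 1 := by
    rw [abs_mul]
    refine mul_le_mul ?_ ?_ (abs_nonneg _) ?_
    · rw [abs_le]
      constructor <;> linarith
    · rw [abs_le]
      constructor <;> linarith
    · linarith
  have h6 := (abs_le.1 h5).2
  linarith

omit [Md] in
/-- the constants -/
theorem consts {γ : ℝ} (hγ : 0 < γ) : ∃ θ ε : ℝ, 0 < θ ∧ 0 < ε ∧ ∃ J : ℕ, ∀ j : ℕ, J ≤ j →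
    4 * (ε + 2 * (θ + 2 / θ * (ε + 2 * (1 / ((j : ℝ) + 1))) + 2 * (1 / ((j : ℝ) + 1)))) +
      9 * (1 / ((j : ℝ) + 1)) +
      (θ + 2 / θ * (ε + 2 * (1 / ((j : ℝ) + 1))) + 2 * (1 / ((j : ℝ) + 1))) ≤ γ := by
  have hθ : 0 < γ / 36 := by positivity
  obtain ⟨θ, hθd⟩ : ∃ θ : ℝ, θ = γ / 36 := ⟨_, rfl⟩
  rw [← hθd] at hθ
  have hA : 0 < 4 + 18 / θ := by positivity
  have hB : 0 < 36 / θ + 27 := by positivity
  obtain ⟨J, hJ⟩ := exists_nat_gt (4 * (36 / θ + 27) / γ)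
  refine ⟨θ, γ / (4 * (4 + 18 / θ)), hθ, by positivity, J, fun j hj => ?_⟩
  obtain ⟨ε, hε⟩ : ∃ ε : ℝ, ε = γ / (4 * (4 + 18 / θ)) := ⟨_, rfl⟩
  obtain ⟨u, hu⟩ : ∃ u : ℝ, u = 1 / ((j : ℝ) + 1) := ⟨_, rfl⟩
  rw [← hε, ← hu]
  have h1 : (4 + 18 / θ) * ε = γ / 4 := by
    rw [hε]
    field_simp
  have h2 : (36 / θ + 27) * u ≤ γ / 4 := by
    have hj' : (J : ℝ) ≤ j := by exact_mod_cast hj
    have h3 : 4 * (36 / θ + 27) / γ ≤ (j : ℝ) + 1 := by linarith
    rw [div_le_iff₀ hγ] at h3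
    rw [hu, mul_one_div, div_le_div_iff₀ (by positivity) (by norm_num)]
    linarith
  have h4 : 4 * (ε + 2 * (θ + 2 / θ * (ε + 2 * u) + 2 * u)) + 9 * u +
      (θ + 2 / θ * (ε + 2 * u) + 2 * u) = (4 + 18 / θ) * ε + (36 / θ + 27) * u + 9 * θ := by
    ring
  rw [h4, h1]
  have h5 : 9 * θ = γ / 4 := by rw [hθd]; ring
  rw [h5]
  linarith

end PQC_

open PQC_ in
theorem p_PQC_of (hDIC : T_DIC) (hNC : Pool.Agent.RelU.T_NC) (hTHC : T_THC) (hLNK : T_LNK)
    (hUNF : T_UNF) : T_PQC := by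
  intro γ hγ
  obtain ⟨θ, ε, hθ, hε, J, hJ⟩ := consts hγ
  refine ⟨ε, hε, J, fun j hj t η ω ht hbad => ?_⟩
  have hfin := hJ j hj
  obtain ⟨β, hβ⟩ : ∃ β : ℝ, β = θ + 2 / θ * (ε + 2 * (1 / ((j : ℝ) + 1))) +
      2 * (1 / ((j : ℝ) + 1)) := ⟨_, rfl⟩
  rw [← hβ] at hfin
  -- the three parts of the hypothesis
  have hb0 : coin.real {τ | acc (oh η (mixP (Old j) ω τ)) (pc (st j)).1 (str t) ↔
      acc (oh η (mixP (Old j) ω τ)) (pc (st j)).2 (str t)} ≤ ε := by
    refine le_trans (measureReal_mono ?_) hbad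
    intro τ hτ
    exact Or.inl hτ
  have hb1 : coin.real {τ | amb (oh η (mixP (Old j) ω τ)) (pc (st j)).1 (str t)} ≤ ε := by
    refine le_trans (measureReal_mono ?_) hbad
    intro τ hτ
    exact Or.inr (Or.inl hτ)
  have hb2 : coin.real {τ | amb (oh η (mixP (Old j) ω τ)) (pc (st j)).2 (str t)} ≤ ε := by
    refine le_trans (measureReal_mono ?_) hbad
    intro τ hτ
    exact Or.inr (Or.inr hτ)
  have hd1 := hDIC j t η ω (pc (st j)).1 θ ε ht (vs_one j) hθ hb1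
  have hd2 := hDIC j t η ω (pc (st j)).2 θ ε ht (vs_two j) hθ hb2
  rw [← hβ] at hd1 hd2
  -- the sets of configurations
  have l1 : ∀ τ : Om, G0 j η ω τ (pc (st j)).1 t ↔
      cfg (ek j) (pq j τ).1 (pq j τ).2 ∈ Ac j η ω (pc (st j)).1 t := fun τ =>
    hLNK j t η ω τ _
  have l2 : ∀ τ : Om, G0 j η ω τ (pc (st j)).2 t ↔
      cfg (ek j) (pq j τ).1 (pq j τ).2 ∈ Ac j η ω (pc (st j)).2 t := fun τ =>
    hLNK j t η ω τ _
  have e1 : coin.real {τ | G0 j η ω τ (pc (st j)).1 t} =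
      Pu {p : (Nw j → Bool) × (Nw j → KK j) |
        cfg (ek j) p.1 p.2 ∈ Ac j η ω (pc (st j)).1 t} := by
    rw [← law hUNF j]
    congr 1
    ext τ
    exact l1 τ
  have e2 : coin.real {τ | G0 j η ω τ (pc (st j)).1 t ↔ G0 j η ω τ (pc (st j)).2 t} =
      Pu {p : (Nw j → Bool) × (Nw j → KK j) |
        cfg (ek j) p.1 p.2 ∈ Ac j η ω (pc (st j)).1 t ↔
        cfg (ek j) p.1 p.2 ∈ Ac j η ω (pc (st j)).2 t} := by
    rw [← law hUNF j]
    congr 1
    ext τ
    exact iff_congr (l1 τ) (l2 τ)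
  have hGG : coin.real {τ | G0 j η ω τ (pc (st j)).1 t ↔ G0 j η ω τ (pc (st j)).2 t} ≤
      ε + 2 * β := by
    have h1 : coin.real {τ | G0 j η ω τ (pc (st j)).1 t ↔ G0 j η ω τ (pc (st j)).2 t} ≤
        coin.real {τ | acc (oh η (mixP (Old j) ω τ)) (pc (st j)).1 (str t) ↔
          acc (oh η (mixP (Old j) ω τ)) (pc (st j)).2 (str t)} +
        coin.real ({τ | acc (oh η (mixP (Old j) ω τ)) (pc (st j)).1 (str t) ↔
            ¬ G0 j η ω τ (pc (st j)).1 t} ∪
          {τ | acc (oh η (mixP (Old j) ω τ)) (pc (st j)).2 (str t) ↔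
            ¬ G0 j η ω τ (pc (st j)).2 t}) := by
      refine real_le_add ?_
      intro τ hτ
      simp only [mem_union, mem_ofPred_eq] at hτ ⊢
      tauto
    have h2 := measureReal_union_le (μ := coin)
      {τ | acc (oh η (mixP (Old j) ω τ)) (pc (st j)).1 (str t) ↔
        ¬ G0 j η ω τ (pc (st j)).1 t}
      {τ | acc (oh η (mixP (Old j) ω τ)) (pc (st j)).2 (str t) ↔
        ¬ G0 j η ω τ (pc (st j)).2 t}
    linarith
  rw [e2] at hGG
  obtain ⟨-, -, h3⟩ := qb_small ht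
  have h4 := hNC (Nw j) (KK j) (List Bool) (2 ^ nn j) (qbs (ms j) (str t).length) (ε + 2 * β)
    (ek j) (Ac j η ω (pc (st j)).1 t) (Ac j η ω (pc (st j)).2 t) (by positivity) (hTHC.1 j)
    (hTHC.2 j t η ω _ ht (vs_one j)) (hTHC.2 j t η ω _ ht (vs_two j)) hGG
  rw [← e1] at h4
  have h5 : ((qbs (ms j) (str t).length : ℕ) : ℝ) / ((2 ^ nn j : ℕ) : ℝ) ≤
      1 / ((j : ℝ) + 1) := by
    have hj : (0 : ℝ) < (j : ℝ) + 1 := by positivity
    have hN : (0 : ℝ) < ((2 ^ nn j : ℕ) : ℝ) := by positivity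
    have h6 : (2 : ℝ) ^ (nn j / 2) ≤ 2 ^ nn j :=
      pow_le_pow_right₀ (by norm_num) (Nat.div_le_self _ _)
    have h7 : 0 ≤ ((j : ℝ) + 1) * (qbs (ms j) (str t).length : ℝ) := by positivity
    rw [div_le_div_iff₀ hN hj]
    push_cast
    linarith
  -- the acceptance of the first machine
  have hG : coin.real {τ | G0 j η ω τ (pc (st j)).1 t} *
      (1 - coin.real {τ | G0 j η ω τ (pc (st j)).1 t}) ≤
      4 * (ε + 2 * β) + 9 * (1 / ((j : ℝ) + 1)) := by linarith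
  have hlip := calc_lip (a := pa j η ω t) (β := β) measureReal_nonneg
    (measureReal_le_one) measureReal_nonneg measureReal_le_one ?_ ?_ hG
  · linarith
  · unfold pa
    refine le_trans (real_le_add (B := {τ | G0 j η ω τ (pc (st j)).1 t})
      (C := {τ | acc (oh η (mixP (Old j) ω τ)) (pc (st j)).1 (str t) ↔
        ¬ G0 j η ω τ (pc (st j)).1 t}) ?_) ?_
    · intro τ hτ
      have hτ' : acc (oh η (mixP (Old j) ω τ)) (pc (st j)).1 (str t) := hτ
      simp only [mem_union, mem_ofPred_eq]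
      tauto
    · linarith
  · unfold pa
    refine le_trans (real_le_add (B := {τ | ans j η (mixP (Old j) ω τ) t})
      (C := {τ | acc (oh η (mixP (Old j) ω τ)) (pc (st j)).1 (str t) ↔
        ¬ G0 j η ω τ (pc (st j)).1 t}) ?_) ?_
    · intro τ hτ
      simp only [mem_union, mem_ofPred_eq, ans] at hτ ⊢
      tauto
    · linarith

end Pool.Agent.RelK
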