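import Pool.Agent.RelK.Targets

/-!
# RelK: SEQ

An elementary inequality for two increasing sequences.
-/

set_option autoImplicit false

namespace Pool.Agent.RelK

namespace SEQ_

theorem mono_of {K : ℕ} {a : ℕ → ℝ} (h : ∀ i < K, a i ≤ a (i + 1)) :
    ∀ i ≤ K, a 0 ≤ a i := by
  intro i
  induction i with
  | zero => intro _; exact le_rfl
  | succ i ih => intro hi; exact (ih (by omega)).trans (h i (by omega))

theorem seq (K : ℕ) (p a b e : ℕ → ℝ) (E : ℝ) (hp : ∀ i, 0 ≤ p i) (hp0 : 1 / 2 ≤ p 0)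
    (hp1 : ∑ i ∈ Finset.range (K + 1), p i = 1) (ha : ∀ i, 0 ≤ a i ∧ a i ≤ 1)
    (hb : ∀ i, 0 ≤ b i ∧ b i ≤ 1) (hab : ∀ i ≤ K, a i * b i ≤ e i)
    (hab' : ∀ i ≤ K, 1 - a i - b i ≤ e i) (hma : ∀ i < K, a i ≤ a (i + 1))
    (hmb : ∀ i < K, b i ≤ b (i + 1)) (hE : ∑ i ∈ Finset.range (K + 1), p i * e i ≤ E) :
    (∑ i ∈ Finset.range (K + 1), p i * a i) *
      (1 - ∑ i ∈ Finset.range (K + 1), p i * a i) ≤ 11 * E := by
  have he : ∀ i ∈ Finset.range (K + 1), 0 ≤ e i := by
    intro i hi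
    have := Finset.mem_range.1 hi
    exact (mul_nonneg (ha i).1 (hb i).1).trans (hab i (by omega))
  have he0 : 0 ≤ e 0 := he 0 (Finset.mem_range.2 (by omega))
  have h1 : p 0 * e 0 ≤ E := by
    refine le_trans ?_ hE
    exact Finset.single_le_sum (f := fun i => p i * e i)
      (fun i hi => mul_nonneg (hp i) (he i hi)) (Finset.mem_range.2 (by omega))
  have h2 : e 0 ≤ 2 * E := by nlinarith
  have hE0 : 0 ≤ E := by linarith
  have h3 : a 0 * (1 - a 0) ≤ 4 * E := by
    have h4 := hab 0 (by omega)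
    have h5 := hab' 0 (by omega)
    have h6 : a 0 * (1 - a 0) ≤ a 0 * (b 0 + e 0) :=
      mul_le_mul_of_nonneg_left (by linarith) (ha 0).1
    have h7 : a 0 * e 0 ≤ e 0 := by nlinarith [(ha 0).2]
    nlinarith
  have hP0 : 0 ≤ ∑ i ∈ Finset.range (K + 1), p i * a i :=
    Finset.sum_nonneg fun i _ => mul_nonneg (hp i) (ha i).1
  have hP1 : ∑ i ∈ Finset.range (K + 1), p i * a i ≤ 1 := by
    rw [← hp1]
    exact Finset.sum_le_sum fun i _ => by nlinarith [hp i, (ha i).2]
  rcases le_or_gt (a 0) (1 / 2) with h4 | h4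
  · have h5 : a 0 ≤ 8 * E := by nlinarith [(ha 0).1]
    have h6 : 1 - 10 * E ≤ b 0 := by
      have := hab' 0 (by omega)
      linarith
    have h7 : ∀ i ∈ Finset.range (K + 1), p i * a i ≤ p i * e i + p i * (10 * E) := by
      intro i hi
      have hi' := Finset.mem_range.1 hi
      have h8 := mono_of hmb i (by omega)
      have h9 := hab i (by omega)
      have h10 : a i * (1 - b i) ≤ 10 * E := by
        have : a i * (1 - b i) ≤ 1 * (1 - b i) :=
          mul_le_mul_of_nonneg_right (ha i).2 (by linarith [(hb i).2])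
        linarith
      rw [← mul_add]
      refine mul_le_mul_of_nonneg_left ?_ (hp i)
      nlinarith
    have h8 : ∑ i ∈ Finset.range (K + 1), p i * a i ≤ 11 * E := by
      refine (Finset.sum_le_sum h7).trans ?_
      rw [Finset.sum_add_distrib, ← Finset.sum_mul, hp1]
      linarith
    nlinarith
  · have h5 : 1 - a 0 ≤ 8 * E := by nlinarith [(ha 0).2]
    have h6 : 1 - ∑ i ∈ Finset.range (K + 1), p i * a i ≤ 8 * E := by
      have h7 : (∑ i ∈ Finset.range (K + 1), p i) * a 0 ≤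
          ∑ i ∈ Finset.range (K + 1), p i * a i := by
        rw [Finset.sum_mul]
        refine Finset.sum_le_sum fun i hi => ?_
        have hi' := Finset.mem_range.1 hi
        exact mul_le_mul_of_nonneg_left (mono_of hma i (by omega)) (hp i)
      rw [hp1, one_mul] at h7
      linarith
    nlinarith

end SEQ_

theorem p_SEQ : T_SEQ := SEQ_.seq

end Pool.Agent.RelK
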