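import Pool.Agent.RelK.ACC

/-!
# RelK: a stage with small entropies succeeds with probability at least one half

The lemmas in the namespace `SUC_` are also used by other files. Template: `RelY/P_SUC.lean`.
-/

set_option autoImplicit false

namespace Pool.Agent.RelK

open MeasureTheory Set
open scoped ENNReal
open Pool.Agent.RelB (ML qbs qf qf_nonneg qf_sum)
open Pool.Agent.RelM (Lang str)
open Pool.Agent.RelO (lev st)
open Pool.Agent.RelS (Z Rl orcV orc acc Idx Om Dep mixP fd meas_of_dep mixP_pos mixP_neg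
  mixP_meas)
open Pool.Agent.RelY (nn coin Wd)

variable [Md]

namespace SUC_

theorem pp_eq (j t : ℕ) (ω : Om) : hf ω j t = pp j t ω := by
  show hs ω (j + 1) j t = _
  rw [hs_succ, Function.update_self]
  rfl

theorem pp0 (j t : ℕ) (ω : Om) : 0 ≤ pp j t ω := by
  unfold pp pa
  exact measureReal_nonneg

theorem pp1 (j t : ℕ) (ω : Om) : pp j t ω ≤ 1 := by
  unfold pp pa
  exact measureReal_le_one

/-- The answers do not change after stage `j`. -/
theorem truth_iff {j : ℕ} (ω : Om) {t : ℕ} (ht : t ∈ Wd j) :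
    (Tr j t ω ↔ ans j (hs ω j) ω t) ∧ ∀ b, (Tr2 b j t ω ↔ ans2 b j (hs ω j) ω t) :=
  accl j t (hf ω) (hs ω j) ω ω ht (fun i hi => (hsval ω j i hi).symm) fun _ _ => rfl

theorem hs_congr {j : ℕ} {ω ω' : Om} (h : ∀ a ∈ Old j, ω a = ω' a) : hs ω j = hs ω' j := by
  cases j with
  | zero => rfl
  | succ j => exact hsdep j ω ω' fun a ha => h a (old_mono (Nat.le_succ j) ha)

theorem pp_congr {j t : ℕ} {ω ω' : Om} (h : ∀ a ∈ Old j, ω a = ω' a) :
    pp j t ω = pp j t ω' := by
  unfold pp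
  rw [hs_congr h, pa_congr h]

theorem tr_dep {j : ℕ} {ω ω' : Om} {t : ℕ} (ht : t ∈ Wd j)
    (hw : ∀ a ∈ Old (j + 1), ω a = ω' a) : Tr j t ω ↔ Tr j t ω' := by
  rw [(truth_iff ω ht).1, (truth_iff ω' ht).1,
    hs_congr fun a ha => hw a (old_mono (Nat.le_succ j) ha)]
  exact (accl j t _ _ ω ω' ht (fun _ _ => rfl) hw).1

theorem tr2_dep {b j : ℕ} {ω ω' : Om} {t : ℕ} (ht : t ∈ Wd j)
    (hw : ∀ a ∈ Old (j + 1), ω a = ω' a) : Tr2 b j t ω ↔ Tr2 b j t ω' := by
  rw [(truth_iff ω ht).2 b, (truth_iff ω' ht).2 b,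
    hs_congr fun a ha => hw a (old_mono (Nat.le_succ j) ha)]
  exact (accl j t _ _ ω ω' ht (fun _ _ => rfl) hw).2 b

theorem ql_dep {j : ℕ} {ω ω' : Om} {t : ℕ} (ht : t ∈ Wd j)
    (hw : ∀ a ∈ Old (j + 1), ω a = ω' a) : ql j t ω = ql j t ω' := by
  unfold ql
  rw [pp_congr fun a ha => hw a (old_mono (Nat.le_succ j) ha),
    decide_eq_decide.2 (tr_dep ht hw)]

theorem ql0 (j t : ℕ) (ω : Om) : 0 ≤ ql j t ω :=
  qf_nonneg (pp0 j t ω) (pp1 j t ω) _

theorem ql1 (j t : ℕ) (ω : Om) : ql j t ω ≤ 1 := by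
  unfold ql qf
  have h0 := pp0 j t ω
  have h1 := pp1 j t ω
  split_ifs <;> linarith

theorem fail_dep {δ : ℝ} {j : ℕ} {ω ω' : Om} (hw : ∀ a ∈ Old (j + 1), ω a = ω' a) :
    ω ∈ fail δ j ↔ ω' ∈ fail δ j := by
  have h1 : loss j ω = loss j ω' := by
    unfold loss
    refine Finset.sum_congr rfl fun t ht => ?_
    rw [ql_dep ht hw]
  unfold fail
  simp only [Set.mem_ofPred_eq]
  rw [h1]
  refine or_congr Iff.rfl ?_
  refine exists_congr fun t => and_congr_right fun ht => ?_
  rw [ql_dep ht hw]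

theorem fail_meas (δ : ℝ) (j : ℕ) : MeasurableSet (fail δ j) :=
  fd (oldfin (j + 1)) fun _ _ h => fail_dep h

/-- The conditional law of an answer. -/
theorem tr_prob {j t : ℕ} (ht : t ∈ Wd j) (ω : Om) :
    MeasurableSet {τ | Tr j t (mixP (Old j) ω τ)} ∧
    coin.real {τ | Tr j t (mixP (Old j) ω τ)} = pp j t ω := by
  have h0 : ∀ τ, ∀ a ∈ Old j, mixP (Old j) ω τ a = ω a := fun τ a ha => mixP_pos ha
  constructor
  · refine fd (oldfin (j + 1)) fun τ τ' h => ?_
    refine tr_dep ht fun a ha => ?_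
    by_cases h3 : a ∈ Old j
    · rw [mixP_pos h3, mixP_pos h3]
    · rw [mixP_neg h3, mixP_neg h3]
      exact h a ha
  · have h1 : {τ | Tr j t (mixP (Old j) ω τ)} =
        {τ | ans j (hs ω j) (mixP (Old j) ω τ) t} := by
      ext τ
      show Tr j t (mixP (Old j) ω τ) ↔ _
      rw [(truth_iff _ ht).1, hs_congr (h0 τ)]
      rfl
    rw [h1]
    rfl

open Classical in
/-- The mean of a function of an answer. -/
theorem tr_lint {j t : ℕ} (ht : t ∈ Wd j) (ω : Om) (f : Bool → ℝ≥0∞) :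
    ∫⁻ τ, f (decide (Tr j t (mixP (Old j) ω τ))) ∂coin =
      f true * ENNReal.ofReal (pp j t ω) + f false * ENNReal.ofReal (1 - pp j t ω) := by
  obtain ⟨hm, hp⟩ := tr_prob ht ω
  obtain ⟨S, hS⟩ : ∃ S, S = {τ | Tr j t (mixP (Old j) ω τ)} := ⟨_, rfl⟩
  rw [← hS] at hm hp
  have h1 : ∀ τ, f (decide (Tr j t (mixP (Old j) ω τ))) =
      f true * S.indicator 1 τ + f false * Sᶜ.indicator 1 τ := by
    intro τ
    by_cases h : τ ∈ S
    · have h' : Tr j t (mixP (Old j) ω τ) := by rw [hS] at h; exact h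
      rw [indicator_of_mem h, indicator_of_notMem (by simpa using h)]
      simp [h']
    · have h' : ¬ Tr j t (mixP (Old j) ω τ) := by rw [hS] at h; exact h
      rw [indicator_of_notMem h, indicator_of_mem (by simpa using h)]
      simp [h']
  simp only [h1]
  rw [lintegral_add_left ((measurable_one.indicator hm).const_mul _),
    lintegral_const_mul _ (measurable_one.indicator hm),
    lintegral_const_mul _ (measurable_one.indicator hm.compl),
    lintegral_indicator_one hm, lintegral_indicator_one hm.compl]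
  have h2 : coin S = ENNReal.ofReal (pp j t ω) := by
    rw [← hp, Measure.real, ENNReal.ofReal_toReal (measure_ne_top _ _)]
  have h3 : coin Sᶜ = ENNReal.ofReal (1 - pp j t ω) := by
    rw [← hp, ← probReal_compl_eq_one_sub hm, Measure.real,
      ENNReal.ofReal_toReal (measure_ne_top _ _)]
  rw [h2, h3]

/-- The mean loss. -/
theorem loss_lint {j t : ℕ} (ht : t ∈ Wd j) (ω : Om) :
    ∫⁻ τ, ENNReal.ofReal (-Real.log (ql j t (mixP (Old j) ω τ))) ∂coin =
      ENNReal.ofReal (Real.binEntropy (pp j t ω)) := by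
  classical
  have h0 : ∀ τ, pp j t (mixP (Old j) ω τ) = pp j t ω := fun τ =>
    pp_congr fun a ha => mixP_pos ha
  have h1 : ∀ τ, ENNReal.ofReal (-Real.log (ql j t (mixP (Old j) ω τ))) =
      (fun b : Bool => ENNReal.ofReal (-Real.log (qf (pp j t ω) b)))
        (decide (Tr j t (mixP (Old j) ω τ))) := by
    intro τ
    show ENNReal.ofReal (-Real.log (ql j t (mixP (Old j) ω τ))) =
      ENNReal.ofReal (-Real.log (qf (pp j t ω) (decide (Tr j t (mixP (Old j) ω τ)))))
    unfold ql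
    rw [h0]
  simp only [h1]
  refine (tr_lint ht ω fun b => ENNReal.ofReal (-Real.log (qf (pp j t ω) b))).trans ?_
  have hp0 := pp0 j t ω
  have hp1 := pp1 j t ω
  generalize pp j t ω = p at hp0 hp1
  have e1 : qf p true = p := by simp [qf]
  have e2 : qf p false = 1 - p := by simp [qf]
  have l1 : 0 ≤ -Real.log p := by
    have := Real.log_nonpos hp0 hp1
    linarith
  have l2 : 0 ≤ -Real.log (1 - p) := by
    have := Real.log_nonpos (x := 1 - p) (by linarith) (by linarith)
    linarith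
  rw [e1, e2, ← ENNReal.ofReal_mul l1, ← ENNReal.ofReal_mul l2,
    ← ENNReal.ofReal_add (mul_nonneg l1 hp0) (mul_nonneg l2 (by linarith))]
  congr 1
  rw [Real.binEntropy, Real.log_inv, Real.log_inv]
  ring

end SUC_

open SUC_

/-- A stage with small entropies fails with probability at most one half, given the old coins. -/
theorem p_SUC : T_SUC := by
  classical
  intro δ hδ j ω hj
  obtain ⟨R, hR⟩ : ∃ R, R = δ * 2 ^ (nn j + j) := ⟨_, rfl⟩
  have hR0 : 0 < R := by rw [hR]; positivity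
  -- the measurability
  have hmm : Measurable fun τ => mixP (Old j) ω τ :=
    (mixP_meas (Old j)).comp (measurable_const.prodMk measurable_id)
  have hlm : ∀ t ∈ Wd j, Measurable fun ω => ql j t ω := fun t ht =>
    meas_of_dep (oldfin (j + 1)) fun ω ω' h => ql_dep ht h
  have hlm' : ∀ t ∈ Wd j, Measurable fun τ =>
      ENNReal.ofReal (-Real.log (ql j t (mixP (Old j) ω τ))) := fun t ht =>
    (((Real.measurable_log.comp ((hlm t ht).comp hmm))).neg).ennreal_ofReal
  have hnn : ∀ τ, ∀ t ∈ Wd j, 0 ≤ -Real.log (ql j t (mixP (Old j) ω τ)) := by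
    intro τ t _
    have := Real.log_nonpos (ql0 j t (mixP (Old j) ω τ)) (ql1 j t _)
    linarith
  -- the mean loss
  have hmean : ∫⁻ τ, ENNReal.ofReal (loss j (mixP (Old j) ω τ)) ∂coin ≤
      ENNReal.ofReal (δ / 2 * 2 ^ (nn j + j)) := by
    have h1 : ∀ τ, ENNReal.ofReal (loss j (mixP (Old j) ω τ)) =
        ∑ t ∈ Wd j, ENNReal.ofReal (-Real.log (ql j t (mixP (Old j) ω τ))) := by
      intro τ
      unfold loss
      exact ENNReal.ofReal_sum_of_nonneg (hnn τ)
    simp only [h1]
    rw [lintegral_finsetSum _ hlm', Finset.sum_congr rfl fun t ht => loss_lint ht ω,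
      ← ENNReal.ofReal_sum_of_nonneg fun t _ =>
        Real.binEntropy_nonneg (pp0 j t ω) (pp1 j t ω)]
    exact ENNReal.ofReal_le_ofReal hj
  have hM : ENNReal.ofReal R * coin {τ | ENNReal.ofReal R ≤
      ENNReal.ofReal (loss j (mixP (Old j) ω τ))} ≤
      ENNReal.ofReal (δ / 2 * 2 ^ (nn j + j)) := by
    refine (mul_meas_ge_le_lintegral ?_ _).trans hmean
    have h1 : ∀ τ, ENNReal.ofReal (loss j (mixP (Old j) ω τ)) =
        ∑ t ∈ Wd j, ENNReal.ofReal (-Real.log (ql j t (mixP (Old j) ω τ))) := by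
      intro τ
      unfold loss
      exact ENNReal.ofReal_sum_of_nonneg (hnn τ)
    simp only [h1]
    exact Finset.measurable_sum _ hlm'
  have hM' : coin {τ | ENNReal.ofReal R ≤ ENNReal.ofReal (loss j (mixP (Old j) ω τ))} ≤
      ENNReal.ofReal (1 / 2) := by
    have h1 : (1 / 2 : ℝ) = δ / 2 * 2 ^ (nn j + j) / R := by
      rw [hR, mul_div_mul_right _ _ (by positivity)]
      field_simp
    rw [h1, ENNReal.ofReal_div_of_pos hR0,
      ENNReal.le_div_iff_mul_le (Or.inl (by simpa using hR0)) (Or.inl ENNReal.ofReal_ne_top),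
      mul_comm]
    exact hM
  -- the answers of probability zero
  have hZ : ∀ t ∈ Wd j, coin {τ | ql j t (mixP (Old j) ω τ) = 0} = 0 := by
    intro t ht
    have h0 : ∀ τ, pp j t (mixP (Old j) ω τ) = pp j t ω := fun τ =>
      pp_congr fun a ha => mixP_pos ha
    have h1 := tr_lint ht ω fun b => if qf (pp j t ω) b = 0 then (1 : ℝ≥0∞) else 0
    have h2 : ∀ τ, (if qf (pp j t ω) (decide (Tr j t (mixP (Old j) ω τ))) = 0 then
        (1 : ℝ≥0∞) else 0) =
        ({τ | ql j t (mixP (Old j) ω τ) = 0} : Set Om).indicator 1 τ := by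
      intro τ
      by_cases h : ql j t (mixP (Old j) ω τ) = 0
      · have h' : τ ∈ ({τ | ql j t (mixP (Old j) ω τ) = 0} : Set Om) := h
        rw [indicator_of_mem h']
        unfold ql at h
        rw [h0] at h
        rw [if_pos h]
        rfl
      · have h' : τ ∉ ({τ | ql j t (mixP (Old j) ω τ) = 0} : Set Om) := h
        rw [indicator_of_notMem h']
        unfold ql at h
        rw [h0] at h
        rw [if_neg h]
    simp only [h2] at h1
    have h3 : MeasurableSet {τ | ql j t (mixP (Old j) ω τ) = 0} :=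
      ((hlm t ht).comp hmm) (measurableSet_singleton 0)
    rw [lintegral_indicator_one h3] at h1
    rw [h1]
    have e1 : qf (pp j t ω) true = pp j t ω := by simp [qf]
    have e2 : qf (pp j t ω) false = 1 - pp j t ω := by simp [qf]
    rw [e1, e2]
    by_cases h4 : pp j t ω = 0
    · simp [h4]
    · by_cases h5 : 1 - pp j t ω = 0
      · simp [h4, h5]
      · simp [h4, h5]
  have hZ' : coin {τ | ∃ t ∈ Wd j, ql j t (mixP (Old j) ω τ) = 0} = 0 := by
    have h1 : {τ | ∃ t ∈ Wd j, ql j t (mixP (Old j) ω τ) = 0} =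
        ⋃ t ∈ Wd j, {τ | ql j t (mixP (Old j) ω τ) = 0} := by
      ext τ
      simp
    rw [h1]
    refine le_antisymm ((measure_biUnion_finset_le _ _).trans ?_) zero_le
    rw [Finset.sum_eq_zero hZ]
  have hsub : {τ | mixP (Old j) ω τ ∈ fail δ j} ⊆
      {τ | ENNReal.ofReal R ≤ ENNReal.ofReal (loss j (mixP (Old j) ω τ))} ∪
        {τ | ∃ t ∈ Wd j, ql j t (mixP (Old j) ω τ) = 0} := by
    rintro τ (h | h)
    · left
      rw [← hR] at h
      exact ENNReal.ofReal_le_ofReal h
    · exact Or.inr h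
  refine (measure_mono hsub).trans ((measure_union_le _ _).trans ?_)
  rw [hZ', add_zero]
  exact hM'

end Pool.Agent.RelK
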