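import Pool.Agent.RelK.Targets
import Pool.Agent.RelU.P_UNF

/-!
# UNF: the law of finitely many fair coins is uniform
-/

set_option autoImplicit false

namespace Pool.Agent.RelK

open MeasureTheory Set
open scoped ENNReal
open Pool.Agent.RelS (Idx Om bern bern_prob)
open Pool.Agent.RelU (Pu)
open Pool.Agent.RelU.UNF_ (gg gg_bij pi_fin)
open Pool.Agent.RelY (sv coin coin_map)

/-- The law of finitely many fair coins is uniform. -/
theorem p_UNF : T_UNF := by
  classical
  intro X _ M f hf hsv S
  have h1 : {τ : Om | ((fun x => τ (f (Sum.inl x))),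
      (fun x (i : Fin M) => τ (f (Sum.inr (x, i))))) ∈ S} =
      (fun (τ : Om) d => τ (f d)) ⁻¹' (gg ⁻¹' S) := rfl
  have hm : Measurable fun (ω : Om) (d : X ⊕ (X × Fin M)) => ω (f d) :=
    measurable_pi_lambda _ fun d => measurable_pi_apply _
  have h2 : (gg ⁻¹' S : Set (X ⊕ (X × Fin M) → Bool)) =
      ((Finset.univ.filter fun u : X ⊕ (X × Fin M) → Bool => gg u ∈ S : Finset _) : Set _) := by
    ext u
    simp
  have h0 : ∀ d, sv (f d) = 1 / 2 := by
    intro d
    unfold sv
    rw [if_pos (hsv d)]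
  have h5 : (Measure.pi fun d : X ⊕ (X × Fin M) => bern (sv (f d))) =
      Measure.pi fun _ : X ⊕ (X × Fin M) => bern (1 / 2) := by
    congr 1
    funext d
    rw [h0 d]
  rw [h1, measureReal_def, ← Measure.map_apply hm MeasurableSet.of_discrete,
    coin_map _ hf, h5, h2, pi_fin]
  have h3 : (Finset.univ.filter fun u : X ⊕ (X × Fin M) → Bool => gg u ∈ S).card =
      (Finset.univ.filter fun p : (X → Bool) × (X → (Fin M → Bool)) => p ∈ S).card := by
    refine Finset.card_bijective gg gg_bij fun u => ?_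
    simp
  have h4 : Fintype.card ((X → Bool) × (X → (Fin M → Bool))) =
      2 ^ Fintype.card (X ⊕ (X × Fin M)) := by
    rw [← Fintype.card_of_bijective (gg_bij (X := X) (M := M)), Fintype.card_fun,
      Fintype.card_bool]
  unfold Pu
  rw [h3, h4, ENNReal.toReal_mul, ENNReal.toReal_pow, ENNReal.toReal_inv]
  simp only [ENNReal.toReal_natCast, ENNReal.toReal_ofNat]
  push_cast
  rw [inv_pow, div_eq_mul_inv]

end Pool.Agent.RelK
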