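import Pool.Agent.RelK.Targets
import Pool.Agent.RelK.NN
import Pool.Agent.RelY.DENT
import Pool.Agent.RelB.UPP
import Pool.Agent.RelS.SHIFT
import Pool.Agent.RelO.FAM
import Pool.Agent.RelO.MAIN
import Pool.Agent.RelM.READ

/-!
# The class number `b` has dimension 0
-/

set_option autoImplicit false

namespace Pool.Agent.RelK

open MeasureTheory Set
open scoped ENNReal
open Pool.Agent.RelB (ee T_AFF pre_length mg mg_pos ee_kk)
open Pool.Agent.RelM (Lang Instr Cfg run Halts NP E1 E2 Approx IsDensity IsNullCover Null1 Null2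
  pair triple str pre hq wq sq0 sq1 Asks code qb)
open Pool.Agent.RelO (lev st IsGale IsGaleCover GaleNull1 GaleNull2)
open Pool.Agent.RelS (Z Rl orcV orc acc Idx Om Dep mixP)
open Pool.Agent.RelU (NM NPco)
open Pool.Agent.RelY (accw amb nn coin bitsOf Pw Wd dd sK num numok bits dlow dgale dnil)

variable [Md]

namespace UPG_

theorem oo_tt (ω : Om) (u : List Bool) :
    oo ω (true :: true :: u) = bitsOf (hf ω) u := Pool.Agent.RelS.ott _ _ _ _

/-- The supergales can be computed in polynomial time. -/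
theorem appr : ∃ (P : List Instr) (c : ℕ), ∀ (ω : Om),
    Approx (oo ω) P (fun l => (l + 2) ^ c) (dd (hf ω)) := by
  obtain ⟨P, c, h⟩ := Pool.Agent.RelM.read Pool.Agent.RelM.stay
  refine ⟨P, c, fun ω k r w => ?_⟩
  have h1 := h (oo ω) (num (hf ω))
    (fun j k r w => by rw [oo_tt]; exact (bits (hf ω) j k r w).1)
    (fun j k r w => by rw [oo_tt]; exact (bits (hf ω) j k r w).2.1)
    (fun j k r w => by rw [oo_tt]; exact (bits (hf ω) j k r w).2.2)
    (fun k r w => (numok (hf ω) k r w).1) k r w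
  refine ⟨h1.1, ?_⟩
  rw [h1.2]
  exact (numok (hf ω) k r w).2

omit [Md] in
/-- A language of `NP` has a machine. -/
theorem np_mach {O A : Lang} (h : A ∈ NP O) : ∃ v : NM, ∀ x, A x = true ↔ acc O v x := by
  obtain ⟨P, b, c, hP⟩ := h
  exact ⟨(P, b, c), fun x => (hP x).2⟩

omit [Md] in
/-- A language of `UP` has an unambiguous machine. -/
theorem up_mach {O A : Lang} (h : A ∈ Pool.Agent.RelQ.UP O) :
    ∃ v : NM, (∀ x, A x = true ↔ acc O v x) ∧ ∀ x, ¬ amb O v x := by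
  obtain ⟨P, b, c, hP⟩ := h
  refine ⟨(P, b, c), fun x => (hP x).2.1, ?_⟩
  rintro x ⟨y, y', hyy, h1, h2⟩
  exact hyy ((hP x).2.2 y y' h1.1 h2.1 h1.2 h2.2)

omit [Md] in
theorem not_iff_compl {O A : Lang} {v v' : NM} (h1 : ∀ x, A x = true ↔ acc O v x)
    (h2 : ∀ x, (!A x) = true ↔ acc O v' x) (x : List Bool) :
    ¬ (acc O v x ↔ acc O v' x) := by
  rw [← h1, ← h2]
  cases A x <;> simp

/-- The pair of machines of a language of the class number `b`. -/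
theorem mach {b : ℕ} {O A : Lang} (hA : A ∈ Cls b O) : ∃ e,
    (∀ x, A x = true ↔ acc O (pc e).1 x) ∧ ∀ x, ¬ bad b O (pc e) x := by
  unfold Cls at hA
  by_cases hb0 : b = 0
  · rw [if_pos hb0] at hA
    obtain ⟨v, hv1, hv2⟩ := up_mach hA
    obtain ⟨e, he⟩ := pc_surj (v, v)
    refine ⟨e, ?_, ?_⟩
    · rw [he]
      exact hv1
    · intro x
      rw [he]
      unfold bad
      rw [if_pos hb0]
      exact hv2 x
  rw [if_neg hb0] at hA
  by_cases hb1 : b = 1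
  · rw [if_pos hb1] at hA
    obtain ⟨hA1, hA2⟩ := hA
    obtain ⟨v, hv⟩ := np_mach hA1
    obtain ⟨v', hv'⟩ := np_mach hA2
    obtain ⟨e, he⟩ := pc_surj (v, v')
    refine ⟨e, ?_, ?_⟩
    · rw [he]
      exact hv
    · intro x
      rw [he]
      unfold bad
      rw [if_neg hb0, if_pos hb1]
      exact not_iff_compl hv hv' x
  · rw [if_neg hb1] at hA
    obtain ⟨hA1, hA2⟩ := hA
    obtain ⟨v, hv, hva⟩ := up_mach hA1
    obtain ⟨v', hv', hva'⟩ := up_mach hA2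
    obtain ⟨e, he⟩ := pc_surj (v, v')
    refine ⟨e, ?_, ?_⟩
    · rw [he]
      exact hv
    · intro x
      rw [he]
      unfold bad
      rw [if_neg hb0, if_neg hb1]
      rintro (h | h | h)
      · exact not_iff_compl hv hv' x h
      · exact hva x h
      · exact hva' x h

/-- The supergale number `k` is large on a language of the class number `b`. -/
theorem cov {b : ℕ} {ω : Om} (hω : ∀ e n : ℕ,
      (∀ j, st j = e → ∀ t ∈ Wd j, ¬ Tr2 b j t ω) → ∀ m : ℕ, ∃ j, m ≤ j ∧ st j = e ∧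
      Real.exp (-(mg n * 2 ^ (nn j + j) + 2 ^ nn j)) ≤
        Pw (hf ω) j (pre (Lj j ω) (2 ^ (nn j + j))))
    (n : ℕ) {A : Lang} (hA : A ∈ Cls b (oo ω)) (k : ℕ) (hk : (ee k).2 = n) :
    ∃ N, 1 ≤ dd (hf ω) k (pre A N) := by
  classical
  obtain ⟨e, ha1, ha2⟩ := mach hA
  obtain ⟨n0, hn⟩ := Pool.Agent.RelS.NN_.exp_bound 1 (4 * (n + 1) * (k + 1)) 0
  obtain ⟨j, hjn, hst, hlow⟩ := hω e n (fun j hj t _ => by
    unfold Tr2
    rw [hj]
    exact ha2 (str t)) n0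
  have hAt : Lj j ω = A := by
    funext x
    unfold Lj
    rw [Bool.eq_iff_iff, ha1 x, decide_eq_true_eq, hst]
  rw [hAt] at hlow
  have hj2 : 4 * (n + 1) * (k + j + 2) ≤ 2 ^ j := by
    have h1 := hn j hjn
    rw [pow_one] at h1
    have h2 : k + j + 2 ≤ (k + 1) * (j + 2) := by nlinarith
    calc 4 * (n + 1) * (k + j + 2) ≤ 4 * (n + 1) * ((k + 1) * (j + 2)) := by gcongr
      _ = 4 * (n + 1) * (k + 1) * (j + 0 + 2) := by ring
      _ ≤ 2 ^ j := by omega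
  refine ⟨2 ^ (nn j + j), ?_⟩
  have hjN : j < (pre A (2 ^ (nn j + j))).length := by
    rw [pre_length]
    have h1 : nn j + j < 2 ^ (nn j + j) := Nat.lt_two_pow_self
    omega
  refine le_trans ?_ (dlow (hf ω) k j _ hjN)
  rw [pre_length]
  obtain ⟨L, hL⟩ : ∃ L, L = Real.log 2 := ⟨_, rfl⟩
  have hL1 : 1 / 2 ≤ L := by rw [hL]; linarith [Real.log_two_gt_d9]
  have hL2 : L ≤ 1 := by rw [hL]; linarith [Real.log_two_lt_d9]
  obtain ⟨M, hM⟩ : ∃ M : ℝ, M = 2 ^ nn j := ⟨_, rfl⟩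
  have hM1 : 1 ≤ M := by rw [hM]; exact one_le_pow₀ (by norm_num)
  have hN : (2 : ℝ) ^ (nn j + j) = M * 2 ^ j := by rw [hM, pow_add]
  have hhalf : ∀ m : ℕ, (1 / 2 : ℝ) ^ m = Real.exp (-(m * L)) := by
    intro m
    rw [hL, ← mul_neg, Real.exp_nat_mul, Real.exp_neg, Real.exp_log (by norm_num), one_div]
  have hpow : (2 : ℝ) ^ (sK k * ((2 ^ (nn j + j) : ℕ) : ℝ)) =
      Real.exp (L * (sK k * (M * 2 ^ j))) := by
    rw [Real.rpow_def_of_pos (by norm_num), ← hL]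
    push_cast
    rw [hN]
  rw [hN, ← hM] at hlow
  have hkey : 0 ≤ -(k * L) + L * (sK k * (M * 2 ^ j)) +
      (-(((j + 1 : ℕ) : ℝ) * L) + -(mg n * (M * 2 ^ j) + M)) := by
    have h1 : sK k = 1 / ((n : ℝ) + 1) := by
      unfold sK
      rw [hk]
      apply min_eq_right
      have : (1 : ℝ) / ((n : ℝ) + 1) ≤ 1 := by
        rw [div_le_one (by positivity)]
        linarith [Nat.cast_nonneg (α := ℝ) n]
      linarith
    have h2 : mg n = L / (2 * ((n : ℝ) + 1)) := by unfold mg; rw [hL]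
    have hj3 : 4 * ((n : ℝ) + 1) * (k + j + 2) ≤ 2 ^ j := by exact_mod_cast hj2
    rw [h1, h2]
    have hk : (0 : ℝ) < (n : ℝ) + 1 := by positivity
    have h3 : L * (1 / ((n : ℝ) + 1) * (M * 2 ^ j)) -
        L / (2 * ((n : ℝ) + 1)) * (M * 2 ^ j) =
        L * M * 2 ^ j / (2 * ((n : ℝ) + 1)) := by
      field_simp
      ring
    have h4 : M * ((k : ℝ) + j + 2) ≤ L * M * 2 ^ j / (2 * ((n : ℝ) + 1)) := by
      rw [le_div_iff₀ (by positivity)]
      calc M * ((k : ℝ) + j + 2) * (2 * (n + 1)) = 1 / 2 * M * (4 * (n + 1) * (k + j + 2)) := by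
            ring
        _ ≤ L * M * 2 ^ j := by gcongr
    have h5 : ((k : ℝ) + (j + 1)) * L + M ≤ M * ((k : ℝ) + j + 2) := by
      have h6 : ((k : ℝ) + (j + 1)) * L ≤ ((k : ℝ) + (j + 1)) * M :=
        mul_le_mul_of_nonneg_left (hL2.trans hM1) (by positivity)
      linarith
    push_cast
    linarith
  calc (1 : ℝ) ≤ Real.exp (-(k * L) + L * (sK k * (M * 2 ^ j)) +
        (-(((j + 1 : ℕ) : ℝ) * L) + -(mg n * (M * 2 ^ j) + M))) :=
        Real.one_le_exp hkey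
    _ = (1 / 2 : ℝ) ^ k * (2 : ℝ) ^ (sK k * ((2 ^ (nn j + j) : ℕ) : ℝ)) *
        ((1 / 2 : ℝ) ^ (j + 1) * Real.exp (-(mg n * (M * 2 ^ j) + M))) := by
        rw [hhalf, hpow, hhalf, ← Real.exp_add, ← Real.exp_add, ← Real.exp_add]
    _ ≤ _ := by gcongr

end UPG_

open UPG_

/-- The class number `b` has dimension `0`. -/
theorem p_UPG_of (hPWL : T_PWL) (hAFF : Pool.Agent.RelB.T_AFF) : T_UPG := by
  intro b hIOS
  have h : ∀ᵐ ω ∂coin, ∀ e n : ℕ,
      (∀ j, st j = e → ∀ t ∈ Wd j, ¬ Tr2 b j t ω) →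
      ∀ m : ℕ, ∃ j, m ≤ j ∧ st j = e ∧ ω ∉ fail (mg n) j :=
    ae_all_iff.2 fun e => ae_all_iff.2 fun n => hIOS e (mg n) (mg_pos n)
  filter_upwards [h] with ω hω0 s hs
  have hω : ∀ e n : ℕ,
      (∀ j, st j = e → ∀ t ∈ Wd j, ¬ Tr2 b j t ω) → ∀ m : ℕ, ∃ j, m ≤ j ∧ st j = e ∧
      Real.exp (-(mg n * 2 ^ (nn j + j) + 2 ^ nn j)) ≤
        Pw (hf ω) j (pre (Lj j ω) (2 ^ (nn j + j))) := by
    intro e n hj m
    obtain ⟨j, h1, h2, h3⟩ := hω0 e n hj m
    exact ⟨j, h1, h2, hPWL (mg n) j ω h3⟩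
  obtain ⟨n, hl⟩ := exists_nat_one_div_lt hs
  obtain ⟨e, he⟩ : ∃ e, e = Nat.pair 0 n := ⟨_, rfl⟩
  have hee : ∀ k, ee (2 ^ (e + 1) * k + (2 ^ e - 1)) = (0, n) := by
    intro k
    rw [ee_kk, he, Nat.unpair_pair]
  have hcov : IsGaleCover s (fun k => dd (hf ω) (2 ^ (e + 1) * k + (2 ^ e - 1)))
      (Cls b (oo ω)) := by
    intro k
    refine ⟨Pool.Agent.RelO.MAIN_.gale_mono ?_ (dgale (hf ω) _), ?_, ?_⟩
    · unfold sK
      rw [hee]
      refine (min_le_right _ _).trans ?_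
      exact hl.le
    · refine (dnil (hf ω) _).trans ?_
      refine pow_le_pow_of_le_one (by norm_num) (by norm_num) ?_
      have h1 : 1 ≤ 2 ^ (e + 1) := Nat.one_le_two_pow
      have h2 : 1 * k ≤ 2 ^ (e + 1) * k := Nat.mul_le_mul_right k h1
      omega
    · intro A hA
      exact cov hω n hA _ (by rw [hee])
  obtain ⟨P, c, hap⟩ := appr
  obtain ⟨P', c', hap'⟩ := hAFF (oo ω) P c (2 ^ (e + 1)) (2 ^ e - 1) _ (hap ω)
  refine ⟨⟨_, hcov, P', c', hap'⟩, ?_⟩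
  obtain ⟨c'', hc''⟩ := Pool.Agent.RelO.t12 c'
  exact ⟨_, hcov, P', c'', Pool.Agent.RelO.time _ _ _ _ _ hc'' hap'⟩

end Pool.Agent.RelK
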