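import Pool.Agent.RelK.Targets
import Pool.Agent.RelK.NN
import Pool.Agent.RelS.UP
import Pool.Agent.RelS.MEAS
import Pool.Agent.RelY.NN

/-!
# UPW: up-closures in the world of type `2`
-/

set_option autoImplicit false

namespace Pool.Agent.RelK

open MeasureTheory Set
open scoped ENNReal
open Pool.Agent.RelM (str)
open Pool.Agent.RelO (lev st)
open Pool.Agent.RelS (Z orcV orc acc Idx Om Dep mixP PF wt Upw up_bound wt_nonneg PF_nonneg PF_mono
  meas_of_dep)
open Pool.Agent.RelB (ML qbs qf ee DD WW iot)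
open Pool.Agent.RelU (NM)
open Pool.Agent.RelY (ucode ms accw amb nn jj sv coin kk op Wd Dj NK pr si Tree)

variable [Md]

namespace UPW_

/-- The set of the configurations above an accepted one is increasing. -/
theorem u0_up {j : ℕ} {η : ℕ → ℕ → ℝ} {ω : Om} {v : NM} {t : ℕ} {c c' : Dj j → Bool}
    (h : c ∈ U0 j η ω v t) (hc : ∀ d, c d = true → c' d = true) : c' ∈ U0 j η ω v t := by
  obtain ⟨c'', h1, h2⟩ := h
  exact ⟨c'', h1, fun d hd => hc d (h2 d hd)⟩

theorem cw2 (h2 : ∀ κ, Md.ty κ = 2) (j : ℕ) (τ : Om) (w : Dj j → Bool) (d : Dj j) :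
    Cw j τ w d = (sgn τ d.1.1 d.1.2.1 && w d) := by
  have h0 : ¬ Md.ty d.1.1 = 0 := by rw [h2]; norm_num
  unfold Cw
  rw [if_neg h0]

theorem cw_w (h2 : ∀ κ, Md.ty κ = 2) (j : ℕ) (τ : Om) {w w' : Dj j → Bool}
    (h : ∀ d, w d = true → w' d = true) (d : Dj j) (hd : Cw j τ w d = true) :
    Cw j τ w' d = true := by
  rw [cw2 h2, Bool.and_eq_true] at hd ⊢
  exact ⟨hd.1, h d hd.2⟩

theorem sgn_up (h2 : ∀ κ, Md.ty κ = 2) {τ τ' : Om} (h : ∀ a, τ a = true → τ' a = true) (κ : ℕ)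
    (x : List Bool) (hx : sgn τ κ x = true) : sgn τ' κ x = true := by
  have h1 : ¬ Md.ty κ = 1 := by rw [h2]; norm_num
  unfold sgn at hx ⊢
  rcases eq_or_ne x [] with rfl | hx0
  · exact absurd hx (by simp)
  · rw [List.getLast?_eq_some_getLast hx0] at hx ⊢
    simp only [if_neg h1, Bool.and_eq_true] at hx ⊢
    exact ⟨hx.1, h _ hx.2⟩

theorem cw_t (h2 : ∀ κ, Md.ty κ = 2) (j : ℕ) {τ τ' : Om} (h : ∀ a, τ a = true → τ' a = true)
    (w : Dj j → Bool) (d : Dj j) (hd : Cw j τ w d = true) : Cw j τ' w d = true := by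
  rw [cw2 h2, Bool.and_eq_true] at hd ⊢
  exact ⟨sgn_up h2 h _ _ hd.1, hd.2⟩

theorem cw_dep (h2 : ∀ κ, Md.ty κ = 2) (j : ℕ) (w : Dj j → Bool) :
    Dep (Old (j + 1)) fun τ => Cw j τ w := by
  intro τ τ' h
  funext d
  show Cw j τ w d = Cw j τ' w d
  rw [cw2 h2, cw2 h2, sgn_congr' fun hx => h _ (old_sgn hx d.2.2.1)]

omit [Md] in
theorem si_le (j i : ℕ) (d : Dj j) : si j i d ≤ 1 := Pool.Agent.RelY.sv_le_one _

omit [Md] in
theorem si_nn (j i : ℕ) (d : Dj j) : 0 ≤ si j i d := (Pool.Agent.RelY.sv_pos _).le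

omit [Md] in
theorem rho_half (j : ℕ) : (1 / 2 : ℝ) ^ (nn j / 2) ≤ 1 / 2 := by
  have h1 : 8 * (j + 3) ≤ nn j := Pool.Agent.RelY.nnge j
  have h3 : 1 ≤ nn j / 2 := by omega
  calc (1 / 2 : ℝ) ^ (nn j / 2) ≤ (1 / 2 : ℝ) ^ 1 :=
        pow_le_pow_of_le_one (by norm_num) (by norm_num) h3
    _ = 1 / 2 := pow_one _

omit [Md] in
theorem pf_le_one {D : Type} [Fintype D] {q : D → ℝ} (h0 : ∀ d, 0 ≤ q d) (h1 : ∀ d, q d ≤ 1)
    (A : Set (D → Bool)) : PF q A ≤ 1 := by
  classical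
  rw [Pool.Agent.RelS.PF_def, ← Pool.Agent.RelS.wt_sum q]
  refine Finset.sum_le_sum fun V _ => ?_
  split_ifs
  · exact le_rfl
  · exact wt_nonneg h0 h1 V

/-- The probability of a set that depends on the coins of the first kind. -/
theorem pf_dep (h2 : ∀ κ, Md.ty κ = 2) (j i : ℕ) (A : Set (Dj j → Bool)) :
    Dep (Old (j + 1)) fun τ => PF (si j i) {w | Cw j τ w ∈ A} := by
  intro τ τ' h
  have e : {w | Cw j τ w ∈ A} = {w | Cw j τ' w ∈ A} := by
    ext w
    have := cw_dep h2 j w τ τ' h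
    have e2 : Cw j τ w = Cw j τ' w := this
    show Cw j τ w ∈ A ↔ Cw j τ' w ∈ A
    rw [e2]
  show PF (si j i) {w | Cw j τ w ∈ A} = PF (si j i) {w | Cw j τ' w ∈ A}
  rw [e]

theorem pf_int (h2 : ∀ κ, Md.ty κ = 2) (j i : ℕ) (A : Set (Dj j → Bool)) :
    Integrable (fun τ => PF (si j i) {w | Cw j τ w ∈ A}) coin := by
  have hm : Measurable fun τ => PF (si j i) {w | Cw j τ w ∈ A} :=
    meas_of_dep (oldfin (j + 1)) (pf_dep h2 j i A)
  refine Integrable.of_bound hm.aestronglyMeasurable 1 (Filter.Eventually.of_forall fun τ => ?_)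
  rw [Real.norm_of_nonneg (PF_nonneg (si_nn j i) (si_le j i) _)]
  exact pf_le_one (si_nn j i) (si_le j i) _

end UPW_

open UPW_ in
theorem p_UPW_of (hTRE : T_TRE) (hFKG : T_FKG) (hHAR : T_HAR) (hRHO : Pool.Agent.RelY.T_RHO) :
    T_UPW := by
  intro h2 j t η ω v v' ht hv hv'
  have upw : ∀ (τ : Om) (u : NM) (w w' : Dj j → Bool), w ∈ {w | Cw j τ w ∈ U0 j η ω u t} →
      (∀ d, w d = true → w' d = true) → w' ∈ {w | Cw j τ w ∈ U0 j η ω u t} := by
    intro τ u w w' hw hww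
    exact u0_up hw (cw_w h2 j τ hww)
  refine ⟨?_, ?_, ?_⟩
  · intro τ i hi
    obtain ⟨T, hT⟩ := hTRE j t η ω τ v ht hv
    have hC : Pool.Agent.RelS.Cert (fun w => ∃ y, Aw j η ω v t y (Cw j τ w))
        (qbs (ms j) (str t).length) := by
      rintro w ⟨y, hy⟩
      have hy' := (hT y w).2 hy
      refine ⟨T.Qs y w, T.card y w, fun w' hw' => ⟨y, ?_⟩⟩
      have h3 := (T.loc y w w' fun d hd => (hw' d hd).symm).1.1 hy'
      exact (hT y w').1 h3
    have hρ : ∀ d : Dj j, 1 - si j i d ≤ (1 / 2 : ℝ) ^ (nn j / 2) := fun d => hRHO.1 j i d hi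
    have h0 : ∀ d : Dj j, 1 / 2 ≤ si j i d := by
      intro d
      have h3 := hρ d
      have h4 := rho_half j
      linarith
    have hb := up_bound h0 (si_le j i) hρ (by positivity) hC
    have hsub : {w | Cw j τ w ∈ U0 j η ω v t ∧ ¬ ∃ y, Aw j η ω v t y (Cw j τ w)} ⊆
        {w | Upw (fun w => ∃ y, Aw j η ω v t y (Cw j τ w)) w ∧
          ¬ ∃ y, Aw j η ω v t y (Cw j τ w)} := by
      rintro w ⟨⟨c, hc, hcw⟩, hn⟩
      refine ⟨⟨c, ?_, fun d hd => ?_⟩, hn⟩
      · have e : Cw j τ c = c := by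
          funext d
          rw [cw2 h2]
          cases hcd : c d with
          | false => simp
          | true =>
            have h3 := hcw d hcd
            rw [cw2 h2, Bool.and_eq_true] at h3
            rw [h3.1]
            rfl
        show ∃ y, Aw j η ω v t y (Cw j τ c)
        rw [e]
        exact hc
      · have h3 := hcw d hd
        rw [cw2 h2, Bool.and_eq_true] at h3
        exact h3.2
    refine (PF_mono (si_nn j i) (si_le j i) hsub).trans (hb.trans (le_of_eq ?_))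
    ring
  · intro i hi
    have hmono : ∀ (u : NM) (τ τ' : Om), (∀ a, τ a = true → τ' a = true) →
        PF (si j i) {w | Cw j τ w ∈ U0 j η ω u t} ≤
          PF (si j i) {w | Cw j τ' w ∈ U0 j η ω u t} := by
      intro u τ τ' h
      exact PF_mono (si_nn j i) (si_le j i) fun w hw => u0_up hw (cw_t h2 j h w)
    have h3 := hHAR (Old (j + 1)) (fun τ => PF (si j i) {w | Cw j τ w ∈ U0 j η ω v t})
      (fun τ => PF (si j i) {w | Cw j τ w ∈ U0 j η ω v' t}) (oldfin (j + 1))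
      (pf_dep h2 j i _) (pf_dep h2 j i _)
      (fun τ => PF_nonneg (si_nn j i) (si_le j i) _) (fun τ => PF_nonneg (si_nn j i) (si_le j i) _)
      (hmono v) (hmono v')
    refine h3.trans ?_
    have hm1 : Measurable fun τ => PF (si j i) {w | Cw j τ w ∈ U0 j η ω v t} :=
      meas_of_dep (oldfin (j + 1)) (pf_dep h2 j i _)
    have hm2 : Measurable fun τ => PF (si j i) {w | Cw j τ w ∈ U0 j η ω v' t} :=
      meas_of_dep (oldfin (j + 1)) (pf_dep h2 j i _)
    refine integral_mono ?_ ?_ fun τ => ?_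
    · refine Integrable.of_bound (hm1.mul hm2).aestronglyMeasurable 1
        (Filter.Eventually.of_forall fun τ => ?_)
      have a0 := PF_nonneg (si_nn j i) (si_le j i) {w | Cw j τ w ∈ U0 j η ω v t}
      have b0 := PF_nonneg (si_nn j i) (si_le j i) {w | Cw j τ w ∈ U0 j η ω v' t}
      rw [Real.norm_of_nonneg (mul_nonneg a0 b0)]
      exact mul_le_one₀ (pf_le_one (si_nn j i) (si_le j i) _) b0
        (pf_le_one (si_nn j i) (si_le j i) _)
    · exact pf_int h2 j i (U0 j η ω v t ∩ U0 j η ω v' t)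
    · exact (hFKG (Dj j) (si j i) {w | Cw j τ w ∈ U0 j η ω v t} (si_nn j i) (si_le j i)
        (upw τ v)).1 {w | Cw j τ w ∈ U0 j η ω v' t} (upw τ v')
  · intro i hi
    refine integral_mono (pf_int h2 j i _) (pf_int h2 j (i + 1) _) fun τ => ?_
    have h3 := (hFKG (Dj j) (si j i) {w | Cw j τ w ∈ U0 j η ω v t} (si_nn j i) (si_le j i)
      (upw τ v)).2
    show PF (si j i) {w | Cw j τ w ∈ U0 j η ω v t} ≤
      PF (si j (i + 1)) {w | Cw j τ w ∈ U0 j η ω v t}
    rw [hRHO.2 j i]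
    exact h3

end Pool.Agent.RelK
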