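import Pool.Agent.RelK.MAIN
import Pool.Agent.RelK.P_FKG
import Pool.Agent.RelK.P_HAR
import Pool.Agent.RelK.P_SEQ
import Pool.Agent.RelK.P_UNF
import Pool.Agent.RelK.P_AVG
import Pool.Agent.RelK.P_LNK
import Pool.Agent.RelK.P_HIT
import Pool.Agent.RelK.P_FAIR
import Pool.Agent.RelK.P_NONB
import Pool.Agent.RelK.P_CLS
import Pool.Agent.RelK.P_TRE
import Pool.Agent.RelK.P_LKY
import Pool.Agent.RelK.P_DIC
import Pool.Agent.RelK.P_PQA
import Pool.Agent.RelK.P_THC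
import Pool.Agent.RelK.P_PQC
import Pool.Agent.RelK.P_UPW
import Pool.Agent.RelK.P_PQB
import Pool.Agent.RelK.P_DNS
import Pool.Agent.RelK.P_SUC
import Pool.Agent.RelK.P_PWL
import Pool.Agent.RelK.P_IOG
import Pool.Agent.RelK.P_UPG
import Pool.Agent.RelZ.FIN

/-!
# The classification
-/

set_option autoImplicit false

namespace Pool.Agent.RelK

open Pool.Agent.RelM (Lang NP E1 E2 Null1 Null2)
open Pool.Agent.RelO (GaleNull1 GaleNull2)
open Pool.Agent.RelQ (UP)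
open Pool.Agent.RelU (NPco)
open Pool.Agent.RelZ (Large Small small_mono large_mono up_np npco_np upco_npco upco_up fin_small
  fin_large)

/-- The facts about an arbitrary world. -/
theorem facts [Md] : T_NONB ∧ T_CLS ∧ T_PAQ 2 ∧ ((∀ κ, Md.ty κ ≠ 0) → T_PAQ 0) ∧
    ((∀ κ, Md.ty κ = 2) → T_PAQ 1) ∧ ∀ b, T_PAQ b → T_UPP b := by
  have hNC := Pool.Agent.RelU.p_NC_of Pool.Agent.RelU.p_HK Pool.Agent.RelU.p_FUB
    Pool.Agent.RelU.p_CH Pool.Agent.RelU.p_UC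
  have hDIC := p_DIC_of (Pool.Agent.RelY.p_SPR_of Pool.Agent.RelY.p_OR) Pool.Agent.RelY.p_CSA
    p_TRE p_LKY Pool.Agent.RelY.p_NKB Pool.Agent.RelY.p_RHO p_AVG
  have hUPW := p_UPW_of p_TRE p_FKG p_HAR Pool.Agent.RelY.p_RHO
  have hIOG := p_IOG_of Pool.Agent.RelU.p_ENT p_DNS p_SUC
  have hUPG := p_UPG_of p_PWL Pool.Agent.RelB.p_AFF
  exact ⟨p_NONB_of (p_HIT_of Pool.Agent.RelY.p_KEYP) p_FAIR,
    p_CLS_of Pool.Agent.RelB.p_NPA Pool.Agent.RelB.p_APP Pool.Agent.RelZ.p_UPA,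
    p_PQC_of hDIC hNC p_THC p_LNK p_UNF, p_PQA_of hDIC,
    p_PQB_of hUPW p_SEQ p_AVG p_LKY Pool.Agent.RelY.p_NKB, fun b hb => hUPG b (hIOG b hb)⟩

/-- Only `NP` is large. -/
theorem fin_a : ∃ O : Lang, Large O (NP O) ∧ Small O (UP O) ∧ Small O (NPco O) := by
  letI : Md := ⟨fun _ => 2⟩
  obtain ⟨h1, h2, -, h4, h5, h6⟩ := facts
  exact main_a h1 h2 (h6 0 (h4 fun κ => (by decide : (2 : ℕ) ≠ 0))) (h6 1 (h5 fun _ => rfl))

/-- Only `UP ∩ coUP` is small. -/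
theorem fin_b : ∃ O : Lang, Large O (UP O) ∧ Large O (NPco O) ∧
    Small O {A | A ∈ UP O ∧ (fun x => !A x) ∈ UP O} := by
  letI : Md := ⟨fun κ => if κ % 4 < 2 then 0 else 1⟩
  obtain ⟨h1, h2, h3, -, -, h6⟩ := facts
  exact main_b h1 h2 (fun κ h => if_pos h) (fun κ h => if_neg (by omega)) (h6 2 h3)

/-- The classification. -/
theorem classification (a b c d : Prop) (hab : a → b) (hac : a → c) (hbd : b → d) (hcd : c → d) :
    ∃ O : Lang,
    ((a → Large O {A | A ∈ UP O ∧ (fun x => !A x) ∈ UP O}) ∧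
      (¬ a → Small O {A | A ∈ UP O ∧ (fun x => !A x) ∈ UP O})) ∧
    ((b → Large O (UP O)) ∧ (¬ b → Small O (UP O))) ∧
    ((c → Large O (NPco O)) ∧ (¬ c → Small O (NPco O))) ∧
    ((d → Large O (NP O)) ∧ (¬ d → Small O (NP O))) := by
  by_cases ha : a
  · obtain ⟨O, h⟩ := fin_large
    exact ⟨O, ⟨fun _ => h, fun h' => absurd ha h'⟩,
      ⟨fun _ => large_mono (upco_up O) h, fun h' => absurd (hab ha) h'⟩,
      ⟨fun _ => large_mono (upco_npco O) h, fun h' => absurd (hac ha) h'⟩,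
      ⟨fun _ => large_mono ((upco_up O).trans (up_np O)) h, fun h' => absurd (hbd (hab ha)) h'⟩⟩
  by_cases hb : b
  · by_cases hc : c
    · obtain ⟨O, h1, h2, h3⟩ := fin_b
      exact ⟨O, ⟨fun h' => absurd h' ha, fun _ => h3⟩, ⟨fun _ => h1, fun h' => absurd hb h'⟩,
        ⟨fun _ => h2, fun h' => absurd hc h'⟩,
        ⟨fun _ => large_mono (up_np O) h1, fun h' => absurd (hbd hb) h'⟩⟩
    · obtain ⟨O, h1, h2, h3⟩ := Pool.Agent.RelY.fin_u
      exact ⟨O, ⟨fun h' => absurd h' ha, fun _ => small_mono (upco_npco O) h3⟩,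
        ⟨fun _ => ⟨h1, h2⟩, fun h' => absurd hb h'⟩, ⟨fun h' => absurd h' hc, fun _ => h3⟩,
        ⟨fun _ => large_mono (up_np O) ⟨h1, h2⟩, fun h' => absurd (hbd hb) h'⟩⟩
  · by_cases hc : c
    · obtain ⟨O, h1, h2, h3⟩ := Pool.Agent.RelY.fin_y
      exact ⟨O, ⟨fun h' => absurd h' ha, fun _ => small_mono (upco_up O) h3⟩,
        ⟨fun h' => absurd h' hb, fun _ => h3⟩, ⟨fun _ => ⟨h1, h2⟩, fun h' => absurd hc h'⟩,
        ⟨fun _ => large_mono (npco_np O) ⟨h1, h2⟩, fun h' => absurd (hcd hc) h'⟩⟩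
    · by_cases hd : d
      · obtain ⟨O, h1, h2, h3⟩ := fin_a
        exact ⟨O, ⟨fun h' => absurd h' ha, fun _ => small_mono (upco_up O) h2⟩,
          ⟨fun h' => absurd h' hb, fun _ => h2⟩, ⟨fun h' => absurd h' hc, fun _ => h3⟩,
          ⟨fun _ => h1, fun h' => absurd hd h'⟩⟩
      · obtain ⟨O, h⟩ := fin_small
        exact ⟨O, ⟨fun h' => absurd h' ha,
            fun _ => small_mono ((upco_up O).trans (up_np O)) h⟩,
          ⟨fun h' => absurd h' hb, fun _ => small_mono (up_np O) h⟩,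
          ⟨fun h' => absurd h' hc, fun _ => small_mono (npco_np O) h⟩,
          ⟨fun h' => absurd h' hd, fun _ => h⟩⟩

end Pool.Agent.RelK
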