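import Pool.Agent.RelK.Targets5
import Pool.Agent.RelK.P_HIT

/-!
# Flipping a presence coin
-/

set_option autoImplicit false

namespace Pool.Agent.RelK

open MeasureTheory Set
open scoped ENNReal
open Pool.Agent.RelM (Lang Instr Cfg step run Halts pair str pre wq sq0 sq1 Asks hq qb)
open Pool.Agent.RelO (lev levmono levfin)
open Pool.Agent.RelS (Z Rl orcV orc acc Idx Om Dep mixP mixP_pos mixP_neg fd meas_of_dep ovis
  ocut)
open Pool.Agent.RelU (NM key)
open Pool.Agent.RelB (qbs ask_len)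
open Pool.Agent.RelY (ms accw amb nn jj sv coin kk op NoKey bitsOf Wd bl SS Hl nnmono nnge jjspec
  jj_eq jj_le lev_len lev_pos key_ne kk_le op_le op_congr indep coin_cyl coin_fair bloc qb_small
  accw_congr orc_loc)
open Pool.Agent.RelY.HIT_ (kc kc_fin K K_iff)

variable [Md]

namespace FLP_

/-- The sample with the value `b` of the coin `a`. -/
noncomputable def sb (j : ℕ) (ω : Om) (a : Idx) (b : Bool) (τ : Om) : Om :=
  Function.update (mixP (Old j) ω τ) a b

omit [Md] in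
theorem sb_self (j : ℕ) (ω : Om) (a : Idx) (b : Bool) (τ : Om) : sb j ω a b τ a = b := by
  unfold sb
  rw [Function.update_self]

omit [Md] in
theorem sb_ne {j : ℕ} {ω : Om} {a c : Idx} (b : Bool) (τ : Om) (h : c ≠ a) :
    sb j ω a b τ c = mixP (Old j) ω τ c := by
  unfold sb
  rw [Function.update_of_ne h]

/-- The presence coin of a word influences only the pair of the word. -/
theorem zo_agree {κ : ℕ} (hκ : Md.ty κ ≠ 1) {x : List Bool} {σ σ' : Om} {m κ' : ℕ}
    {x' y' : List Bool}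
    (h : ∀ c ∈ Old m, c ≠ ((κ, x, [], 0) : Idx) → c ∉ HIT_.pk κ (x ++ [true]) → σ c = σ' c)
    (hl : lev κ' x' < nn m) (hy : y'.length = lev κ' x')
    (hne : ¬ (κ' = κ ∧ x' = x ++ [true])) : zo σ κ' x' y' = zo σ' κ' x' y' := by
  by_cases hf : κ' = κ ∧ x' = x ++ [false]
  · obtain ⟨rfl, rfl⟩ := hf
    have e : ∀ ρ : Om, sgn ρ κ' (x ++ [false]) = false := by
      intro ρ
      unfold sgn
      simp [hκ]
    unfold zo
    rw [e, e, Bool.false_and, Bool.false_and]
  have hj := jj_le hl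
  have h2 := op_le σ (jj (lev κ' x'))
  have h3 := kk_le hj
  refine zo_congr (fun hx => h _ (old_sgn hx hl) ?_ ?_)
    (fun _ hx i hi => h _ (old_kb hx hl hi) ?_ ?_)
    (fun _ => op_congr fun m hm => h _ (old_op hj hm) ?_ ?_)
    (fun _ y hy' => h _ (old_key hl hy' (by omega)) ?_ ?_) hy
  · intro e
    have e1 : κ' = κ := congrArg (fun c : Idx => c.1) e
    have e2 : x'.dropLast = x := congrArg (fun c : Idx => c.2.1) e
    have e3 := List.dropLast_append_getLast hx
    rw [e2] at e3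
    cases hb : x'.getLast hx with
    | true =>
      rw [hb] at e3
      exact hne ⟨e1, e3.symm⟩
    | false =>
      rw [hb] at e3
      exact hf ⟨e1, e3.symm⟩
  · rintro ⟨_, _, e⟩
    exact (e rfl).1 rfl
  · intro e
    have e1 : i + 1 = 0 := congrArg (fun c : Idx => c.2.2.2) e
    omega
  · rintro ⟨e1, e2, _⟩
    exact hne ⟨e1, e2⟩
  · intro e
    have e1 : m + 1 = 0 := congrArg (fun c : Idx => c.2.2.2) e
    omega
  · rintro ⟨_, e2, _⟩
    have e3 : ([] : List Bool) = x ++ [true] := e2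
    simp at e3
  · intro e
    exact key_ne hy' (congrArg (fun c : Idx => c.2.2.1) e)
  · rintro ⟨e1, e2, _⟩
    exact hne ⟨e1, e2⟩

/-- Without the presence coin there is no key. -/
theorem zo_off {κ : ℕ} {x : List Bool} {σ : Om} (h : σ (κ, x, [], 0) = false) (y : List Bool) :
    zo σ κ (x ++ [true]) y = false := by
  unfold zo
  rw [sgn_true, h, Bool.false_and]

/-- Two oracles which differ only in the presence coin. -/
theorem differ {κ : ℕ} (hκ : Md.ty κ ≠ 1) {x : List Bool} {σ σ' : Om} (G : Lang)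
    (h : ∀ c, c ≠ ((κ, x, [], 0) : Idx) → σ c = σ' c) (h0 : σ' (κ, x, [], 0) = false)
    {q : List Bool} (hq : q.length < 2 ^ lev κ (x ++ [true]))
    (hne : orc G (zo σ') q ≠ orc G (zo σ) q) :
    ∃ y : List Bool, y.length = lev κ (x ++ [true]) ∧ q = wq κ (x ++ [true]) y ∧
      zo σ κ (x ++ [true]) y = true := by
  obtain ⟨S, hS⟩ : ∃ S : ℕ → List Bool → Prop, S = fun κ' x' => ¬ (κ' = κ ∧ x' = x ++ [true]) :=
    ⟨_, rfl⟩
  have hS' : ∀ κ' x', ¬ S κ' x' → κ' = κ ∧ x' = x ++ [true] := by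
    intro κ' x' h1
    rw [hS] at h1
    exact not_not.1 h1
  have hlong : ∀ m, 2 ^ lev κ (x ++ [true]) ≤ m → q ≠ sq1 κ (x ++ [true]) m := by
    intro m hm e
    have h2 := Pool.Agent.RelM.HitJob.le_length_sq1 κ (x ++ [true]) m
    rw [← e] at h2
    omega
  have h1 : orc G (zo σ') q = orcV S G (zo σ') q := by
    by_contra h2
    rcases ocut S G G (zo σ') (zo σ') (fun _ _ _ _ _ => rfl) q h2 with
      ⟨κ', x', y', h3, hy', hq', hz'⟩ | ⟨κ', x', m', h3, hq', hm'⟩ | ⟨u, hq', hu⟩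
    · obtain ⟨rfl, rfl⟩ := hS' _ _ h3
      rw [zo_off h0] at hz'
      exact absurd hz' (by simp)
    · obtain ⟨rfl, rfl⟩ := hS' _ _ h3
      exact hlong m' hm' hq'
    · exact hu rfl
  have h2 : orc G (zo σ) q ≠ orcV S G (zo σ') q := by
    rw [← h1]
    exact hne.symm
  have hzz : ∀ (κ' : ℕ) (x' y' : List Bool), S κ' x' → y'.length = lev κ' x' →
      zo σ κ' x' y' = zo σ' κ' x' y' := by
    intro κ' x' y' h3 hy'
    rw [hS] at h3
    have h4 : lev κ' x' < nn (lev κ' x') := by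
      have := nnge (lev κ' x')
      omega
    exact zo_agree hκ (fun c _ hc _ => h c hc) h4 hy' h3
  rcases ocut S G G (zo σ) (zo σ') hzz q h2 with
    ⟨κ', x', y', h3, hy', hq', hz'⟩ | ⟨κ', x', m', h3, hq', hm'⟩ | ⟨u, hq', hu⟩
  · obtain ⟨rfl, rfl⟩ := hS' _ _ h3
    exact ⟨y', hy', hq', hz'⟩
  · obtain ⟨rfl, rfl⟩ := hS' _ _ h3
    exact absurd hq' (hlong m' hm')
  · exact absurd rfl hu

omit [Md] in
/-- Events that depend on different coins. -/
theorem inter_mul {p : Set Idx} {C E : Set Om} (hC : MeasurableSet C) (hE : MeasurableSet E)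
    (dC : ∀ ω ω' : Om, (∀ a ∈ p, ω a = ω' a) → (ω ∈ C ↔ ω' ∈ C))
    (dE : ∀ ω ω' : Om, (∀ a ∈ pᶜ, ω a = ω' a) → (ω ∈ E ↔ ω' ∈ E)) :
    coin (C ∩ E) = coin C * coin E := by
  have hCd : Dep p (C.indicator (1 : Om → ℝ≥0∞)) := by
    intro ω ω' h
    have h1 := dC ω ω' h
    by_cases hω : ω ∈ C
    · rw [Set.indicator_of_mem hω, Set.indicator_of_mem (h1.1 hω)]
      rfl
    · rw [Set.indicator_of_notMem hω, Set.indicator_of_notMem fun h => hω (h1.2 h)]
  have hEd : Dep pᶜ (E.indicator (1 : Om → ℝ≥0∞)) := by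
    intro ω ω' h
    have h1 := dE ω ω' h
    by_cases hω : ω ∈ E
    · rw [Set.indicator_of_mem hω, Set.indicator_of_mem (h1.1 hω)]
      rfl
    · rw [Set.indicator_of_notMem hω, Set.indicator_of_notMem fun h => hω (h1.2 h)]
  have hi := indep (p := p) (F := C.indicator 1) (G := E.indicator 1)
    (measurable_one.indicator hC) (measurable_one.indicator hE) hCd hEd
  rw [lintegral_indicator_one hC, lintegral_indicator_one hE] at hi
  have hmul : ∀ ω : Om, C.indicator (1 : Om → ℝ≥0∞) ω * E.indicator 1 ω =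
      (C ∩ E).indicator 1 ω := by
    intro ω
    by_cases ha : ω ∈ E <;> by_cases hb : ω ∈ C <;> simp [Set.indicator, ha, hb]
  simp only [hmul] at hi
  rw [lintegral_indicator_one (hC.inter hE)] at hi
  exact hi

/-- A hidden key is contained in an event of small probability. -/
theorem key_event (hKEYP : Pool.Agent.RelY.T_KEYP) {κ : ℕ} {x y : List Bool}
    (h0 : nn 0 ≤ lev κ (x ++ [true])) (hy : y.length = lev κ (x ++ [true])) :
    ∃ (C : Set Om) (F : Set Idx), F.Finite ∧ F ⊆ HIT_.pk κ (x ++ [true]) ∧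
      (∀ ω ω' : Om, (∀ a ∈ F, ω a = ω' a) → (ω ∈ C ↔ ω' ∈ C)) ∧
      (∀ ω : Om, zo ω κ (x ++ [true]) y = true → ω ∈ C) ∧
      coin C ≤ (2⁻¹ : ℝ≥0∞) ^ (lev κ (x ++ [true]) / 2) := by
  have hpow : ∀ n : ℕ, lev κ (x ++ [true]) / 2 ≤ n →
      (2⁻¹ : ℝ≥0∞) ^ n ≤ (2⁻¹ : ℝ≥0∞) ^ (lev κ (x ++ [true]) / 2) := fun n hn =>
    pow_le_pow_right_of_le_one' (ENNReal.inv_le_one.2 (by norm_num)) hn
  by_cases ht : Md.ty κ = 0
  · refine ⟨{ω : Om | ∀ a ∈ HIT_.kb κ (x ++ [true]), ω a = HIT_.kv y a},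
      (HIT_.kb κ (x ++ [true]) : Set Idx), Finset.finite_toSet _, fun a ha => ?_,
      fun ω ω' h => ?_, fun ω hz => HIT_.key_cyl ht hz, ?_⟩
    · obtain ⟨i, _, rfl⟩ := Finset.mem_image.1 (show a ∈ HIT_.kb κ (x ++ [true]) from ha)
      exact ⟨rfl, rfl, fun _ => ⟨Nat.succ_ne_zero i, by simp⟩⟩
    · show (∀ a ∈ HIT_.kb κ (x ++ [true]), ω a = HIT_.kv y a) ↔
        (∀ a ∈ HIT_.kb κ (x ++ [true]), ω' a = HIT_.kv y a)
      refine forall₂_congr fun a ha => ?_
      rw [h a ha]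
    · rw [HIT_.kb_coin]
      exact hpow _ (by omega)
  · refine ⟨K κ (x ++ [true]) y, kc κ (x ++ [true]), kc_fin κ _, fun a ha => ?_,
      fun ω ω' h => K_iff hy h, fun ω hz => HIT_.key_K ht hz, ?_⟩
    · exact ⟨ha.1, ha.2.1, fun e => absurd e (key_ne ha.2.2.1)⟩
    · exact hKEYP κ _ y h0 hy

open Classical in
/-- The input of the run of an accepted witness. -/
noncomputable def inp (v : NM) (x : List Bool) (O : Lang) : List Bool :=
  if h : acc O v x then pair x h.choose else []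

end FLP_

open FLP_ in
/-- Flipping a presence coin. -/
theorem p_FLP_of (hKEYP : Pool.Agent.RelY.T_KEYP) : T_FLP := by
  classical
  intro κ hκ j t η ω v ht hv
  obtain ⟨x, hx⟩ : ∃ x, x = str t := ⟨_, rfl⟩
  obtain ⟨a, ha⟩ : ∃ a : Idx, a = (κ, x, [], 0) := ⟨_, rfl⟩
  obtain ⟨B, hB⟩ : ∃ B, B = qbs (ms j) (str t).length := ⟨_, rfl⟩
  obtain ⟨L, hL⟩ : ∃ L, L = lev κ (x ++ [true]) := ⟨_, rfl⟩
  obtain ⟨T, hT⟩ : ∃ T, T = (x.length + 2) ^ v.2.2 := ⟨_, rfl⟩
  obtain ⟨q1, q2, q3⟩ := qb_small ht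
  rw [← hB] at q1 q2 q3
  -- sizes
  have hxl : nn j ≤ x.length := by
    rw [hx, Pool.Agent.RelM.strlen]
    have h1 := (Finset.mem_Ico.1 ht).1
    exact Nat.le_log_of_pow_le (by norm_num) (by omega)
  have hlev : ∀ c : Bool, nn j < lev κ (x ++ [c]) := by
    intro c
    have h1 := (levfin κ (x ++ [c]) _ le_rfl).2
    rw [List.length_append, List.length_singleton] at h1
    omega
  have hjL : nn j < L := by rw [hL]; exact hlev true
  have hTB : T ≤ B := by
    have h1 : T ≤ qb v x.length := by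
      rw [hT]
      unfold Pool.Agent.RelM.qb
      exact Nat.pow_le_pow_right (by omega) (by omega)
    have h2 := qb_vs (n := x.length) hv
    rw [hB, ← hx]
    exact h1.trans h2
  have hBL : B < 2 ^ L := q2.trans_le (Nat.pow_le_pow_right (by norm_num) hjL.le)
  have hnum : 2 * T ≤ 2 ^ (L / 2) := by
    have h1 : (2 * (B : ℝ)) ≤ 2 ^ (nn j / 2) := by
      refine le_trans ?_ q3
      have h2 : (0 : ℝ) ≤ 2 * B := by positivity
      have h3 : (0 : ℝ) ≤ j := by positivity
      nlinarith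
    have h2 : 2 * B ≤ 2 ^ (nn j / 2) := by exact_mod_cast h1
    have h3 : 2 ^ (nn j / 2) ≤ 2 ^ (L / 2) :=
      Nat.pow_le_pow_right (by norm_num) (Nat.div_le_div_right hjL.le)
    omega
  have hnn0 : nn 0 ≤ L := (nnmono.monotone (Nat.zero_le j)).trans hjL.le
  -- the coins
  have haO : a ∉ Old j := by
    intro h
    have h1 := h.2.2.2.2.1 (by rw [ha]) (by rw [ha])
    rw [ha] at h1
    have h2 := hlev false
    have h3 : lev κ (x ++ [false]) < nn j := h1
    omega
  have hpO : ∀ c ∈ HIT_.pk κ (x ++ [true]), c ∉ Old j := by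
    rintro c ⟨h1, h2, h3⟩ hc
    have h5 : lev c.1 c.2.1 = L := by rw [h1, h2, hL]
    by_cases h4 : c.2.2.1 = []
    · have h6 := hc.2.2.2.2.2.2.1 h4 (h3 h4).1 (by rw [h2]; exact (h3 h4).2)
      omega
    · have h6 := hc.2.2.2.2.2.2.2 h4
      omega
  have hap : a ∉ HIT_.pk κ (x ++ [true]) := by
    rintro ⟨_, _, h3⟩
    exact (h3 (by rw [ha])).1 (by rw [ha])
  -- the oracles
  obtain ⟨Oz, hOr⟩ : ∃ Oz : Bool → Om → Lang, Oz = fun b τ => oh η (sb j ω a b τ) := ⟨_, rfl⟩
  have hOr' : ∀ b τ, Oz b τ = orc (bitsOf η) (zo (sb j ω a b τ)) := fun b τ => by rw [hOr]; rfl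
  obtain ⟨Ot, hOt⟩ : ∃ Ot : Om → Lang, Ot = fun τ q =>
      if q.length ≤ B then Oz false τ q else false := ⟨_, rfl⟩
  have hOtq : ∀ τ (q : List Bool), q.length ≤ B → Ot τ q = Oz false τ q := by
    intro τ q hq
    rw [hOt]
    show (if q.length ≤ B then Oz false τ q else false) = _
    rw [if_pos hq]
  have hqB : ∀ q : List Bool, q.length ≤ qb v x.length → q.length ≤ B := by
    intro q hq
    rw [hB, ← hx]
    exact hq.trans (qb_vs hv)
  have hsb : ∀ (b : Bool) (τ τ' : Om) (c : Idx), (c ≠ a → c ∉ Old j → τ c = τ' c) →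
      sb j ω a b τ c = sb j ω a b τ' c := by
    intro b τ τ' c h
    by_cases h1 : c = a
    · rw [h1, sb_self, sb_self]
    · rw [sb_ne b τ h1, sb_ne b τ' h1]
      by_cases h2 : c ∈ Old j
      · rw [mixP_pos h2, mixP_pos h2]
      · rw [mixP_neg h2, mixP_neg h2]
        exact h h1 h2
  -- the events
  obtain ⟨E, hE⟩ : ∃ E : Bool → Set Om, E = fun b => {τ | acc (Oz b τ) v x} := ⟨_, rfl⟩
  have hEm : ∀ b τ, τ ∈ E b ↔ acc (Oz b τ) v x := fun b τ => by rw [hE]; rfl
  have hEdep : ∀ b (τ τ' : Om), (∀ c ∈ Old (j + 1), c ≠ a → τ c = τ' c) →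
      (τ ∈ E b ↔ τ' ∈ E b) := by
    intro b τ τ' h
    rw [hEm, hEm, hOr', hOr', hx]
    refine acc_stage ht (fun _ _ => rfl) (fun κ' x' y' h1 h2 => ?_) hv
    exact zo_old (fun c hc => hsb b τ τ' c fun h3 _ => h c hc h3) h1 h2
  have hEmeas : ∀ b, MeasurableSet (E b) := fun b =>
    fd (oldfin (j + 1)) fun τ τ' h => hEdep b τ τ' fun c hc _ => h c hc
  have hEc : ∀ b (τ τ' : Om), (∀ c ∈ ({a} : Set Idx)ᶜ, τ c = τ' c) → (τ ∈ E b ↔ τ' ∈ E b) :=
    fun b τ τ' h => hEdep b τ τ' fun c _ hc => h c hc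
  have hOtdep : ∀ τ τ' : Om, (∀ c ∈ Old (j + 1), c ∉ HIT_.pk κ (x ++ [true]) → τ c = τ' c) →
      Ot τ = Ot τ' := by
    intro τ τ' h
    funext q
    by_cases hq : q.length ≤ B
    · rw [hOtq τ q hq, hOtq τ' q hq, hOr', hOr']
      refine orc_loc ht (fun _ _ => rfl) (fun κ' x' y' h1 h2 => ?_) (by rw [← hB]; exact hq)
      by_cases h3 : κ' = κ ∧ x' = x ++ [true]
      · obtain ⟨rfl, rfl⟩ := h3
        rw [zo_off (by rw [← ha]; exact sb_self j ω a false τ),
          zo_off (by rw [← ha]; exact sb_self j ω a false τ')]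
      · exact zo_agree hκ (fun c hc _ hcp => hsb false τ τ' c fun _ _ => h c hc hcp) h1 h2 h3
    · rw [hOt]
      show (if q.length ≤ B then Oz false τ q else false) =
        (if q.length ≤ B then Oz false τ' q else false)
      rw [if_neg hq, if_neg hq]
  obtain ⟨A, hA⟩ : ∃ A : ℕ → List Bool → Set Om, A = fun s y =>
      {τ | Asks (Ot τ) v.1 (inp v x (Ot τ)) s (wq κ (x ++ [true]) y)} := ⟨_, rfl⟩
  have hAm : ∀ s y τ, τ ∈ A s y ↔
      Asks (Ot τ) v.1 (inp v x (Ot τ)) s (wq κ (x ++ [true]) y) := fun s y τ => by rw [hA]; rfl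
  have hAdep : ∀ s y (τ τ' : Om),
      (∀ c ∈ Old (j + 1), c ∉ HIT_.pk κ (x ++ [true]) → τ c = τ' c) →
      (τ ∈ A s y ↔ τ' ∈ A s y) := by
    intro s y τ τ' h
    rw [hAm, hAm, hOtdep τ τ' h]
  have hAmeas : ∀ s y, MeasurableSet (A s y) := fun s y =>
    fd (oldfin (j + 1)) fun τ τ' h => hAdep s y τ τ' fun c hc _ => h c hc
  have hdisj : ∀ s, Pairwise (Function.onFun Disjoint (A s)) := by
    intro s y y' hyy
    rw [Function.onFun, Set.disjoint_left]
    intro τ h1 h2
    rw [hAm] at h1 h2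
    exact hyy (Pool.Agent.RelM.HitJob.wq_inj' (Pool.Agent.RelM.one _ _ _ _ _ _ h1 h2)).2.2
  -- one key
  have hone : ∀ s y, coin (A s y ∩ {τ | y.length = L ∧
      zo (sb j ω a true τ) κ (x ++ [true]) y = true}) ≤
      (2⁻¹ : ℝ≥0∞) ^ (L / 2) * coin (A s y) := by
    intro s y
    by_cases hy : y.length = L
    swap
    · have h1 : A s y ∩ {τ | y.length = L ∧
          zo (sb j ω a true τ) κ (x ++ [true]) y = true} = ∅ := by
        ext τ
        constructor
        · intro h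
          exact (hy h.2.1).elim
        · intro h
          exact h.elim
      rw [h1, measure_empty]
      exact zero_le
    rw [hL] at hy
    obtain ⟨C, F, hF, hFp, hCiff, hz, hCc⟩ := key_event hKEYP (by rw [← hL]; exact hnn0) hy
    have h1 : A s y ∩ {τ | y.length = L ∧
        zo (sb j ω a true τ) κ (x ++ [true]) y = true} ⊆ C ∩ A s y := by
      rintro τ ⟨h2, -, h3⟩
      refine ⟨?_, h2⟩
      refine (hCiff _ _ fun c hc => ?_).1 (hz _ h3)
      have h4 := hFp hc
      have h5 : c ≠ a := fun e => hap (e ▸ h4)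
      rw [sb_ne true τ h5, mixP_neg (hpO c h4)]
    refine (measure_mono h1).trans ?_
    rw [inter_mul (p := HIT_.pk κ (x ++ [true])) (fd hF hCiff) (hAmeas s y)
      (fun τ τ' h => hCiff τ τ' fun c hc => h c (hFp hc))
      (fun τ τ' h => hAdep s y τ τ' fun c _ hc => h c hc)]
    rw [hL]
    exact mul_le_mul' hCc le_rfl
  -- the bad event
  have hsub : E false \ E true ⊆ ⋃ s ∈ Finset.range T, ⋃ y : List Bool,
      (A s y ∩ {τ | y.length = L ∧ zo (sb j ω a true τ) κ (x ++ [true]) y = true}) := by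
    rintro τ ⟨h0, h1⟩
    by_contra hcon
    simp only [Set.mem_iUnion, Finset.mem_range, not_exists, exists_prop, not_and] at hcon
    apply h1
    rw [hEm] at h0 ⊢
    have h2 : acc (Ot τ) v x := by
      obtain ⟨y, hy⟩ := h0
      exact ⟨y, (accw_congr fun q hq => hOtq τ q (hqB q hq)).2 hy⟩
    have hin : inp v x (Ot τ) = pair x h2.choose := by
      unfold inp
      rw [dif_pos h2]
    obtain ⟨hy1, hy2⟩ := h2.choose_spec
    refine ⟨h2.choose, hy1, ?_⟩
    have hloc := Pool.Agent.RelM.loc (Ot τ) (Oz true τ) v.1 (pair x h2.choose)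
      ((x.length + 2) ^ v.2.2) (fun s hs q hq => ?_) _ le_rfl
    · rw [hloc]
      exact hy2
    · have hql := hqB q (ask_len hy1 hs hq)
      rw [hOtq τ q hql]
      by_contra hne
      rw [hOr', hOr'] at hne
      obtain ⟨y, hyl, hqy, hz⟩ := differ hκ (bitsOf η) (σ := sb j ω a true τ)
        (σ' := sb j ω a false τ) (fun c hc => by
          rw [← ha] at hc
          rw [sb_ne true τ hc, sb_ne false τ hc])
        (by rw [← ha]; exact sb_self j ω a false τ)
        (lt_of_le_of_lt hql (by rw [← hL]; exact hBL)) hne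
      refine hcon s (by rw [hT]; exact hs) y ⟨?_, by rw [hL]; exact hyl, hz⟩
      rw [hAm, hin, ← hqy]
      exact hq
  have hbad : coin (E false \ E true) ≤ 2⁻¹ := by
    calc coin (E false \ E true)
        ≤ coin (⋃ s ∈ Finset.range T, ⋃ y : List Bool, (A s y ∩ {τ | y.length = L ∧
          zo (sb j ω a true τ) κ (x ++ [true]) y = true})) := measure_mono hsub
      _ ≤ ∑ s ∈ Finset.range T, coin (⋃ y : List Bool, (A s y ∩ {τ | y.length = L ∧
          zo (sb j ω a true τ) κ (x ++ [true]) y = true})) :=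
          measure_biUnion_finset_le _ _
      _ ≤ ∑ _s ∈ Finset.range T, (2⁻¹ : ℝ≥0∞) ^ (L / 2) := by
          refine Finset.sum_le_sum fun s _ => ?_
          calc coin (⋃ y : List Bool, (A s y ∩ {τ | y.length = L ∧
                zo (sb j ω a true τ) κ (x ++ [true]) y = true}))
              ≤ ∑' y : List Bool, coin (A s y ∩ {τ | y.length = L ∧
                zo (sb j ω a true τ) κ (x ++ [true]) y = true}) := measure_iUnion_le _
            _ ≤ ∑' y, (2⁻¹ : ℝ≥0∞) ^ (L / 2) * coin (A s y) :=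
                ENNReal.tsum_le_tsum fun y => hone s y
            _ = (2⁻¹ : ℝ≥0∞) ^ (L / 2) * coin (⋃ y, A s y) := by
                rw [ENNReal.tsum_mul_left, measure_iUnion (hdisj s) fun y => hAmeas s y]
            _ ≤ (2⁻¹ : ℝ≥0∞) ^ (L / 2) * 1 := by
                gcongr
                exact prob_le_one
            _ = (2⁻¹ : ℝ≥0∞) ^ (L / 2) := mul_one _
      _ = T * (2⁻¹ : ℝ≥0∞) ^ (L / 2) := by
          rw [Finset.sum_const, Finset.card_range, nsmul_eq_mul]
      _ ≤ 2⁻¹ := by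
          have h1 : ((2 * T : ℕ) : ℝ≥0∞) ≤ ((2 ^ (L / 2) : ℕ) : ℝ≥0∞) := by exact_mod_cast hnum
          have h2 : (2 : ℝ≥0∞)⁻¹ * 2 = 1 := ENNReal.inv_mul_cancel (by norm_num) (by norm_num)
          have h3 : (2 : ℝ≥0∞) ^ (L / 2) * (2⁻¹ : ℝ≥0∞) ^ (L / 2) = 1 := by
            rw [← mul_pow, ENNReal.mul_inv_cancel (by norm_num) (by norm_num), one_pow]
          push_cast at h1
          calc (T : ℝ≥0∞) * (2⁻¹ : ℝ≥0∞) ^ (L / 2)
              = 2⁻¹ * (2 * T) * (2⁻¹ : ℝ≥0∞) ^ (L / 2) := by rw [← mul_assoc, h2, one_mul]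
            _ ≤ 2⁻¹ * 2 ^ (L / 2) * (2⁻¹ : ℝ≥0∞) ^ (L / 2) := by gcongr
            _ = 2⁻¹ := by rw [mul_assoc, h3, mul_one]
  -- the conclusion
  have hfair : ∀ b : Bool, coin {τ : Om | τ a = b} = 2⁻¹ := fun b =>
    coin_fair (by rw [ha]) b
  have hsplit : {τ | acc (oh η (mixP (Old j) ω τ)) v (str t) ↔
      Hl κ (mixP (Old j) ω τ) (str t) = false} ⊆
      ({τ : Om | τ a = false} ∩ E false) ∪ ({τ : Om | τ a = true} ∩ (E true)ᶜ) := by
    intro τ hτ
    have h1 : Hl κ (mixP (Old j) ω τ) (str t) = τ a := by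
      show mixP (Old j) ω τ (κ, str t, [], 0) = τ a
      rw [← hx, ← ha, mixP_neg haO]
    have h2 : ∀ b, τ a = b → sb j ω a b τ = mixP (Old j) ω τ := by
      intro b hb
      unfold sb
      rw [Function.update_eq_self_iff, mixP_neg haO]
      exact hb.symm
    have hτ' : acc (oh η (mixP (Old j) ω τ)) v (str t) ↔
      Hl κ (mixP (Old j) ω τ) (str t) = false := hτ
    rw [h1, ← hx] at hτ'
    cases hb : τ a with
    | false =>
      left
      refine ⟨hb, ?_⟩
      rw [hEm, hOr]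
      show acc (oh η (sb j ω a false τ)) v x
      rw [h2 false hb]
      exact hτ'.2 hb
    | true =>
      right
      refine ⟨hb, fun h3 => ?_⟩
      rw [hEm, hOr] at h3
      have h4 : acc (oh η (sb j ω a true τ)) v x := h3
      rw [h2 true hb] at h4
      rw [hτ'.1 h4] at hb
      exact absurd hb (by simp)
  have hsing : ∀ b : Bool, MeasurableSet {τ : Om | τ a = b} := fun b =>
    fd (Set.finite_singleton a) fun τ τ' h => by
      show τ a = b ↔ τ' a = b
      rw [h a rfl]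
  have hsd : ∀ (b : Bool) (τ τ' : Om), (∀ c ∈ ({a} : Set Idx), τ c = τ' c) →
      (τ ∈ {τ : Om | τ a = b} ↔ τ' ∈ {τ : Om | τ a = b}) := by
    intro b τ τ' h
    show τ a = b ↔ τ' a = b
    rw [h a rfl]
  have hm0 := inter_mul (p := {a}) (hsing false) (hEmeas false) (hsd false) (hEc false)
  have hm1 := inter_mul (p := {a}) (hsing true) (hEmeas true).compl (hsd true)
    (fun τ τ' h => not_congr (hEc true τ τ' h))
  rw [hfair] at hm0 hm1
  have r0 : coin.real ({τ : Om | τ a = false} ∩ E false) = 1 / 2 * coin.real (E false) := by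
    unfold Measure.real
    rw [hm0, ENNReal.toReal_mul, ENNReal.toReal_inv, ENNReal.toReal_ofNat]
    norm_num
  have r1 : coin.real ({τ : Om | τ a = true} ∩ (E true)ᶜ) =
      1 / 2 * (1 - coin.real (E true)) := by
    rw [← probReal_compl_eq_one_sub (hEmeas true)]
    unfold Measure.real
    rw [hm1, ENNReal.toReal_mul, ENNReal.toReal_inv, ENNReal.toReal_ofNat]
    norm_num
  have r2 : coin.real (E false \ E true) ≤ 1 / 2 := by
    unfold Measure.real
    refine (ENNReal.toReal_mono (by norm_num) hbad).trans (le_of_eq ?_)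
    rw [ENNReal.toReal_inv, ENNReal.toReal_ofNat]
    norm_num
  have r3 : coin.real (E false) ≤ coin.real (E true) + coin.real (E false \ E true) := by
    have h1 : E false ⊆ E true ∪ (E false \ E true) := by
      intro τ h
      by_cases h2 : τ ∈ E true
      · exact Or.inl h2
      · exact Or.inr ⟨h, h2⟩
    exact (measureReal_mono h1).trans (measureReal_union_le _ _)
  have r4 := (measureReal_mono (μ := coin) hsplit).trans (measureReal_union_le _ _)
  rw [r0, r1] at r4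
  linarith

end Pool.Agent.RelK
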