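import Pool.Agent.RelK.Targets5
import Pool.Agent.RelK.P_SUC

/-!
# NIN: the complement of a hidden language of presence type is not in `NP`
-/

set_option autoImplicit false

namespace Pool.Agent.RelK

open MeasureTheory Set
open scoped ENNReal
open Pool.Agent.RelM (Lang str NP)
open Pool.Agent.RelO (st)
open Pool.Agent.RelS (acc Idx Om mixP fd mixP_pos)
open Pool.Agent.RelU (NM)
open Pool.Agent.RelY (nn coin Wd Hl)

variable [Md]

namespace NIN_

omit [Md] in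
theorem t_mem {j : ℕ} (hj : 1 ≤ j) : 2 ^ nn j ∈ Wd j := by
  unfold Wd
  rw [Finset.mem_Ico]
  exact ⟨le_rfl, Nat.pow_lt_pow_right (by norm_num) (by omega)⟩

/-- The machine of stage `j` decides the complement at the first word of the stage. -/
def Ev (κ j : ℕ) : Set Om :=
  {ω | Tr j (2 ^ nn j) ω ↔ Hl κ ω (str (2 ^ nn j)) = false}

theorem ev_meas (κ : ℕ) {j : ℕ} (hj : 1 ≤ j) : MeasurableSet (Ev κ j) := by
  refine fd ((oldfin (j + 1)).union (Set.finite_singleton ((κ, str (2 ^ nn j), [], 0) : Idx)))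
    fun ω ω' h => ?_
  have h1 : Tr j (2 ^ nn j) ω ↔ Tr j (2 ^ nn j) ω' :=
    SUC_.tr_dep (t_mem hj) fun a ha => h a (Or.inl ha)
  have h2 : Hl κ ω (str (2 ^ nn j)) = Hl κ ω' (str (2 ^ nn j)) := h _ (Or.inr rfl)
  unfold Ev
  simp only [Set.mem_ofPred_eq]
  rw [h1, h2]

/-- The machine number `e` decides the complement at all these words. -/
def SS_ (κ e : ℕ) : Set Om :=
  ⋂ (j : ℕ) (_ : 1 ≤ j) (_ : st j = e), Ev κ j

theorem ss_meas (κ e : ℕ) : MeasurableSet (SS_ κ e) :=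
  MeasurableSet.iInter fun _ => MeasurableSet.iInter fun hj => MeasurableSet.iInter fun _ =>
    ev_meas κ hj

theorem ss_mem {κ e : ℕ} {ω : Om} :
    ω ∈ SS_ κ e ↔ ∀ j, 1 ≤ j → st j = e → ω ∈ Ev κ j := by
  unfold SS_
  simp only [Set.mem_iInter]

theorem ss_null (hFLP : T_FLP) (hDNS : T_DNS) {κ : ℕ} (hκ : Md.ty κ ≠ 1) (e : ℕ) :
    coin (SS_ κ e) = 0 := by
  by_contra hne
  obtain ⟨j, hj, hst, ω, hω⟩ := hDNS (SS_ κ e) (ss_meas κ e) hne (1 / 8) (by norm_num) e 1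
  have h0 : ∀ τ, ∀ a ∈ Old j, mixP (Old j) ω τ a = ω a := fun τ a ha => mixP_pos ha
  have h1 := hFLP κ hκ j (2 ^ nn j) (hs ω j) ω (pc (st j)).1 (t_mem hj) (by
    unfold vs
    exact List.mem_cons_self)
  have h8 : (Set.univ : Set Om) ⊆ {τ | mixP (Old j) ω τ ∉ SS_ κ e} ∪
      {τ | acc (oh (hs ω j) (mixP (Old j) ω τ)) (pc (st j)).1 (str (2 ^ nn j)) ↔
        Hl κ (mixP (Old j) ω τ) (str (2 ^ nn j)) = false} := by
    intro τ _
    by_cases h : mixP (Old j) ω τ ∈ SS_ κ e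
    · right
      have h2 : Tr j (2 ^ nn j) (mixP (Old j) ω τ) ↔
          Hl κ (mixP (Old j) ω τ) (str (2 ^ nn j)) = false := ss_mem.1 h j hj hst
      rw [(SUC_.truth_iff _ (t_mem hj)).1, SUC_.hs_congr (h0 τ)] at h2
      exact h2
    · exact Or.inl h
  have h9 := measureReal_mono (μ := coin) h8
  have h10 := measureReal_union_le (μ := coin) {τ | mixP (Old j) ω τ ∉ SS_ κ e}
    {τ | acc (oh (hs ω j) (mixP (Old j) ω τ)) (pc (st j)).1 (str (2 ^ nn j)) ↔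
      Hl κ (mixP (Old j) ω τ) (str (2 ^ nn j)) = false}
  have h11 : coin.real (Set.univ : Set Om) = 1 := probReal_univ
  linarith

omit [Md] in
theorem np_mach {O A : Lang} (h : A ∈ NP O) : ∃ v : NM, ∀ x, A x = true ↔ acc O v x := by
  obtain ⟨P, j, k, h1⟩ := h
  exact ⟨(P, j, k), fun x => (h1 x).2⟩

end NIN_

open NIN_

theorem p_NIN_of (hFLP : T_FLP) (hDNS : T_DNS) : T_NIN := by
  intro κ hκ
  have h1 : ∀ᵐ ω ∂coin, ∀ e : ℕ, ω ∉ SS_ κ e := by
    rw [ae_all_iff]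
    intro e
    rw [ae_iff]
    have h2 : {ω | ¬ ω ∉ SS_ κ e} = SS_ κ e := by
      ext ω
      simp
    rw [h2]
    exact ss_null hFLP hDNS hκ e
  filter_upwards [h1] with ω hω hNP
  obtain ⟨v, hv⟩ := np_mach hNP
  obtain ⟨e, he⟩ := pc_surj (v, v)
  refine hω e (ss_mem.2 fun j _ hst => ?_)
  show Tr j (2 ^ nn j) ω ↔ Hl κ ω (str (2 ^ nn j)) = false
  unfold Tr
  rw [hst, he, ← hv (str (2 ^ nn j))]
  cases Hl κ ω (str (2 ^ nn j)) <;> simp

end Pool.Agent.RelK
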