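import Pool.Agent.RelK.Targets5
import Pool.Agent.RelK.P_NONB

/-!
# The hidden language and its complement have no null cover (job NONX of RelK)
-/

set_option autoImplicit false

namespace Pool.Agent.RelK

open MeasureTheory Set
open scoped ENNReal
open Pool.Agent.RelM (Lang Instr Cfg step run Halts triple outVal Approx str pre IsDensity
  IsNullCover)
open Pool.Agent.RelO (lev proc levmono levfin)
open Pool.Agent.RelS (Z Rl Idx Om Dep meas_of_dep ovis)
open Pool.Agent.RelT (Fast)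
open Pool.Agent.RelY (nn jj coin kk op bl SS Hl jjspec jj_le key_ne kk_le op_le op_congr)
open Pool.Agent.RelY.NONB_ (pre_length pre_succ triple_length lev_mono lev_ge bl_mono start bl_succ
  hitsum dens_step dens_pre ee ee_sum)
open Pool.Agent.RelK.NONB_ (vis_mono visfin ov_dep val)

variable [Md]

namespace NONX_

/-! ### The language -/

/-- The hidden language or its complement. -/
def RR (cb : Bool) (κ : ℕ) (ω : Om) : Lang := fun x => xor cb (Hl κ ω x)

/-- The input. -/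
noncomputable def inp (cb : Bool) (κ k r t : ℕ) (e : List Bool) (ω : Om) : List Bool :=
  triple k r (pre (RR cb κ ω) t ++ e)

omit [Md] in
theorem inp_length (cb : Bool) (κ k r t : ℕ) (e : List Bool) (ω : Om) :
    (inp cb κ k r t e ω).length = k + r + (t + e.length) + 2 := by
  unfold inp
  rw [triple_length, List.length_append, pre_length]

theorem bit_dep (cb : Bool) (κ : ℕ) {s t : ℕ} (h : s < t) :
    Dep (Vis κ t) fun ω => RR cb κ ω (str s) := by
  intro ω ω' hω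
  suffices h0 : ω (κ, str s, [], 0) = ω' (κ, str s, [], 0) by
    show xor cb (ω (κ, str s, [], 0)) = xor cb (ω' (κ, str s, [], 0))
    rw [h0]
  refine hω _ ⟨?_, ?_, ?_, ?_⟩
  · have e1 := lev_mono κ h.le false false
    have e2 : lev κ (str t ++ [false]) < nn (bl κ (str t)) :=
      (jjspec (lev κ (str t ++ [false]))).1
    have e3 := old_sgn (j := bl κ (str t)) (κ := κ) (x := str s ++ [false]) (by simp) (by omega)
    rwa [List.dropLast_concat] at e3
  · rintro ⟨_, _, _, t', ht', h2⟩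
    have := Pool.Agent.RelM.strinj h2
    omega
  · rintro ⟨_, _, h1, _⟩
    exact h1 rfl
  · rintro ⟨_, h1, _⟩
    exact h1 rfl

theorem inp_dep (cb : Bool) (κ : ℕ) (k r t : ℕ) (e : List Bool) :
    Dep (Vis κ t) (inp cb κ k r t e) := by
  intro ω ω' hω
  unfold inp
  have h1 : pre (RR cb κ ω) t = pre (RR cb κ ω') t := by
    unfold pre
    refine List.map_congr_left fun i hi => ?_
    exact bit_dep cb κ (List.mem_range.mp hi) ω ω' hω
  rw [h1]

theorem val_dep (cb : Bool) (κ : ℕ) (t : ℕ)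
    (h0 : nn 0 ≤ lev κ (str t ++ [false])) (Pr : List Instr) (T : ℕ → ℕ)
    (k r : ℕ) (e : List Bool) :
    Dep (Vis κ t) fun ω => val κ t Pr T (inp cb κ k r t e ω) ω := by
  intro ω ω' hω
  show val κ t Pr T (inp cb κ k r t e ω) ω = val κ t Pr T (inp cb κ k r t e ω') ω'
  unfold val
  rw [ov_dep κ t h0 hω, inp_dep cb κ k r t e ω ω' hω]

/-! ### Hits -/

/-- The event that hiding changes a run. -/
def Hit (cb : Bool) (κ : ℕ) (Pr : List Instr) (T : ℕ → ℕ) (k r t : ℕ) (e : List Bool) : Set Om :=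
  {ω | ∃ s ≤ T (inp cb κ k r t e ω).length, run (oo ω) Pr (inp cb κ k r t e ω) s ≠
    run (ov κ t ω) Pr (inp cb κ k r t e ω) s}

theorem hit_bound (cb : Bool) (hHIT : T_HIT) (κ : ℕ) (Pr : List Instr)
    (T : ℕ → ℕ) (c k r t : ℕ) (e : List Bool) (h0 : nn 0 ≤ lev κ (str t ++ [false]))
    (hB : ∀ l, l ≤ c * (t + 1) →
      l + T l < 2 ^ lev κ (str t ++ [false]) ∧
        4 * (t + 1) ^ 2 * T l ≤ 2 ^ (lev κ (str t ++ [false]) / 2))
    (hlen : k + r + (t + e.length) + 2 ≤ c * (t + 1)) :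
    coin (Hit cb κ Pr T k r t e) ≤ ENNReal.ofReal (1 / ((t : ℝ) + 1) ^ 2) := by
  set l : ℕ := k + r + (t + e.length) + 2 with hl
  have hlenI : ∀ ω, (inp cb κ k r t e ω).length = l := fun ω => inp_length cb κ k r t e ω
  obtain ⟨hB1, hB2⟩ := hB l hlen
  have hhit := hHIT κ t Pr (inp cb κ k r t e) (T l) h0
    (inp_dep cb κ k r t e) (fun ω => by rw [hlenI]; exact hB1)
  unfold Hit
  simp only [hlenI]
  refine hhit.trans ?_
  set L := lev κ (str t ++ [false]) / 2 with hL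
  have h3 : (T l : ℝ≥0∞) * (2⁻¹ : ℝ≥0∞) ^ L = ENNReal.ofReal ((T l : ℝ) * (1 / 2) ^ L) := by
    rw [ENNReal.ofReal_mul (by positivity), ENNReal.ofReal_pow (by positivity)]
    congr 1
    · simp
    · congr 1
      rw [one_div, ENNReal.ofReal_inv_of_pos (by norm_num)]
      simp
  rw [h3]
  apply ENNReal.ofReal_le_ofReal
  have h4 : (4 : ℝ) * ((t : ℝ) + 1) ^ 2 * (T l : ℝ) ≤ 2 ^ L := by exact_mod_cast hB2
  have h5 : (0 : ℝ) < ((t : ℝ) + 1) ^ 2 := by positivity
  rw [le_div_iff₀ h5, one_div_pow]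
  have h6 : (0 : ℝ) < 2 ^ L := by positivity
  have h7 : (T l : ℝ) * (1 / 2 ^ L) * ((t : ℝ) + 1) ^ 2 =
      ((T l : ℝ) * ((t : ℝ) + 1) ^ 2) / 2 ^ L := by ring
  rw [h7, div_le_one h6]
  nlinarith [mul_nonneg (by positivity : (0 : ℝ) ≤ T l) h5.le]

theorem val_close {cb : Bool} {κ : ℕ} {Pr : List Instr} {T : ℕ → ℕ} {ω : Om}
    {d : ℕ → List Bool → ℝ} (hd : ∀ k w, 0 ≤ d k w) (hA : Approx (oo ω) Pr T d)
    (k r t : ℕ) (e : List Bool) (hh : ω ∉ Hit cb κ Pr T k r t e) :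
    |val κ t Pr T (inp cb κ k r t e ω) ω - d k (pre (RR cb κ ω) t ++ e)| ≤
      (1 / 2 : ℝ) ^ r := by
  have h1 : run (oo ω) Pr (inp cb κ k r t e ω) (T (inp cb κ k r t e ω).length) =
      run (ov κ t ω) Pr (inp cb κ k r t e ω) (T (inp cb κ k r t e ω).length) := by
    by_contra hne
    exact hh ⟨_, le_rfl, hne⟩
  have h3 : |outVal (run (oo ω) Pr (inp cb κ k r t e ω)
      (T (inp cb κ k r t e ω).length)) - d k (pre (RR cb κ ω) t ++ e)|
      ≤ (1 / 2 : ℝ) ^ r := (hA k r (pre (RR cb κ ω) t ++ e)).2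
  rw [h1] at h3
  have h4 : 0 ≤ d k (pre (RR cb κ ω) t ++ e) := hd k _
  unfold val
  have h5 := abs_abs_sub_abs_le (outVal (run (ov κ t ω) Pr (inp cb κ k r t e ω)
    (T (inp cb κ k r t e ω).length))) (d k (pre (RR cb κ ω) t ++ e))
  rw [abs_of_nonneg h4] at h5
  exact h5.trans h3

/-! ### The processes -/

/-- The values at time `i + 1`. -/
noncomputable def XX (cb : Bool) (κ : ℕ) (Pr : List Instr) (T : ℕ → ℕ) (j i : ℕ) (b : Bool)
    (ω : Om) : ℝ :=
  val κ (j + i) Pr T (inp cb κ (2 * j) (j + i + 1 + 2 * j + 3) (j + i) [b] ω) ω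

/-- The value at time `0`. -/
noncomputable def YY (cb : Bool) (κ : ℕ) (Pr : List Instr) (T : ℕ → ℕ) (j : ℕ) (ω : Om) : ℝ :=
  val κ j Pr T (inp cb κ (2 * j) (j + 2 * j + 3) j [] ω) ω

/-- The bits. -/
noncomputable def bb (cb : Bool) (κ j i : ℕ) (ω : Om) : Bool := RR cb κ ω (str (j + i))

/-- The event that a gambler wins. -/
def Win (cb : Bool) (κ : ℕ) (Pr : List Instr) (T : ℕ → ℕ) (j : ℕ) : Set Om :=
  {ω | YY cb κ Pr T j ω ≤ 2 * (1 / 2 : ℝ) ^ j ∧
    (∀ i, 1 / 2 * XX cb κ Pr T j i false ω + (1 - 1 / 2) * XX cb κ Pr T j i true ω ≤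
      proc (bb cb κ j) (XX cb κ Pr T j) (YY cb κ Pr T j) i ω + ee j i) ∧
    ∃ i, 1 / 2 ≤ proc (bb cb κ j) (XX cb κ Pr T j) (YY cb κ Pr T j) i ω}

omit [Md] in
theorem fair (hF : T_FAIR) (cb : Bool) (κ t : ℕ) (H : Om → ℝ≥0∞) (b : Bool)
    (h0 : nn 0 ≤ lev κ (str t ++ [false])) (hH : Measurable H) (hHd : Dep (Vis κ t) H) :
    ∫⁻ ω in {ω | RR cb κ ω (str t) = b}, H ω ∂coin = 2⁻¹ * ∫⁻ ω, H ω ∂coin := by
  have hs : {ω : Om | RR cb κ ω (str t) = b} = {ω : Om | Hl κ ω (str t) = xor cb b} := by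
    ext ω
    show (xor cb (Hl κ ω (str t)) = b) ↔ (Hl κ ω (str t) = xor cb b)
    cases cb <;> cases b <;> cases Hl κ ω (str t) <;> simp
  rw [hs]
  exact hF κ t H (xor cb b) h0 hH hHd

theorem cross_bound (hF : T_FAIR) (cb : Bool) {κ : ℕ}
    (Pr : List Instr) (T : ℕ → ℕ) (j : ℕ)
    (h0 : ∀ t, j ≤ t → nn 0 ≤ lev κ (str t ++ [false])) :
    coin (Win cb κ Pr T j) ≤ ENNReal.ofReal (6 * (1 / 2 : ℝ) ^ j) := by
  obtain ⟨hs1, hs2⟩ := ee_sum j
  have hXd : ∀ i b, Dep (Vis κ (j + i)) (XX cb κ Pr T j i b) := fun i b =>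
    val_dep cb κ (j + i) (h0 _ (by omega)) Pr T _ _ _
  have hYd : Dep (Vis κ j) (YY cb κ Pr T j) :=
    val_dep cb κ j (h0 _ le_rfl) Pr T _ _ _
  have hfin : ∀ t, (Vis κ t).Finite := visfin κ
  have hc := Pool.Agent.RelT.cross coin (bb cb κ j) (XX cb κ Pr T j) (YY cb κ Pr T j)
    (fun _ _ => 1 / 2) (fun t ω ω' => ∀ a ∈ Vis κ (j + t), ω a = ω' a) (ee j)
    (2 * (1 / 2 : ℝ) ^ j)
    (fun t => meas_of_dep (hfin (j + t + 1))
      (bit_dep cb κ (Nat.lt_succ_self (j + t))))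
    (fun t i => meas_of_dep (hfin _) (hXd t i)) (meas_of_dep (hfin _) hYd)
    (fun _ => measurable_const)
    (fun t ω ω' h => hYd ω ω' fun a ha => h a (vis_mono κ (by omega) ha))
    (fun s t hst ω ω' h => bit_dep cb κ (by omega : j + s < j + t) ω ω' h)
    (fun s t hst i ω ω' h => hXd s i ω ω' fun a ha => h a (vis_mono κ (by omega) ha))
    (fun _ _ _ _ _ _ => rfl) (fun _ _ => by norm_num) (fun _ _ => by norm_num)
    ?_ (fun t i ω => abs_nonneg _) (fun ω => abs_nonneg _)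
    (fun t => by unfold ee; positivity) hs1 (by positivity)
  · refine hc.trans ?_
    apply ENNReal.ofReal_le_ofReal
    linarith
  · intro t H hH hHd
    have h1 := fair hF cb κ (j + t) H false (h0 _ (by omega)) hH hHd
    have h2 := fair hF cb κ (j + t) H true (h0 _ (by omega)) hH hHd
    have h3 : ENNReal.ofReal (1 / 2) = 2⁻¹ := by
      rw [one_div, ENNReal.ofReal_inv_of_pos (by norm_num)]
      norm_num
    have h4 : ENNReal.ofReal (1 - 1 / 2) = 2⁻¹ := by
      rw [show (1 : ℝ) - 1 / 2 = 1 / 2 by norm_num, h3]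
    constructor
    · rw [h3, lintegral_const_mul _ hH]
      exact h1.le
    · rw [h4, lintegral_const_mul _ hH]
      exact h2.le

theorem incl (cb : Bool) (κ : ℕ) (Pr : List Instr) (T : ℕ → ℕ) (j : ℕ) (hj : 1 ≤ j) :
    {ω | ∃ d : ℕ → List Bool → ℝ, IsNullCover d {fun x => xor cb (Hl κ ω x)} ∧
      Approx (oo ω) Pr T d} ⊆
    Win cb κ Pr T j ∪
    (Hit cb κ Pr T (2 * j) (j + 2 * j + 3) j [] ∪
      ((⋃ i, Hit cb κ Pr T (2 * j) (j + i + 1 + 2 * j + 3) (j + i) [false]) ∪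
        ⋃ i, Hit cb κ Pr T (2 * j) (j + i + 1 + 2 * j + 3) (j + i) [true])) := by
  rintro ω ⟨d, hN, hA⟩
  by_contra hcon
  rw [Set.mem_union, Set.mem_union, Set.mem_union, Set.mem_iUnion, Set.mem_iUnion] at hcon
  push Not at hcon
  obtain ⟨hcr, hY, hF, hT⟩ := hcon
  apply hcr
  have hd : ∀ k, IsDensity (d k) := fun k => (hN k).1
  have hdn0 : ∀ k w, 0 ≤ d k w := fun k w => (hd k).nonneg w
  obtain ⟨R, hR⟩ : ∃ R : Lang, R = RR cb κ ω := ⟨_, rfl⟩
  have hYc : |YY cb κ Pr T j ω - d (2 * j) (pre R j)| ≤ (1 / 2 : ℝ) ^ (j + 2 * j + 3) := by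
    have := val_close hdn0 hA (2 * j) (j + 2 * j + 3) j [] hY
    rw [List.append_nil, ← hR] at this
    exact this
  have hX : ∀ i b, |XX cb κ Pr T j i b ω - d (2 * j) (pre R (j + i) ++ [b])|
      ≤ (1 / 2 : ℝ) ^ (j + i + 1 + 2 * j + 3) := by
    intro i b
    rw [hR]
    cases b
    · exact val_close hdn0 hA (2 * j) (j + i + 1 + 2 * j + 3) (j + i) [false] (hF i)
    · exact val_close hdn0 hA (2 * j) (j + i + 1 + 2 * j + 3) (j + i) [true] (hT i)
  have hproc : ∀ i, |proc (bb cb κ j) (XX cb κ Pr T j) (YY cb κ Pr T j) i ω -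
      d (2 * j) (pre R (j + i))| ≤ (1 / 2 : ℝ) ^ (j + i + 2 * j + 3) := by
    intro i
    cases i with
    | zero => exact hYc
    | succ i =>
      have h1 := hX i (bb cb κ j i ω)
      have h2 : pre R (j + (i + 1)) = pre R (j + i) ++ [bb cb κ j i ω] := by
        rw [← add_assoc, pre_succ, hR]
        rfl
      rw [h2]
      exact h1
  have hd0 : d (2 * j) [] ≤ (1 / 2 : ℝ) ^ (2 * j) := (hN (2 * j)).2.1
  have hdn : ∀ n ≤ j, d (2 * j) (pre R n) ≤ (1 / 2 : ℝ) ^ j := by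
    intro n hn
    calc d (2 * j) (pre R n) ≤ 2 ^ n * d (2 * j) [] := dens_pre (hd _) R n
      _ ≤ 2 ^ n * (1 / 2 : ℝ) ^ (2 * j) := by gcongr
      _ ≤ 2 ^ j * (1 / 2 : ℝ) ^ (2 * j) := by
          gcongr
          norm_num
      _ = (1 / 2 : ℝ) ^ j := by
          rw [two_mul, pow_add, ← mul_assoc, ← mul_pow]
          norm_num
  refine ⟨?_, ?_, ?_⟩
  · have h1 := (abs_le.mp hYc).2
    have h2 := hdn j le_rfl
    have h3 : (1 / 2 : ℝ) ^ (j + 2 * j + 3) ≤ (1 / 2 : ℝ) ^ j :=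
      pow_le_pow_of_le_one (by norm_num) (by norm_num) (by omega)
    linarith
  · intro i
    have h1 := (abs_le.mp (hX i false)).2
    have h2 := (abs_le.mp (hX i true)).2
    have h3 := (abs_le.mp (hproc i)).1
    have h4 := (hd (2 * j)).avg (pre R (j + i))
    have h5 : (1 / 2 : ℝ) ^ (j + i + 1 + 2 * j + 3) ≤ (1 / 2 : ℝ) ^ (j + i + 2 * j + 3) :=
      pow_le_pow_of_le_one (by norm_num) (by norm_num) (by omega)
    unfold ee
    linarith
  · obtain ⟨n, hn⟩ := (hN (2 * j)).2.2 R (by rw [hR]; rfl)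
    have hlt : j < n := by
      by_contra hle
      have h1 := hdn n (by omega)
      have h2 : (1 / 2 : ℝ) ^ j ≤ (1 / 2 : ℝ) ^ 1 :=
        pow_le_pow_of_le_one (by norm_num) (by norm_num) hj
      norm_num at h2
      norm_num at h1
      linarith
    obtain ⟨i, rfl⟩ := Nat.exists_eq_add_of_lt hlt
    refine ⟨i + 1, ?_⟩
    have h3 := (abs_le.mp (hproc (i + 1))).1
    rw [show j + (i + 1) = j + i + 1 by omega] at h3
    have h4 : (1 / 2 : ℝ) ^ (j + i + 1 + 2 * j + 3) ≤ (1 / 2 : ℝ) ^ 1 :=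
      pow_le_pow_of_le_one (by norm_num) (by norm_num) (by omega)
    rw [pow_one] at h4
    linarith

end NONX_

open NONX_ in
/-- Almost surely, no machine that is fast compared with the keys of the family `κ` has a null
cover of the hidden language or of its complement. -/
theorem p_NONX_of (hHIT : T_HIT) (hFAIR : T_FAIR) : T_NONX := by
  intro cb κ Pr T hfast
  rw [ae_iff]
  simp only [not_not]
  obtain ⟨t₀, ht₀'⟩ := hfast 8
  have ht₀ : ∀ t, t₀ ≤ t → ∀ l, l ≤ 8 * (t + 1) →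
      l + T l < 2 ^ lev κ (str t ++ [false]) ∧
        4 * (t + 1) ^ 2 * T l ≤ 2 ^ (lev κ (str t ++ [false]) / 2) := by
    intro t ht l hl
    obtain ⟨h1, h2⟩ := ht₀' t ht l hl
    exact ⟨h1.trans_le (Nat.pow_le_pow_right (by norm_num) (lev_ge κ t)),
      h2.trans (Nat.pow_le_pow_right (by norm_num) (Nat.div_le_div_right (lev_ge κ t)))⟩
  obtain ⟨t₁, ht₁⟩ : ∃ t₁, ∀ t, t₁ ≤ t → nn 0 ≤ lev κ (str t ++ [false]) := ⟨_, start κ⟩
  obtain ⟨f, hf⟩ : ∃ f : ℕ → ℝ≥0∞, ∀ t, f t = ENNReal.ofReal (1 / ((t : ℝ) + 1) ^ 2) :=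
    ⟨_, fun _ => rfl⟩
  have hfs : ∑' t, f t ≠ ∞ := by
    simp only [hf]
    exact hitsum
  have hbound : ∀ j, max 1 (max t₁ t₀) ≤ j →
      coin {ω | ∃ d : ℕ → List Bool → ℝ, IsNullCover d {fun x => xor cb (Hl κ ω x)} ∧
        Approx (oo ω) Pr T d} ≤
      ENNReal.ofReal (6 * (1 / 2 : ℝ) ^ j) + (f j + (∑' i, f (i + j) + ∑' i, f (i + j))) := by
    intro j hj
    have hj1 : 1 ≤ j := le_trans (le_max_left _ _) hj
    have hj2 : t₁ ≤ j := le_trans (le_max_left _ _) (le_trans (le_max_right _ _) hj)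
    have hj3 : t₀ ≤ j := le_trans (le_max_right _ _) (le_trans (le_max_right _ _) hj)
    have h0 : ∀ t, j ≤ t → nn 0 ≤ lev κ (str t ++ [false]) := fun t ht => ht₁ t (by omega)
    refine (measure_mono (incl cb κ Pr T j hj1)).trans ?_
    refine (measure_union_le _ _).trans (add_le_add (cross_bound hFAIR cb Pr T j h0) ?_)
    refine (measure_union_le _ _).trans (add_le_add ?_ ?_)
    · rw [hf]
      exact hit_bound cb hHIT κ Pr T 8 _ _ j [] (h0 _ le_rfl) (ht₀ j hj3) (by simp; omega)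
    · refine (measure_union_le _ _).trans (add_le_add ?_ ?_)
      · refine (measure_iUnion_le _).trans (ENNReal.tsum_le_tsum fun i => ?_)
        rw [add_comm i j, hf]
        exact hit_bound cb hHIT κ Pr T 8 _ _ (j + i) [false] (h0 _ (by omega))
          (ht₀ _ (by omega)) (by simp; omega)
      · refine (measure_iUnion_le _).trans (ENNReal.tsum_le_tsum fun i => ?_)
        rw [add_comm i j, hf]
        exact hit_bound cb hHIT κ Pr T 8 _ _ (j + i) [true] (h0 _ (by omega))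
          (ht₀ _ (by omega)) (by simp; omega)
  have hlim : Filter.Tendsto (fun j : ℕ =>
      ENNReal.ofReal (6 * (1 / 2 : ℝ) ^ j) + (f j + (∑' i, f (i + j) + ∑' i, f (i + j))))
      Filter.atTop (nhds 0) := by
    have h1 : Filter.Tendsto (fun j : ℕ => ENNReal.ofReal (6 * (1 / 2 : ℝ) ^ j)) Filter.atTop
        (nhds 0) := by
      have h2 : Filter.Tendsto (fun j : ℕ => 6 * (1 / 2 : ℝ) ^ j) Filter.atTop (nhds (6 * 0)) :=
        (tendsto_pow_atTop_nhds_zero_of_lt_one (by norm_num) (by norm_num)).const_mul 6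
      have h3 := ENNReal.tendsto_ofReal h2
      simpa using h3
    have h4 : Filter.Tendsto f Filter.atTop (nhds 0) :=
      ENNReal.tendsto_atTop_zero_of_tsum_ne_top hfs
    have h5 := ENNReal.tendsto_sum_nat_add f hfs
    simpa using h1.add (h4.add (h5.add h5))
  refine le_antisymm (ge_of_tendsto hlim ?_) zero_le
  filter_upwards [Filter.eventually_ge_atTop (max 1 (max t₁ t₀))] with j hj
  exact hbound j hj

end Pool.Agent.RelK
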