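import Pool.Agent.RelK.Targets5
import Pool.Agent.RelK.P_PQC

/-!
# Target PQ0: complementary machines if all families have the type 0
-/

set_option autoImplicit false

namespace Pool.Agent.RelK

open MeasureTheory Set
open scoped ENNReal
open Pool.Agent.RelM (Lang Instr Cfg run str)
open Pool.Agent.RelO (lev st)
open Pool.Agent.RelS (Z acc Idx Om Dep mixP)
open Pool.Agent.RelB (qbs)
open Pool.Agent.RelU (NM key cfg Cert Pu Thin)
open Pool.Agent.RelY (accw amb ms nn coin Wd Dj NK qb_small)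

variable [Md]

namespace PQ0_

/-- The new part of the world does not depend on the keys of the types `1` and `2`. -/
theorem Cw_zero (h : ∀ κ, Md.ty κ = 0) (j : ℕ) (τ : Om) (w w' : Dj j → Bool) :
    Cw j τ w = Cw j τ w' := by
  funext d
  unfold Cw
  rw [if_pos (h _), if_pos (h _)]

/-- Outside `NK j` a machine accepts iff `G0`. -/
theorem dic (hty : ∀ κ, Md.ty κ = 0) (hLKY : T_LKY) (hNKB : Pool.Agent.RelY.T_NKB)
    {j t : ℕ} (η : ℕ → ℕ → ℝ) (ω : Om) {v : NM} (ht : t ∈ Wd j) (hv : v ∈ vs j) :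
    coin.real {τ | acc (oh η (mixP (Old j) ω τ)) v (str t) ↔ ¬ G0 j η ω τ v t} ≤
      1 / ((j : ℝ) + 1) := by
  refine le_trans (measureReal_mono ?_) (hNKB j)
  intro τ hτ
  by_contra hn
  have h1 : acc (oh η (mixP (Old j) ω τ)) v (str t) ↔ G0 j η ω τ v t := by
    rw [acc_iff]
    unfold G0
    refine exists_congr fun y => ?_
    rw [hLKY j t η ω τ v ht hv hn y, Cw_zero hty j τ (ck j τ) (fun _ => false)]
  have hτ' : acc (oh η (mixP (Old j) ω τ)) v (str t) ↔ ¬ G0 j η ω τ v t := hτ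
  tauto

omit [Md] in
/-- the constants -/
theorem consts {γ : ℝ} (hγ : 0 < γ) : ∃ J : ℕ, ∀ j : ℕ, J ≤ j →
    4 * (γ / 8 + 2 * (1 / ((j : ℝ) + 1))) + 9 * (1 / ((j : ℝ) + 1)) + 1 / ((j : ℝ) + 1) ≤ γ := by
  obtain ⟨J, hJ⟩ := exists_nat_gt (36 / γ)
  refine ⟨J, fun j hj => ?_⟩
  have hj' : (J : ℝ) ≤ j := by exact_mod_cast hj
  have h1 : 36 / γ ≤ (j : ℝ) + 1 := by linarith
  rw [div_le_iff₀ hγ] at h1
  have h2 : 1 / ((j : ℝ) + 1) ≤ γ / 36 := by
    rw [div_le_div_iff₀ (by positivity) (by norm_num)]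
    linarith
  linarith

end PQ0_

open PQC_ PQ0_ in
theorem p_PQ0_of (hLKY : T_LKY) (hNKB : Pool.Agent.RelY.T_NKB) (hNC : Pool.Agent.RelU.T_NC)
    (hTHC : T_THC) (hLNK : T_LNK) (hUNF : T_UNF) : T_PQ0 := by
  intro hty γ hγ
  obtain ⟨J, hJ⟩ := PQ0_.consts hγ
  refine ⟨γ / 8, by positivity, J, fun j hj t η ω ht hbad => ?_⟩
  have hfin := hJ j hj
  obtain ⟨ε, hε⟩ : ∃ ε : ℝ, ε = γ / 8 := ⟨_, rfl⟩
  have hε0 : 0 < ε := by
    rw [hε]
    positivity
  rw [← hε] at hfin hbad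
  obtain ⟨β, hβ⟩ : ∃ β : ℝ, β = 1 / ((j : ℝ) + 1) := ⟨_, rfl⟩
  rw [← hβ] at hfin
  have hβ0 : 0 < β := by
    rw [hβ]
    positivity
  have hb0 : coin.real {τ | acc (oh η (mixP (Old j) ω τ)) (pc (st j)).1 (str t) ↔
      acc (oh η (mixP (Old j) ω τ)) (pc (st j)).2 (str t)} ≤ ε := by
    refine le_trans (measureReal_mono ?_) hbad
    intro τ hτ
    exact hτ
  have hd1 := dic hty hLKY hNKB η ω ht (vs_one j)
  have hd2 := dic hty hLKY hNKB η ω ht (vs_two j)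
  rw [← hβ] at hd1 hd2
  -- the sets of configurations
  have l1 : ∀ τ : Om, G0 j η ω τ (pc (st j)).1 t ↔
      cfg (ek j) (pq j τ).1 (pq j τ).2 ∈ Ac j η ω (pc (st j)).1 t := fun τ =>
    hLNK j t η ω τ _
  have l2 : ∀ τ : Om, G0 j η ω τ (pc (st j)).2 t ↔
      cfg (ek j) (pq j τ).1 (pq j τ).2 ∈ Ac j η ω (pc (st j)).2 t := fun τ =>
    hLNK j t η ω τ _
  have e1 : coin.real {τ | G0 j η ω τ (pc (st j)).1 t} =
      Pu {p : (Nw j → Bool) × (Nw j → KK j) |
        cfg (ek j) p.1 p.2 ∈ Ac j η ω (pc (st j)).1 t} := by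
    rw [← law hUNF j]
    congr 1
    ext τ
    exact l1 τ
  have e2 : coin.real {τ | G0 j η ω τ (pc (st j)).1 t ↔ G0 j η ω τ (pc (st j)).2 t} =
      Pu {p : (Nw j → Bool) × (Nw j → KK j) |
        cfg (ek j) p.1 p.2 ∈ Ac j η ω (pc (st j)).1 t ↔
        cfg (ek j) p.1 p.2 ∈ Ac j η ω (pc (st j)).2 t} := by
    rw [← law hUNF j]
    congr 1
    ext τ
    exact iff_congr (l1 τ) (l2 τ)
  have hGG : coin.real {τ | G0 j η ω τ (pc (st j)).1 t ↔ G0 j η ω τ (pc (st j)).2 t} ≤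
      ε + 2 * β := by
    have h1 : coin.real {τ | G0 j η ω τ (pc (st j)).1 t ↔ G0 j η ω τ (pc (st j)).2 t} ≤
        coin.real {τ | acc (oh η (mixP (Old j) ω τ)) (pc (st j)).1 (str t) ↔
          acc (oh η (mixP (Old j) ω τ)) (pc (st j)).2 (str t)} +
        coin.real ({τ | acc (oh η (mixP (Old j) ω τ)) (pc (st j)).1 (str t) ↔
            ¬ G0 j η ω τ (pc (st j)).1 t} ∪
          {τ | acc (oh η (mixP (Old j) ω τ)) (pc (st j)).2 (str t) ↔
            ¬ G0 j η ω τ (pc (st j)).2 t}) := by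
      refine real_le_add ?_
      intro τ hτ
      simp only [mem_union, mem_ofPred_eq] at hτ ⊢
      tauto
    have h2 := measureReal_union_le (μ := coin)
      {τ | acc (oh η (mixP (Old j) ω τ)) (pc (st j)).1 (str t) ↔
        ¬ G0 j η ω τ (pc (st j)).1 t}
      {τ | acc (oh η (mixP (Old j) ω τ)) (pc (st j)).2 (str t) ↔
        ¬ G0 j η ω τ (pc (st j)).2 t}
    linarith
  rw [e2] at hGG
  obtain ⟨-, -, h3⟩ := qb_small ht
  have h4 := hNC (Nw j) (KK j) (List Bool) (2 ^ nn j) (qbs (ms j) (str t).length) (ε + 2 * β)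
    (ek j) (Ac j η ω (pc (st j)).1 t) (Ac j η ω (pc (st j)).2 t) (by positivity) (hTHC.1 j)
    (hTHC.2 j t η ω _ ht (vs_one j)) (hTHC.2 j t η ω _ ht (vs_two j)) hGG
  rw [← e1] at h4
  have h5 : ((qbs (ms j) (str t).length : ℕ) : ℝ) / ((2 ^ nn j : ℕ) : ℝ) ≤ β := by
    rw [hβ]
    have hj : (0 : ℝ) < (j : ℝ) + 1 := by positivity
    have hN : (0 : ℝ) < ((2 ^ nn j : ℕ) : ℝ) := by positivity
    have h6 : (2 : ℝ) ^ (nn j / 2) ≤ 2 ^ nn j :=
      pow_le_pow_right₀ (by norm_num) (Nat.div_le_self _ _)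
    have h7 : 0 ≤ ((j : ℝ) + 1) * (qbs (ms j) (str t).length : ℝ) := by positivity
    rw [div_le_div_iff₀ hN hj]
    push_cast
    linarith
  -- the acceptance of the first machine
  have hG : coin.real {τ | G0 j η ω τ (pc (st j)).1 t} *
      (1 - coin.real {τ | G0 j η ω τ (pc (st j)).1 t}) ≤ 4 * (ε + 2 * β) + 9 * β := by linarith
  have hlip := calc_lip (a := pa j η ω t) (β := β) measureReal_nonneg
    (measureReal_le_one) measureReal_nonneg measureReal_le_one ?_ ?_ hG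
  · linarith
  · unfold pa
    refine le_trans (real_le_add (B := {τ | G0 j η ω τ (pc (st j)).1 t})
      (C := {τ | acc (oh η (mixP (Old j) ω τ)) (pc (st j)).1 (str t) ↔
        ¬ G0 j η ω τ (pc (st j)).1 t}) ?_) ?_
    · intro τ hτ
      have hτ' : acc (oh η (mixP (Old j) ω τ)) (pc (st j)).1 (str t) := hτ
      simp only [mem_union, mem_ofPred_eq]
      tauto
    · linarith
  · unfold pa
    refine le_trans (real_le_add (B := {τ | ans j η (mixP (Old j) ω τ) t})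
      (C := {τ | acc (oh η (mixP (Old j) ω τ)) (pc (st j)).1 (str t) ↔
        ¬ G0 j η ω τ (pc (st j)).1 t}) ?_) ?_
    · intro τ hτ
      simp only [mem_union, mem_ofPred_eq, ans] at hτ ⊢
      tauto
    · linarith

end Pool.Agent.RelK
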