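import Pool.Agent.RelK.MAIN5
import Pool.Agent.RelK.FIN
import Pool.Agent.RelK.P_NONX
import Pool.Agent.RelK.P_FLP
import Pool.Agent.RelK.P_NIN
import Pool.Agent.RelK.P_PQ0
import Pool.Agent.RelJ.MAIN
import Pool.Agent.RelJ.P_HIT
import Pool.Agent.RelJ.P_NONX
import Pool.Agent.RelJ.P_CLS
import Pool.Agent.RelJ.P_FLP
import Pool.Agent.RelJ.P_NIN

/-!
# The classification, without measure one
-/

set_option autoImplicit false

namespace Pool.Agent.RelK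

open MeasureTheory Set
open Pool.Agent.RelM (Lang NP E1 E2 Null1 Null2)
open Pool.Agent.RelO (GaleNull1 GaleNull2)
open Pool.Agent.RelQ (UP)
open Pool.Agent.RelU (NPco)
open Pool.Agent.RelY (coin Hl)
open Pool.Agent.RelZ (Large Small small_mono large_mono up_np npco_np upco_npco upco_up fin_small)

/-- More facts about an arbitrary world. -/
theorem facts5 [Md] : T_NONX ∧ T_NIN ∧ ((∀ κ, Md.ty κ = 0) → T_PAQ 1) := by
  have hNC := Pool.Agent.RelU.p_NC_of Pool.Agent.RelU.p_HK Pool.Agent.RelU.p_FUB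
    Pool.Agent.RelU.p_CH Pool.Agent.RelU.p_UC
  exact ⟨p_NONX_of (p_HIT_of Pool.Agent.RelY.p_KEYP) p_FAIR,
    p_NIN_of (p_FLP_of Pool.Agent.RelY.p_KEYP) p_DNS,
    p_PQ0_of p_LKY Pool.Agent.RelY.p_NKB hNC p_THC p_LNK p_UNF⟩

/-- Only `NP` is large. -/
theorem fin5_a : ∃ O : Lang, Large O (NP O) ∧ Small O (UP O) ∧ Small O (NPco O) ∧
    Large O (NP O)ᶜ := by
  letI : Md := ⟨fun _ => 2⟩
  obtain ⟨h1, h2, -, h4, h5, h6⟩ := facts
  obtain ⟨g1, g2, -⟩ := facts5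
  have ht : ∀ κ, Md.ty κ = 2 := fun _ => rfl
  have hU := h6 0 (h4 fun κ => by rw [ht]; decide)
  have hN := h6 1 (h5 ht)
  have hL := big g1 h2 NP (fun n => 2 * n + 1) (fun n => 2 * n)
    (fun n => ⟨by omega, by omega⟩) (fun n => ⟨by omega, by omega⟩)
    (Filter.Eventually.of_forall fun ω n => ⟨(h2 _ ω _).1, (h2 _ ω _).1⟩)
  have hC := conull g1 g2 h2 (fun n => 2 * n + 1) (fun n => 2 * n)
    (fun n => ⟨by omega, by omega, by rw [ht]; decide⟩)
    (fun n => ⟨by omega, by omega, by rw [ht]; decide⟩)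
  obtain ⟨ω, ⟨e1, e2⟩, e3, e4⟩ := ((hL.and hC).and (hU.and hN)).exists
  exact ⟨oo ω, e1, fun s hs => e3 s hs, fun s hs => e4 s hs, e2⟩

/-- `UP` and `NP` are large. -/
theorem fin5_u : ∃ O : Lang, Large O (UP O) ∧ Small O (NPco O) ∧ Large O (NP O)ᶜ := by
  letI : Md := ⟨fun _ => 0⟩
  obtain ⟨h1, h2, -, -, -, h6⟩ := facts
  obtain ⟨g1, g2, g3⟩ := facts5
  have ht : ∀ κ, Md.ty κ = 0 := fun _ => rfl
  have hN := h6 1 (g3 ht)
  have hL := big g1 h2 UP (fun n => 2 * n + 1) (fun n => 2 * n)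
    (fun n => ⟨by omega, by omega⟩) (fun n => ⟨by omega, by omega⟩)
    (Filter.Eventually.of_forall fun ω n => ⟨(h2 _ ω _).2.1 (ht _), (h2 _ ω _).2.1 (ht _)⟩)
  have hC := conull g1 g2 h2 (fun n => 2 * n + 1) (fun n => 2 * n)
    (fun n => ⟨by omega, by omega, by rw [ht]; decide⟩)
    (fun n => ⟨by omega, by omega, by rw [ht]; decide⟩)
  obtain ⟨ω, ⟨e1, e2⟩, e3⟩ := ((hL.and hC).and hN).exists
  exact ⟨oo ω, e1, fun s hs => e3 s hs, e2⟩

/-- `NP ∩ coNP` and `NP` are large. -/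
theorem fin5_y : ∃ O : Lang, Large O (NPco O) ∧ Small O (UP O) ∧ Large O (NP O)ᶜ := by
  letI : Md := ⟨fun κ => if κ % 4 < 2 then 2 else 1⟩
  obtain ⟨h1, h2, -, h4, -, h6⟩ := facts
  obtain ⟨g1, g2, -⟩ := facts5
  have ht : ∀ κ, κ % 4 < 2 → Md.ty κ = 2 := fun κ h => if_pos h
  have ht' : ∀ κ, 2 ≤ κ % 4 → Md.ty κ = 1 := fun κ h => if_neg (by omega)
  have hU := h6 0 (h4 fun κ => by
    rcases Nat.lt_or_ge (κ % 4) 2 with h | h
    · rw [ht κ h]; decide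
    · rw [ht' κ h]; decide)
  have hL := big g1 h2 NPco (fun n => 4 * n + 3) (fun n => 4 * n + 2)
    (fun n => ⟨by omega, by omega⟩) (fun n => ⟨by omega, by omega⟩)
    (Filter.Eventually.of_forall fun ω n =>
      ⟨(h2 _ ω _).2.2.1 (ht' _ (by omega)), (h2 _ ω _).2.2.1 (ht' _ (by omega))⟩)
  have hC := conull g1 g2 h2 (fun n => 4 * n + 1) (fun n => 4 * n)
    (fun n => ⟨by omega, by omega, by rw [ht _ (by omega)]; decide⟩)
    (fun n => ⟨by omega, by omega, by rw [ht _ (by omega)]; decide⟩)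
  obtain ⟨ω, ⟨e1, e2⟩, e3⟩ := ((hL.and hC).and hU).exists
  exact ⟨oo ω, e1, fun s hs => e3 s hs, e2⟩

/-- Only `UP ∩ coUP` is small. -/
theorem fin5_b : ∃ O : Lang, Large O (UP O) ∧ Large O (NPco O) ∧
    Small O {A | A ∈ UP O ∧ (fun x => !A x) ∈ UP O} ∧ Large O (NP O)ᶜ := by
  letI : Md := ⟨fun κ => if κ % 4 < 2 then 0 else 1⟩
  obtain ⟨h1, h2, h3, -, -, h6⟩ := facts
  obtain ⟨g1, g2, -⟩ := facts5
  have ht : ∀ κ, κ % 4 < 2 → Md.ty κ = 0 := fun κ h => if_pos h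
  have ht' : ∀ κ, 2 ≤ κ % 4 → Md.ty κ = 1 := fun κ h => if_neg (by omega)
  have hS := h6 2 h3
  have hL := big g1 h2 NPco (fun n => 4 * n + 3) (fun n => 4 * n + 2)
    (fun n => ⟨by omega, by omega⟩) (fun n => ⟨by omega, by omega⟩)
    (Filter.Eventually.of_forall fun ω n =>
      ⟨(h2 _ ω _).2.2.1 (ht' _ (by omega)), (h2 _ ω _).2.2.1 (ht' _ (by omega))⟩)
  have hL' := big g1 h2 UP (fun n => 4 * n + 1) (fun n => 4 * n)
    (fun n => ⟨by omega, by omega⟩) (fun n => ⟨by omega, by omega⟩)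
    (Filter.Eventually.of_forall fun ω n =>
      ⟨(h2 _ ω _).2.1 (ht _ (by omega)), (h2 _ ω _).2.1 (ht _ (by omega))⟩)
  have hC := conull g1 g2 h2 (fun n => 4 * n + 1) (fun n => 4 * n)
    (fun n => ⟨by omega, by omega, by rw [ht _ (by omega)]; decide⟩)
    (fun n => ⟨by omega, by omega, by rw [ht _ (by omega)]; decide⟩)
  obtain ⟨ω, ⟨e1, e2⟩, e3, e4⟩ := ((hL.and hL').and (hC.and hS)).exists
  exact ⟨oo ω, e2, e1, fun s hs => e4 s hs, e3⟩

/-- All classes are large. -/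
theorem fin5_l : ∃ O : Lang, Large O {A | A ∈ UP O ∧ (fun x => !A x) ∈ UP O} ∧
    Large O (NP O)ᶜ :=
  Pool.Agent.RelJ.main (Pool.Agent.RelJ.p_NONX_of Pool.Agent.RelJ.p_HIT Pool.Agent.RelZ.p_FAIR)
    (Pool.Agent.RelJ.p_NIN_of Pool.Agent.RelJ.p_FLP Pool.Agent.RelU.p_DNS)
    (Pool.Agent.RelJ.p_CLS_of Pool.Agent.RelZ.p_UPA Pool.Agent.RelB.p_APP)

/-- The classification. -/
theorem classification5 (a b c d : Prop) (hab : a → b) (hac : a → c) (hbd : b → d)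
    (hcd : c → d) : ∃ O : Lang,
    ((a → Large O {A | A ∈ UP O ∧ (fun x => !A x) ∈ UP O}) ∧
      (¬ a → Small O {A | A ∈ UP O ∧ (fun x => !A x) ∈ UP O})) ∧
    ((b → Large O (UP O)) ∧ (¬ b → Small O (UP O))) ∧
    ((c → Large O (NPco O)) ∧ (¬ c → Small O (NPco O))) ∧
    ((d → Large O (NP O)) ∧ (¬ d → Small O (NP O))) ∧ (d → Large O (NP O)ᶜ) := by
  by_cases ha : a
  · obtain ⟨O, h, h'⟩ := fin5_l
    exact ⟨O, ⟨fun _ => h, fun h' => absurd ha h'⟩,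
      ⟨fun _ => large_mono (upco_up O) h, fun h' => absurd (hab ha) h'⟩,
      ⟨fun _ => large_mono (upco_npco O) h, fun h' => absurd (hac ha) h'⟩,
      ⟨fun _ => large_mono ((upco_up O).trans (up_np O)) h, fun h' => absurd (hbd (hab ha)) h'⟩,
      fun _ => h'⟩
  by_cases hb : b
  · by_cases hc : c
    · obtain ⟨O, h1, h2, h3, h4⟩ := fin5_b
      exact ⟨O, ⟨fun h' => absurd h' ha, fun _ => h3⟩, ⟨fun _ => h1, fun h' => absurd hb h'⟩,
        ⟨fun _ => h2, fun h' => absurd hc h'⟩,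
        ⟨fun _ => large_mono (up_np O) h1, fun h' => absurd (hbd hb) h'⟩, fun _ => h4⟩
    · obtain ⟨O, h1, h3, h4⟩ := fin5_u
      exact ⟨O, ⟨fun h' => absurd h' ha, fun _ => small_mono (upco_npco O) h3⟩,
        ⟨fun _ => h1, fun h' => absurd hb h'⟩, ⟨fun h' => absurd h' hc, fun _ => h3⟩,
        ⟨fun _ => large_mono (up_np O) h1, fun h' => absurd (hbd hb) h'⟩, fun _ => h4⟩
  · by_cases hc : c
    · obtain ⟨O, h1, h3, h4⟩ := fin5_y
      exact ⟨O, ⟨fun h' => absurd h' ha, fun _ => small_mono (upco_up O) h3⟩,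
        ⟨fun h' => absurd h' hb, fun _ => h3⟩, ⟨fun _ => h1, fun h' => absurd hc h'⟩,
        ⟨fun _ => large_mono (npco_np O) h1, fun h' => absurd (hcd hc) h'⟩, fun _ => h4⟩
    · by_cases hd : d
      · obtain ⟨O, h1, h2, h3, h4⟩ := fin5_a
        exact ⟨O, ⟨fun h' => absurd h' ha, fun _ => small_mono (upco_up O) h2⟩,
          ⟨fun h' => absurd h' hb, fun _ => h2⟩, ⟨fun h' => absurd h' hc, fun _ => h3⟩,
          ⟨fun _ => h1, fun h' => absurd hd h'⟩, fun _ => h4⟩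
      · obtain ⟨O, h⟩ := fin_small
        exact ⟨O, ⟨fun h' => absurd h' ha,
            fun _ => small_mono ((upco_up O).trans (up_np O)) h⟩,
          ⟨fun h' => absurd h' hb, fun _ => small_mono (up_np O) h⟩,
          ⟨fun h' => absurd h' hc, fun _ => small_mono (npco_np O) h⟩,
          ⟨fun h' => absurd h' hd, fun _ => h⟩, fun h' => absurd h' hd⟩

end Pool.Agent.RelK
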