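import Pool.Agent.RelK.Targets
import Pool.Agent.RelC.MAIN

/-!
# RelK: the classes that are not null
-/

set_option autoImplicit false

namespace Pool.Agent.RelK

open MeasureTheory Set
open Pool.Agent.RelM (Lang Instr Decides E1 E2 NP Approx IsNullCover Null1 Null2)
open Pool.Agent.RelO (GaleNull1 GaleNull2)
open Pool.Agent.RelS (Rl orc Om)
open Pool.Agent.RelT (Fast fast1 fast2)
open Pool.Agent.RelU (NPco)
open Pool.Agent.RelY (coin Hl)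
open Pool.Agent.RelQ (UP)

/-- If languages outside null covers are in the classes, the classes are not null. -/
theorem not_null {O : Lang} {X : Set Lang} {L : ℕ → Lang} (g1 g2 : ℕ → ℕ)
    (hg1 : ∀ n, n ≤ g1 n ∧ g1 n % 2 = 1 ∧ L (g1 n) ∈ X)
    (hg2 : ∀ n, n ≤ g2 n ∧ g2 n % 2 = 0 ∧ L (g2 n) ∈ X)
    (hE1 : ∀ κ, κ % 2 = 1 → L κ ∈ E1 O) (hE2 : ∀ κ, κ % 2 = 0 → L κ ∈ E2 O)
    (h1 : ∀ (κ c : ℕ) (Pr : List Instr), Fast κ (fun l => (l + 2) ^ c) →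
      ¬ ∃ d : ℕ → List Bool → ℝ, IsNullCover d {L κ} ∧ Approx O Pr (fun l => (l + 2) ^ c) d)
    (h2 : ∀ (κ c : ℕ) (Pr : List Instr), Fast κ (fun l => 2 ^ ((Nat.log 2 l + 2) ^ c)) →
      ¬ ∃ d : ℕ → List Bool → ℝ, IsNullCover d {L κ} ∧
        Approx O Pr (fun l => 2 ^ ((Nat.log 2 l + 2) ^ c)) d) :
    ¬ Null1 O (X ∩ E1 O) ∧ ¬ Null2 O (X ∩ E2 O) := by
  have hcov : ∀ (d : ℕ → List Bool → ℝ) (Y : Set Lang) (A : Lang), A ∈ Y → IsNullCover d Y →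
      IsNullCover d {A} := fun d Y A hA hd k =>
    ⟨(hd k).1, (hd k).2.1, fun B hB => (hd k).2.2 B (by rw [show B = A from hB]; exact hA)⟩
  constructor
  · rintro ⟨d, hd, Pr, c, hA⟩
    obtain ⟨κ₀, hκ₀⟩ := fast1 c
    obtain ⟨h3, h5, h6⟩ := hg1 κ₀
    exact h1 (g1 κ₀) c Pr (hκ₀ _ h3 h5) ⟨d, hcov d (X ∩ E1 O) _ ⟨h6, hE1 _ h5⟩ hd, hA⟩
  · rintro ⟨d, hd, Pr, c, hA⟩
    obtain ⟨κ₀, hκ₀⟩ := fast2 c
    obtain ⟨h3, h5, h6⟩ := hg2 κ₀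
    exact h2 (g2 κ₀) c Pr (hκ₀ _ h3 h5) ⟨d, hcov d (X ∩ E2 O) _ ⟨h6, hE2 _ h5⟩ hd, hA⟩

section
variable [Md]

/-- The hidden languages have no null covers. -/
theorem nonb (hNB : T_NONB) : ∀ᵐ ω ∂coin,
    (∀ (κ c : ℕ) (Pr : List Instr), Fast κ (fun l => (l + 2) ^ c) →
      ¬ ∃ d : ℕ → List Bool → ℝ, IsNullCover d {Hl κ ω} ∧
        Approx (oo ω) Pr (fun l => (l + 2) ^ c) d) ∧
    (∀ (κ c : ℕ) (Pr : List Instr), Fast κ (fun l => 2 ^ ((Nat.log 2 l + 2) ^ c)) →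
      ¬ ∃ d : ℕ → List Bool → ℝ, IsNullCover d {Hl κ ω} ∧
        Approx (oo ω) Pr (fun l => 2 ^ ((Nat.log 2 l + 2) ^ c)) d) := by
  have a1 : ∀ᵐ ω ∂coin, ∀ (κ c : ℕ) (Pr : List Instr),
      Fast κ (fun l => (l + 2) ^ c) →
      ¬ ∃ d : ℕ → List Bool → ℝ, IsNullCover d {Hl κ ω} ∧
        Approx (oo ω) Pr (fun l => (l + 2) ^ c) d := by
    refine ae_all_iff.2 fun κ => ae_all_iff.2 fun c => ae_all_iff.2 fun Pr => ?_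
    by_cases h2 : Fast κ (fun l => (l + 2) ^ c)
    · filter_upwards [hNB κ Pr _ h2] with ω hω _
      exact hω
    · exact Filter.Eventually.of_forall fun ω h => (h2 h).elim
  have a2 : ∀ᵐ ω ∂coin, ∀ (κ c : ℕ) (Pr : List Instr),
      Fast κ (fun l => 2 ^ ((Nat.log 2 l + 2) ^ c)) →
      ¬ ∃ d : ℕ → List Bool → ℝ, IsNullCover d {Hl κ ω} ∧
        Approx (oo ω) Pr (fun l => 2 ^ ((Nat.log 2 l + 2) ^ c)) d := by
    refine ae_all_iff.2 fun κ => ae_all_iff.2 fun c => ae_all_iff.2 fun Pr => ?_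
    by_cases h2 : Fast κ (fun l => 2 ^ ((Nat.log 2 l + 2) ^ c))
    · filter_upwards [hNB κ Pr _ h2] with ω hω _
      exact hω
    · exact Filter.Eventually.of_forall fun ω h => (h2 h).elim
  exact a1.and a2

/-- The world of type `2`. -/
theorem main_a (hNB : T_NONB) (hCLS : T_CLS) (hU : T_UPP 0)
    (hN : T_UPP 1) : ∃ O : Lang,
    (¬ Null1 O (NP O ∩ E1 O) ∧ ¬ Null2 O (NP O ∩ E2 O)) ∧
    (∀ s : ℝ, 0 < s → GaleNull1 s O (UP O) ∧ GaleNull2 s O (UP O)) ∧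
    (∀ s : ℝ, 0 < s → GaleNull1 s O (NPco O) ∧ GaleNull2 s O (NPco O)) := by
  obtain ⟨ω, ⟨h3, h4⟩, h5, h6⟩ := ((nonb hNB).and (hU.and hN)).exists
  refine ⟨oo ω, ?_, fun s hs => h5 s hs, fun s hs => h6 s hs⟩
  exact not_null (L := fun κ => Hl κ ω) (fun n => 2 * n + 1) (fun n => 2 * n)
    (fun n => ⟨by omega, by omega, (hCLS _ ω _).1⟩) (fun n => ⟨by omega, by omega, (hCLS _ ω _).1⟩)
    (fun κ hκ => (hCLS _ ω κ).2.2.2.1 hκ) (fun κ hκ => (hCLS _ ω κ).2.2.2.2 hκ) h3 h4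

/-- The world of the types `0` and `1`. -/
theorem main_b (hNB : T_NONB) (hCLS : T_CLS) (h0 : ∀ κ, κ % 4 < 2 → Md.ty κ = 0)
    (h1 : ∀ κ, 2 ≤ κ % 4 → Md.ty κ = 1) (hC : T_UPP 2) : ∃ O : Lang,
    (¬ Null1 O (UP O ∩ E1 O) ∧ ¬ Null2 O (UP O ∩ E2 O)) ∧
    (¬ Null1 O (NPco O ∩ E1 O) ∧ ¬ Null2 O (NPco O ∩ E2 O)) ∧
    (∀ s : ℝ, 0 < s → GaleNull1 s O {A | A ∈ UP O ∧ (fun x => !A x) ∈ UP O} ∧
      GaleNull2 s O {A | A ∈ UP O ∧ (fun x => !A x) ∈ UP O}) := by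
  obtain ⟨ω, ⟨h3, h4⟩, h5⟩ := ((nonb hNB).and hC).exists
  refine ⟨oo ω, ?_, ?_, fun s hs => h5 s hs⟩
  · exact not_null (L := fun κ => Hl κ ω) (fun n => 4 * n + 1) (fun n => 4 * n)
      (fun n => ⟨by omega, by omega, (hCLS _ ω _).2.1 (h0 _ (by omega))⟩)
      (fun n => ⟨by omega, by omega, (hCLS _ ω _).2.1 (h0 _ (by omega))⟩)
      (fun κ hκ => (hCLS _ ω κ).2.2.2.1 hκ) (fun κ hκ => (hCLS _ ω κ).2.2.2.2 hκ) h3 h4
  · exact not_null (L := fun κ => Hl κ ω) (fun n => 4 * n + 3) (fun n => 4 * n + 2)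
      (fun n => ⟨by omega, by omega, (hCLS _ ω _).2.2.1 (h1 _ (by omega))⟩)
      (fun n => ⟨by omega, by omega, (hCLS _ ω _).2.2.1 (h1 _ (by omega))⟩)
      (fun κ hκ => (hCLS _ ω κ).2.2.2.1 hκ) (fun κ hκ => (hCLS _ ω κ).2.2.2.2 hκ) h3 h4

end

end Pool.Agent.RelK
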