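import Pool.Agent.RelK.Targets
import Pool.Agent.RelK.ACC

/-!
# RelK: the targets of part 5 (no zero-one law)

The complements of the hidden languages of presence type (`Md.ty κ ≠ 1`) are in `E` or `E_2`, escape all null
covers, and are not in `NP`. Paper proof: idea row 5452.
-/

set_option autoImplicit false

namespace Pool.Agent.RelK

open MeasureTheory Set
open scoped ENNReal
open Pool.Agent.RelM (Lang Instr Cfg step run Halts Decides E1 E2 NP pair triple binVal outVal
  Approx IsDensity str pre IsNullCover Null1 Null2 wq sq0 sq1 Asks hq code qb)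
open Pool.Agent.RelO (lev IsGale IsGaleCover GaleNull1 GaleNull2 st)
open Pool.Agent.RelS (Z Rl orcV orc acc Idx Om bern bern_prob Dep mixP PF wt)
open Pool.Agent.RelT (Fast)
open Pool.Agent.RelU (NM)
open Pool.Agent.RelY (ms accw amb nn jj sv coin kk op NoKey bitsOf Wd bl SS Hl)

variable [Md]

/-- **NONX** (20 min; from T_HIT, T_FAIR). `P_NONB.lean` with the language `fun x => xor c (Hl κ ω x)` instead of
`Hl κ ω`, for both values of `c` (for `c = true` it is the complement): its bit at `str t` is `b` iff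
`Hl κ ω (str t) = xor c b`, so T_FAIR applies. -/
def T_NONX : Prop := ∀ (c : Bool) (κ : ℕ) (Pr : List Instr) (T : ℕ → ℕ), Fast κ T →
  ∀ᵐ ω ∂coin, ¬ ∃ d : ℕ → List Bool → ℝ,
    IsNullCover d {fun x => xor c (Hl κ ω x)} ∧ Approx (oo ω) Pr T d

/-- **FLP** (45 min; from `RelY.T_KEYP`; template `P_HIT.lean`). PROOF. Let `x = str t`, `a = (κ, x, [], 0)` (not in `Old j`,
as `nn j ≤ x.length`), `τ₀`, `τ₁` the samples `mixP (Old j) ω τ` with the value of `a` changed to `false`, `true`. As `a` is a fair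
coin, the probability is `1 / 2 * P(acc τ₀) + 1 / 2 * (1 - P(acc τ₁))`. If `τ₀` accepts, choose a witness `y` (depends only on
`oh η τ₀`, hence not on the key coins of the pair `κ, x ++ [true]`, for which `zo τ₀` is `false`). The oracles of
`τ₀` and `τ₁` differ only at the words `wq κ (x ++ [true]) y'`, `y'` a key, and at `sq1 κ (x ++ [true]) m` with
`2 ^ lev ≤ m` (too long to be asked). So if the run of `y` is not the same with `τ₁`, one of the at most `qbs (ms j) _` words
asked in the run with `τ₀` is `wq κ (x ++ [true]) y'` with a key `y'`: for each the probability is at most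
`2 ^ -(lev κ (x ++ [true]) / 2)` (T_KEYP for the type `2`; for the type `0` the key is `y'` with probability `2 ^ -lev`), and
`lev κ (x ++ [true]) / 2 ≥ nn j`, `2 * qbs (ms j) _ ≤ 2 ^ (nn j / 2)` (`RelY.qb_small`). So `P(acc τ₀) ≤ P(acc τ₁) + 1 / 2`. -/
def T_FLP : Prop := ∀ κ : ℕ, Md.ty κ ≠ 1 → ∀ (j t : ℕ) (η : ℕ → ℕ → ℝ) (ω : Om) (v : NM),
  t ∈ Wd j → v ∈ vs j →
  coin.real {τ | acc (oh η (mixP (Old j) ω τ)) v (str t) ↔
    Hl κ (mixP (Old j) ω τ) (str t) = false} ≤ 3 / 4

/-- **NIN** (30 min; from T_FLP, T_DNS). If not, for some machine `v` the set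
`S = {ω | ∀ j ≥ 1, st j = e → (acc (oo ω) v (str (2 ^ nn j)) ↔ Hl κ ω (str (2 ^ nn j)) = false)}` (`pc e = (v, v)`, `NN.pc_surj`; `Tr j t ω`
is `acc (oo ω) (pc (st j)).1 (str t)`) is not null; it is measurable (each condition depends on finitely many
coins: `SUC_.tr_dep` and the coin of the word; `RelS.fd`, `meas_of_dep`). T_DNS with `ε = 1 / 8`, `m = 1` gives `j`, `ω` with
`coin.real {τ | mixP (Old j) ω τ ∉ S} ≤ 1 / 8`, but by T_FLP (`SUC_.truth_iff`, `hs_congr`: `hs (mixP (Old j) ω τ) j = hs ω j`) it is at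
least `1 / 4`. -/
def T_NIN : Prop := ∀ κ : ℕ, Md.ty κ ≠ 1 →
  ∀ᵐ ω ∂coin, (fun x => xor true (Hl κ ω x)) ∉ NP (oo ω)

/-- **PQ0** (20 min; from T_LKY, `RelY.T_NKB`, `RelU.T_NC`, T_THC, T_LNK, T_UNF). Edit of `P_PQC.lean`: if all types are `0` then
`Cw j τ w` does not depend on `w`, so outside `NK j` (probability `1 / (j + 1)`) a machine accepts iff `G0`; so
`β = 1 / (j + 1)` instead of the bound of DIC. -/
def T_PQ0 : Prop := (∀ κ, Md.ty κ = 0) → T_PAQ 1

end Pool.Agent.RelK
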