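import Pool.Agent.RelK.MAIN
import Pool.Agent.RelK.Targets5
import Pool.Agent.RelJ.Core
import Pool.Agent.RelB.P_XOR
import Pool.Agent.RelZ.FIN

/-!
# No zero-one law: the classes that are not null have not measure one
-/

set_option autoImplicit false

namespace Pool.Agent.RelK

open MeasureTheory Set
open Pool.Agent.RelM (Lang Instr Decides E1 E2 NP Approx IsNullCover Null1 Null2 run Halts)
open Pool.Agent.RelO (GaleNull1 GaleNull2)
open Pool.Agent.RelS (Rl orc Om)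
open Pool.Agent.RelT (Fast fast1 fast2)
open Pool.Agent.RelU (NPco)
open Pool.Agent.RelY (coin Hl)
open Pool.Agent.RelQ (UP)
open Pool.Agent.RelZ (Large Small)

/-! ## Complements in `E` and `E_2` -/

theorem e_true (O : Lang) (T : ℕ → ℕ) (hT : ∀ n, 1 ≤ T n) :
    Decides O [Instr.push 1 true] (fun _ => true) T := by
  intro x
  have h1 : run O [Instr.push 1 true] x 1 =
      ⟨1, Function.update (Function.update (fun _ => []) 0 x) 1 [true]⟩ := by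
    rw [show (1 : ℕ) = 0 + 1 from rfl, Pool.Agent.RelM.run_succ, Pool.Agent.RelM.run_zero]
    simp [Pool.Agent.RelM.step]
  have h2 : Halts O [Instr.push 1 true] x 1 := by
    unfold Halts
    rw [h1]
    simp
  have h3 := Pool.Agent.RelM.stay _ _ _ _ _ h2 (hT x.length)
  refine ⟨Pool.Agent.RelM.halts_mono _ _ _ _ _ h2 (hT x.length), ?_⟩
  rw [h3, h1]
  simp

/-- `E` and `E_2` are closed under complements. -/
theorem cpl (O A : Lang) : (A ∈ E1 O → (fun x => xor true (A x)) ∈ E1 O) ∧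
    (A ∈ E2 O → (fun x => xor true (A x)) ∈ E2 O) := by
  have h := Pool.Agent.RelB.p_XOR O (fun _ => true) A
  exact ⟨h.1 ⟨_, 0, e_true O _ fun _ => Nat.one_le_two_pow⟩,
    h.2 ⟨_, 0, e_true O _ fun _ => Nat.one_le_two_pow⟩⟩

section
variable [Md]

/-- The hidden languages and their complements have no null covers. -/
theorem nonx (hNX : T_NONX) (c : Bool) : ∀ᵐ ω ∂coin,
    (∀ (κ m : ℕ) (Pr : List Instr), Fast κ (fun l => (l + 2) ^ m) →
      ¬ ∃ d : ℕ → List Bool → ℝ, IsNullCover d {fun x => xor c (Hl κ ω x)} ∧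
        Approx (oo ω) Pr (fun l => (l + 2) ^ m) d) ∧
    (∀ (κ m : ℕ) (Pr : List Instr), Fast κ (fun l => 2 ^ ((Nat.log 2 l + 2) ^ m)) →
      ¬ ∃ d : ℕ → List Bool → ℝ, IsNullCover d {fun x => xor c (Hl κ ω x)} ∧
        Approx (oo ω) Pr (fun l => 2 ^ ((Nat.log 2 l + 2) ^ m)) d) := by
  have a1 : ∀ᵐ ω ∂coin, ∀ (κ m : ℕ) (Pr : List Instr),
      Fast κ (fun l => (l + 2) ^ m) →
      ¬ ∃ d : ℕ → List Bool → ℝ, IsNullCover d {fun x => xor c (Hl κ ω x)} ∧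
        Approx (oo ω) Pr (fun l => (l + 2) ^ m) d := by
    refine ae_all_iff.2 fun κ => ae_all_iff.2 fun m => ae_all_iff.2 fun Pr => ?_
    by_cases h2 : Fast κ (fun l => (l + 2) ^ m)
    · filter_upwards [hNX c κ Pr _ h2] with ω hω _
      exact hω
    · exact Filter.Eventually.of_forall fun ω h => (h2 h).elim
  have a2 : ∀ᵐ ω ∂coin, ∀ (κ m : ℕ) (Pr : List Instr),
      Fast κ (fun l => 2 ^ ((Nat.log 2 l + 2) ^ m)) →
      ¬ ∃ d : ℕ → List Bool → ℝ, IsNullCover d {fun x => xor c (Hl κ ω x)} ∧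
        Approx (oo ω) Pr (fun l => 2 ^ ((Nat.log 2 l + 2) ^ m)) d := by
    refine ae_all_iff.2 fun κ => ae_all_iff.2 fun m => ae_all_iff.2 fun Pr => ?_
    by_cases h2 : Fast κ (fun l => 2 ^ ((Nat.log 2 l + 2) ^ m))
    · filter_upwards [hNX c κ Pr _ h2] with ω hω _
      exact hω
    · exact Filter.Eventually.of_forall fun ω h => (h2 h).elim
  exact a1.and a2

/-- A class that contains many hidden languages is not null. -/
theorem big (hNX : T_NONX) (hCLS : T_CLS) (X : Lang → Set Lang) (g1 g2 : ℕ → ℕ)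
    (hg1 : ∀ n, n ≤ g1 n ∧ g1 n % 2 = 1) (hg2 : ∀ n, n ≤ g2 n ∧ g2 n % 2 = 0)
    (hX : ∀ᵐ ω ∂coin, ∀ n, Hl (g1 n) ω ∈ X (oo ω) ∧ Hl (g2 n) ω ∈ X (oo ω)) :
    ∀ᵐ ω ∂coin, Large (oo ω) (X (oo ω)) := by
  filter_upwards [nonx hNX false, hX] with ω h1 h2
  have h3 : ∀ κ, (fun x => xor false (Hl κ ω x)) = Hl κ ω := by
    intro κ
    funext x
    simp
  simp only [h3] at h1
  exact not_null (L := fun κ => Hl κ ω) g1 g2
    (fun n => ⟨(hg1 n).1, (hg1 n).2, (h2 n).1⟩) (fun n => ⟨(hg2 n).1, (hg2 n).2, (h2 n).2⟩)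
    (fun κ hκ => (hCLS _ ω κ).2.2.2.1 hκ) (fun κ hκ => (hCLS _ ω κ).2.2.2.2 hκ) h1.1 h1.2

/-- `NP` has not measure one. -/
theorem conull (hNX : T_NONX) (hNIN : T_NIN) (hCLS : T_CLS) (g1 g2 : ℕ → ℕ)
    (hg1 : ∀ n, n ≤ g1 n ∧ g1 n % 2 = 1 ∧ Md.ty (g1 n) ≠ 1)
    (hg2 : ∀ n, n ≤ g2 n ∧ g2 n % 2 = 0 ∧ Md.ty (g2 n) ≠ 1) :
    ∀ᵐ ω ∂coin, Large (oo ω) (NP (oo ω))ᶜ := by
  have h0 : ∀ᵐ ω ∂coin, ∀ κ, Md.ty κ ≠ 1 → (fun x => xor true (Hl κ ω x)) ∉ NP (oo ω) := by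
    refine ae_all_iff.2 fun κ => ?_
    by_cases h : Md.ty κ ≠ 1
    · filter_upwards [hNIN κ h] with ω hω _
      exact hω
    · exact Filter.Eventually.of_forall fun ω h' => (h h').elim
  filter_upwards [nonx hNX true, h0] with ω h1 h2
  exact not_null (L := fun κ x => xor true (Hl κ ω x)) g1 g2
    (fun n => ⟨(hg1 n).1, (hg1 n).2.1, h2 _ (hg1 n).2.2⟩)
    (fun n => ⟨(hg2 n).1, (hg2 n).2.1, h2 _ (hg2 n).2.2⟩)
    (fun κ hκ => (cpl _ _).1 ((hCLS _ ω κ).2.2.2.1 hκ))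
    (fun κ hκ => (cpl _ _).2 ((hCLS _ ω κ).2.2.2.2 hκ)) h1.1 h1.2

end

end Pool.Agent.RelK
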