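import Pool.Agent.RelK.Targets
import Pool.Agent.RelY.ACC

/-!
# RELK, block THC: thin fibres of the key map, and certificates of acceptance
-/

set_option autoImplicit false

namespace Pool.Agent.RelK

open MeasureTheory Set
open scoped ENNReal
open Pool.Agent.RelM (Lang Instr Cfg step run Halts pair triple str pre wq sq0 sq1 Asks hq code qb)
open Pool.Agent.RelO (lev st)
open Pool.Agent.RelS (Z Rl orcV orc acc Idx Om)
open Pool.Agent.RelB (ML qbs DD WW WW_mid ask_len orc_eq)
open Pool.Agent.RelM.HFIX_ (qb_bound)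
open Pool.Agent.RelU (NM Cert Thin)
open Pool.Agent.RelY (ucode ms accw nn bitsOf Wd Dj)

variable [Md]

namespace THC_

/-! ## Thin fibres -/

theorem key (j : ℕ) (x : Nw j) (v : List Bool) (A : Finset (KK j))
    (hA : ∀ k ∈ A, ek j x k = v) : 2 ^ nn j * A.card ≤ Fintype.card (KK j) := by
  have hx1 : nn j ≤ lev x.1.1 x.1.2 := x.2.1
  have hx2 : lev x.1.1 x.1.2 < nn (j + 1) := x.2.2.1
  let f : (Fin (nn j) → Bool) × {k // k ∈ A} → KK j := fun p i =>
    if h : i.1 < nn j then p.1 ⟨i.1, h⟩ else p.2.1 i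
  have hinj : Function.Injective f := by
    rintro ⟨b, k, hk⟩ ⟨b', k', hk'⟩ h
    have h1 : ∀ i : Fin (nn (j + 1)), f (b, ⟨k, hk⟩) i = f (b', ⟨k', hk'⟩) i :=
      fun i => congrFun h i
    have hb : b = b' := by
      funext i
      have h2 := h1 ⟨i.1, by omega⟩
      simpa [f] using h2
    have hkk : k = k' := by
      funext i
      by_cases hi : i.1 < nn j
      · have h3 : ek j x k = ek j x k' := (hA k hk).trans (hA k' hk').symm
        unfold ek at h3
        have h4 := List.map_inj_left.1 h3 i.1 (List.mem_range.2 (by omega))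
        simpa using h4
      · have h2 := h1 i
        simpa [f, hi] using h2
    subst hb
    subst hkk
    rfl
  have h5 := Fintype.card_le_of_injective f hinj
  rw [Fintype.card_prod, Fintype.card_coe] at h5
  simpa using h5

/-! ## The bounds of the machines of a stage -/

omit [Md] in
theorem pc_le (e : ℕ) : (pc e).1.2.1 + (pc e).1.2.2 ≤ (ucode e).2.1 + (ucode e).2.2 ∧
    (pc e).2.2.1 + (pc e).2.2.2 ≤ (ucode e).2.1 + (ucode e).2.2 := by
  unfold pc
  split_ifs with h
  · exact h
  · exact ⟨Nat.zero_le _, Nat.zero_le _⟩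

omit [Md] in
theorem vs_le {j : ℕ} {v : NM} (hv : v ∈ vs j) (n : ℕ) : qb v n ≤ qbs (ms j) n := by
  have h1 : v.2.1 + v.2.2 ≤ (ucode (st j)).2.1 + (ucode (st j)).2.2 := by
    have h0 := pc_le (st j)
    simp only [vs, List.mem_cons, List.not_mem_nil, or_false] at hv
    rcases hv with rfl | rfl
    · exact h0.1
    · exact h0.2
  refine le_trans ?_ (Pool.Agent.RelY.qb_le j n)
  unfold qb
  exact Nat.pow_le_pow_right (by omega) (by omega)

/-! ## Certificates -/

/-- The answer at a question depends only on whether the key of its word is the word asked. -/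
theorem cc_congr {j : ℕ} {c c' : Nw j → Option (List Bool)} (d : Dj j)
    (h : ∀ p : Nw j × List Bool, (p.1.1.1, p.1.1.2, p.2) = d.1 →
      (c' p.1 = some p.2 ↔ c p.1 = some p.2)) : cc j c' d = cc j c d := by
  unfold cc
  split_ifs with h1
  · exact decide_eq_decide.2 (h (⟨(d.1.1, d.1.2.1), h1⟩, d.1.2.2) rfl)
  · rfl

theorem crt (j t : ℕ) (η : ℕ → ℕ → ℝ) (ω : Om) (v : NM) (ht : t ∈ Wd j) (hv : v ∈ vs j) :
    Cert (qbs (ms j) (str t).length) (Ac j η ω v t) := by
  classical
  intro c hz
  obtain ⟨y, hy, hr⟩ := hz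
  obtain ⟨-, q2, -⟩ := Pool.Agent.RelY.qb_small ht
  have q3 := vs_le hv (str t).length
  have q4 := qb_bound v (str t).length
  have uniq : ∀ (s : ℕ) (p p' : Nw j × List Bool),
      Asks (orc (bitsOf η) (Wz j ω (cc j c))) v.1 (pair (str t) y) s
        (wq p.1.1.1 p.1.1.2 p.2) →
      Asks (orc (bitsOf η) (Wz j ω (cc j c))) v.1 (pair (str t) y) s
        (wq p'.1.1.1 p'.1.1.2 p'.2) →
      p = p' := by
    intro s p p' h1 h2
    have h6 := Pool.Agent.RelM.one _ _ _ _ _ _ h1 h2
    obtain ⟨e1, e2, e3⟩ := Pool.Agent.RelM.wq_inj h6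
    exact Prod.ext (Subtype.ext (Prod.ext e1 e2)) e3
  refine ⟨(Finset.range (((str t).length + 2) ^ v.2.2)).biUnion fun s =>
    if h : ∃ p : Nw j × List Bool,
      Asks (orc (bitsOf η) (Wz j ω (cc j c))) v.1 (pair (str t) y) s
        (wq p.1.1.1 p.1.1.2 p.2)
    then {h.choose} else ∅, ?_, ?_⟩
  · refine Finset.card_biUnion_le.trans ?_
    refine (Finset.sum_le_card_nsmul _ _ 1 fun s _ => ?_).trans ?_
    · split_ifs
      · simp
      · simp
    · rw [Finset.card_range, smul_eq_mul, mul_one]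
      omega
  · intro c' hC
    refine ⟨y, hy, ?_⟩
    rw [Pool.Agent.RelM.loc (orc (bitsOf η) (Wz j ω (cc j c)))
      (orc (bitsOf η) (Wz j ω (cc j c'))) v.1
      (pair (str t) y) (((str t).length + 2) ^ v.2.2) (fun s hs q hq => ?_) _ le_rfl]
    · exact hr
    · have hl := ask_len hy hs hq
      have hd : ∀ d : Dj j, q = wq d.1.1 d.1.2.1 d.1.2.2 → cc j c' d = cc j c d := by
        intro d hd
        refine cc_congr d fun p hp => hC p ?_
        rw [Finset.mem_biUnion]
        refine ⟨s, Finset.mem_range.2 hs, ?_⟩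
        have hq' : q = wq p.1.1.1 p.1.1.2 p.2 := by
          rw [hd, ← hp]
        have h1 : ∃ p : Nw j × List Bool,
          Asks (orc (bitsOf η) (Wz j ω (cc j c))) v.1 (pair (str t) y) s
            (wq p.1.1.1 p.1.1.2 p.2) := ⟨p, by rw [← hq']; exact hq⟩
        rw [dif_pos h1, Finset.mem_singleton]
        exact uniq s p _ (by rw [← hq']; exact hq) h1.choose_spec
      rw [Bool.eq_iff_iff]
      exact ⟨orc_eq (by omega) hd, orc_eq (by omega) fun d h => (hd d h).symm⟩

end THC_

open THC_ in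
theorem p_THC : T_THC := by
  refine ⟨fun j x v => key j x v _ fun k hk => ?_, crt⟩
  simpa using hk

end Pool.Agent.RelK
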